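import Mathlib
import Pool.Agent.U396.H2.Anti

/-!
# Cuts of linear extensions

A cut of a linear extension is a position `p`; it is valid for `D`, `U` if the elements of `D` are before
and the elements of `U` are after the cut. The number of pairs of a linear extension and a valid cut with
`i` elements of `M` before the cut does not increase with `i`.
-/

set_option autoImplicit false
set_option linter.unusedSectionVars false

open Finset
open scoped Classical

namespace Pool.Agent.U276.TP

open Pool.Agent.Y491.BF Pool.Agent.U396.H2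

variable {α : Type} [Fintype α] [PartialOrder α]

/-- the cut `p` is after all elements of `D` and before all elements of `U` -/
def Val (D U : Set α) (p : ℕ) (σ : α ≃ Fin (Fintype.card α)) : Prop :=
  (∀ w ∈ D, (σ w : ℕ) < p) ∧ ∀ u ∈ U, p ≤ (σ u : ℕ)

/-- the number of elements of `M` before the cut -/
noncomputable def cM (M : Finset α) (p : ℕ) (σ : α ≃ Fin (Fintype.card α)) : ℕ :=
  (M.filter fun z => (σ z : ℕ) < p).card

/-- the number of pairs of a linear extension and a cut with a property -/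
noncomputable def Cc (q : ℕ → (α ≃ Fin (Fintype.card α)) → Prop) : ℕ :=
  ∑ p ∈ range (Fintype.card α + 1), nn (q p)

lemma nn_le_sum {s : Finset ℕ} {q : (α ≃ Fin (Fintype.card α)) → Prop}
    {Q : ℕ → (α ≃ Fin (Fintype.card α)) → Prop}
    (h : ∀ σ ∈ Y491.BF.LE α, q σ → ∃ j ∈ s, Q j σ) : nn q ≤ ∑ j ∈ s, nn (Q j) := by
  unfold nn
  refine le_trans (Finset.card_le_card fun σ hσ => ?_) Finset.card_biUnion_le
  have h1 := memf.mp hσ
  obtain ⟨j, hj, h2⟩ := h σ h1.1 h1.2
  exact Finset.mem_biUnion.mpr ⟨j, hj, memf.mpr ⟨h1.1, h2⟩⟩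

lemma sum_nn_le {s : Finset ℕ} {q : (α ≃ Fin (Fintype.card α)) → Prop}
    {Q : ℕ → (α ≃ Fin (Fintype.card α)) → Prop}
    (h : ∀ j ∈ s, ∀ σ ∈ Y491.BF.LE α, Q j σ → q σ)
    (hd : ∀ i ∈ s, ∀ j ∈ s, ∀ σ ∈ Y491.BF.LE α, Q i σ → Q j σ → i = j) :
    ∑ j ∈ s, nn (Q j) ≤ nn q := by
  unfold nn
  rw [← Finset.card_biUnion]
  · refine Finset.card_le_card fun σ hσ => ?_
    obtain ⟨j, hj, h1⟩ := Finset.mem_biUnion.mp hσ
    have h2 := memf.mp h1
    exact memf.mpr ⟨h2.1, h j hj σ h2.1 h2.2⟩
  · intro i hi j hj hij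
    refine Finset.disjoint_left.mpr ?_
    intro σ h1 h2
    exact hij (hd i hi j hj σ (memf.mp h1).1 (memf.mp h1).2 (memf.mp h2).2)

lemma Cc_mono {q q' : ℕ → (α ≃ Fin (Fintype.card α)) → Prop}
    (h : ∀ p, ∀ σ ∈ Y491.BF.LE α, q p σ → q' p σ) : Cc q ≤ Cc q' :=
  Finset.sum_le_sum fun p _ => nn_mono (h p)

lemma Cc_eq (q : ℕ → (α ≃ Fin (Fintype.card α)) → Prop) :
    Cc q = ∑ σ ∈ Y491.BF.LE α, ((range (Fintype.card α + 1)).filter fun p => q p σ).card := by
  unfold Cc nn
  simp only [Finset.card_filter]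
  exact Finset.sum_comm

/-- the positions `j, …, p - 1` contain exactly one element of `M`, in the position `r` -/
def Rr (D U : Set α) (M : Finset α) (i j p r : ℕ) (σ : α ≃ Fin (Fintype.card α)) : Prop :=
  (∀ w ∈ D, (σ w : ℕ) < j) ∧ (∀ u ∈ U, p ≤ (σ u : ℕ)) ∧ cM M j σ = i ∧
    ∀ z, j ≤ (σ z : ℕ) → (σ z : ℕ) < p → (z ∈ M ↔ (σ z : ℕ) = r)

lemma Rr_step {D U : Set α} {M : Finset α} (h2 : ∀ m ∈ M, ∀ e, e ∉ M → m < e → e ∈ U)
    (i j p r : ℕ) (hp : p ≤ Fintype.card α) (hj : j ≤ r) (hr : r + 1 < p) :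
    nn (Rr D U M i j p r) ≤ nn (Rr D U M i j p (r + 1)) := by
  refine SH.nn_inj (SH.sw r) ?_ ?_
  · intro σ hσ hR
    obtain ⟨a1, a2, a3, a4⟩ := hR
    have hn : r + 1 < Fintype.card α := by omega
    have hr0 : r < Fintype.card α := by omega
    set u := σ.symm ⟨r, hr0⟩ with hu
    set v := σ.symm ⟨r + 1, hn⟩ with hv
    have eu : (σ u : ℕ) = r := by simp [hu]
    have ev : (σ v : ℕ) = r + 1 := by simp [hv]
    have hvM : v ∉ M := by
      intro h
      have := (a4 v (by omega) (by omega)).1 h
      omega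
    have huM : u ∈ M := (a4 u (by omega) (by omega)).2 eu
    refine ⟨SH.sw_LE hσ ⟨u, v, eu, ev, fun h => ?_⟩, ?_, ?_, ?_, ?_⟩
    · have := a2 v (h2 u huM v hvM h)
      omega
    · intro w hw
      have := a1 w hw
      rw [SH.sw_val hn]
      split_ifs <;> omega
    · intro w hw
      have := a2 w hw
      rw [SH.sw_val hn]
      split_ifs <;> omega
    · rw [← a3]
      unfold cM
      congr 1
      ext z
      rw [mem_filter, mem_filter, SH.sw_val hn]
      refine and_congr_right fun _ => ?_
      split_ifs <;> omega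
    · intro z
      rw [SH.sw_val hn]
      by_cases h3 : (σ z : ℕ) = r
      · rw [if_pos h3]
        intro _ _
        have := (a4 z (by omega) (by omega)).2 h3
        tauto
      · rw [if_neg h3]
        by_cases h4 : (σ z : ℕ) = r + 1
        · rw [if_pos h4]
          intro _ _
          constructor
          · intro h5
            have := (a4 z (by omega) (by omega)).1 h5
            omega
          · intro h5
            omega
        · rw [if_neg h4]
          intro h5 h6
          rw [a4 z h5 h6]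
          constructor
          · intro h7; exact absurd h7 h3
          · intro h7; exact absurd h7 h4
  · intro σ _ _ τ _ _ h
    rw [← SH.sw_sw r σ, h, SH.sw_sw]

lemma Rr_chain {D U : Set α} {M : Finset α} (h2 : ∀ m ∈ M, ∀ e, e ∉ M → m < e → e ∈ U)
    (i j p : ℕ) (hp : p ≤ Fintype.card α) (k : ℕ) (hk : j + k < p) :
    nn (Rr D U M i j p j) ≤ nn (Rr D U M i j p (j + k)) := by
  induction k with
  | zero => exact le_rfl
  | succ k ih =>
    refine (ih (by omega)).trans ?_
    exact Rr_step h2 i j p (j + k) hp (by omega) (by omega)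

/-- valid cuts with `i` elements of `M` before them -/
noncomputable def CC (D U : Set α) (M : Finset α) (i : ℕ) : ℕ :=
  Cc fun p σ => Val D U p σ ∧ cM M p σ = i

/-- **The number of cuts does not increase.** -/
theorem CC_succ {D U : Set α} {M : Finset α} (h1 : ∀ m ∈ M, ∀ w ∈ D, w < m)
    (h2 : ∀ m ∈ M, ∀ e, e ∉ M → m < e → e ∈ U) (i : ℕ) : CC D U M (i + 1) ≤ CC D U M i := by
  unfold CC Cc
  have s1 : ∀ p ∈ range (Fintype.card α + 1), nn (fun σ => Val D U p σ ∧ cM M p σ = i + 1) ≤
      ∑ j ∈ range (Fintype.card α + 1), if j < p then nn (Rr D U M i j p (p - 1)) else 0 := by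
    intro p hp
    rw [mem_range] at hp
    have e1 : ∑ j ∈ range p, nn (Rr D U M i j p j) ≤
        ∑ j ∈ range (Fintype.card α + 1), if j < p then nn (Rr D U M i j p (p - 1)) else 0 := by
      rw [← Finset.sum_filter]
      have e2 : (range (Fintype.card α + 1)).filter (fun j => j < p) = range p := by
        ext j
        simp only [mem_filter, mem_range]
        omega
      rw [e2]
      refine Finset.sum_le_sum fun j hj => ?_
      rw [mem_range] at hj
      have := Rr_chain (D := D) (U := U) (M := M) h2 i j p (by omega) (p - 1 - j) (by omega)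
      rwa [show j + (p - 1 - j) = p - 1 by omega] at this
    refine le_trans (nn_le_sum ?_) e1
    rintro σ hσ ⟨⟨a1, a2⟩, a3⟩
    have hne : (M.filter fun z => (σ z : ℕ) < p).Nonempty := by
      rw [← Finset.card_pos]
      unfold cM at a3
      omega
    obtain ⟨z0, hz0, hmax⟩ := Finset.exists_max_image _ (fun z => (σ z : ℕ)) hne
    rw [mem_filter] at hz0
    refine ⟨(σ z0 : ℕ), by rw [mem_range]; exact hz0.2, ?_, a2, ?_, ?_⟩
    · intro w hw
      exact LE_lt hσ (h1 z0 hz0.1 w hw)
    · have e3 : (M.filter fun z => (σ z : ℕ) < (σ z0 : ℕ)) =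
          (M.filter fun z => (σ z : ℕ) < p).erase z0 := by
        ext z
        rw [mem_filter, mem_erase, mem_filter]
        constructor
        · rintro ⟨b1, b2⟩
          refine ⟨?_, b1, by omega⟩
          rintro rfl
          omega
        · rintro ⟨b0, b1, b2⟩
          have b3 : (σ z : ℕ) ≤ σ z0 := hmax z (mem_filter.2 ⟨b1, b2⟩)
          have b4 : (σ z : ℕ) ≠ σ z0 := fun h => b0 (val_inj h)
          exact ⟨b1, by omega⟩
      unfold cM at a3 ⊢
      rw [e3, Finset.card_erase_of_mem (mem_filter.2 hz0), a3]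
      rfl
    · intro z b1 b2
      constructor
      · intro b3
        have b4 : (σ z : ℕ) ≤ σ z0 := hmax z (mem_filter.2 ⟨b3, b2⟩)
        omega
      · intro b3
        have : z = z0 := val_inj b3
        rw [this]
        exact hz0.1
  refine (Finset.sum_le_sum s1).trans ?_
  rw [Finset.sum_comm]
  refine Finset.sum_le_sum fun j hj => ?_
  rw [← Finset.sum_filter]
  refine sum_nn_le ?_ ?_
  · intro p hp σ _ hR
    rw [mem_filter, mem_range] at hp
    obtain ⟨a1, a2, a3, -⟩ := hR
    refine ⟨⟨a1, fun u hu => ?_⟩, a3⟩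
    have := a2 u hu
    omega
  · intro p hp p' hp' σ _ hR hR'
    rw [mem_filter, mem_range] at hp hp'
    have key : ∀ p p' : ℕ, p < Fintype.card α + 1 → j < p → p < p' →
        Rr D U M i j p (p - 1) σ → Rr D U M i j p' (p' - 1) σ → False := by
      intro p p' q1 q2 q3 hR hR'
      have hn : p - 1 < Fintype.card α := by omega
      have ez : ((σ (σ.symm ⟨p - 1, hn⟩) : Fin _) : ℕ) = p - 1 := by simp
      have c1 := (hR.2.2.2 _ (by rw [ez]; omega) (by rw [ez]; omega)).2 ez
      have c2 := (hR'.2.2.2 _ (by rw [ez]; omega) (by rw [ez]; omega)).1 c1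
      rw [ez] at c2
      omega
    rcases lt_trichotomy p p' with h | h | h
    · exact absurd (key p p' hp.1 hp.2 h hR hR') id
    · exact h
    · exact absurd (key p' p hp'.1 hp'.2 h hR' hR) id

theorem CC_le {D U : Set α} {M : Finset α} (h1 : ∀ m ∈ M, ∀ w ∈ D, w < m)
    (h2 : ∀ m ∈ M, ∀ e, e ∉ M → m < e → e ∈ U) (i : ℕ) : CC D U M i ≤ CC D U M 0 := by
  induction i with
  | zero => exact le_rfl
  | succ i ih => exact (CC_succ h1 h2 i).trans ih

/-- the number of cuts between the last element below `b` and the first element above `b` -/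
lemma cuts_ge (b : α) {σ : α ≃ Fin (Fintype.card α)} (hσ : σ ∈ Y491.BF.LE α) :
    dn b σ + us b σ + 2 ≤ ((range (Fintype.card α + 1)).filter
      fun p => Val {w | w < b} {u | b < u} p σ).card := by
  have hd : b ∉ dnS b σ := by rw [mem_dnS]; omega
  have hu : b ∉ usS b σ := by rw [mem_usS]; omega
  set S1 := (insert b (dnS b σ)).image (fun z => (σ z : ℕ)) with hS1
  set S2 := (insert b (usS b σ)).image (fun z => (σ z : ℕ) + 1) with hS2
  have c1 : S1.card = dn b σ + 1 := by
    rw [hS1, Finset.card_image_of_injective _ (fun x y h => val_inj h), Finset.card_insert_of_notMem hd]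
    rfl
  have c2 : S2.card = us b σ + 1 := by
    rw [hS2, Finset.card_image_of_injective _ (fun x y h => val_inj (σ := σ) (by
      have h' : (σ x : ℕ) + 1 = (σ y : ℕ) + 1 := h
      omega)), Finset.card_insert_of_notMem hu]
    rfl
  have hdisj : Disjoint S1 S2 := by
    rw [Finset.disjoint_left]
    intro p hp hp'
    rw [hS1, mem_image] at hp
    rw [hS2, mem_image] at hp'
    obtain ⟨z, hz, rfl⟩ := hp
    obtain ⟨z', hz', he⟩ := hp'
    have q1 : (σ z : ℕ) ≤ σ b := by
      rcases Finset.mem_insert.1 hz with h | h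
      · rw [h]
      · rw [mem_dnS] at h; omega
    have q2 : (σ b : ℕ) ≤ σ z' := by
      rcases Finset.mem_insert.1 hz' with h | h
      · rw [h]
      · rw [mem_usS] at h; omega
    omega
  have h3 : dn b σ + us b σ + 2 = (S1 ∪ S2).card := by
    rw [Finset.card_union_of_disjoint hdisj, c1, c2]
    ring
  rw [h3]
  refine Finset.card_le_card fun p hp => ?_
  rw [mem_filter, mem_range]
  rcases Finset.mem_union.1 hp with h | h
  · rw [hS1, mem_image] at h
    obtain ⟨z, hz, rfl⟩ := h
    have hz1 : (σ z : ℕ) ≤ σ b := by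
      rcases Finset.mem_insert.1 hz with h | h
      · rw [h]
      · rw [mem_dnS] at h; omega
    refine ⟨by have := (σ z).2; omega, ?_, ?_⟩
    · intro w hw
      rcases Finset.mem_insert.1 hz with h | h
      · rw [h]; exact LE_lt hσ hw
      · rw [mem_dnS] at h; exact h.2 w hw
    · intro u hu
      have := LE_lt hσ (show b < u from hu)
      omega
  · rw [hS2, mem_image] at h
    obtain ⟨z, hz, rfl⟩ := h
    have hz1 : (σ b : ℕ) ≤ σ z := by
      rcases Finset.mem_insert.1 hz with h | h
      · rw [h]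
      · rw [mem_usS] at h; omega
    refine ⟨by have := (σ z).2; omega, ?_, ?_⟩
    · intro w hw
      have := LE_lt hσ (show w < b from hw)
      omega
    · intro u hu
      rcases Finset.mem_insert.1 hz with h | h
      · rw [h]
        have := LE_lt hσ (show b < u from hu)
        omega
      · rw [mem_usS] at h
        have := h.2 u hu
        omega

/-- twice the mean number of elements between the last element below `b` and `b` -/
lemma hh_le (b : α) : (2 * hh b + 2) * ((Y491.BF.LE α).card : ℝ) ≤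
    (Cc fun p σ => Val {w | w < b} {u | b < u} p σ : ℕ) := by
  have h1 : (∑ σ ∈ Y491.BF.LE α, (dn b σ + us b σ + 2) : ℕ) ≤
      Cc fun p σ => Val {w | w < b} {u | b < u} p σ := by
    rw [Cc_eq]
    exact Finset.sum_le_sum fun σ hσ => cuts_ge b hσ
  have h2 : (2 * hh b + 2) * ((Y491.BF.LE α).card : ℝ) =
      ((∑ σ ∈ Y491.BF.LE α, (dn b σ + us b σ + 2) : ℕ) : ℝ) := by
    have hN := Npos (α := α)
    have e1 : hh b * ((Y491.BF.LE α).card : ℝ) = ∑ σ ∈ Y491.BF.LE α, (dn b σ : ℝ) := by
      unfold hh mean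
      field_simp
    have e2 := sum_dn_eq b
    push_cast
    rw [Finset.sum_add_distrib, Finset.sum_add_distrib, ← e2, ← e1]
    simp only [Finset.sum_const, nsmul_eq_mul]
    ring
  rw [h2]
  exact_mod_cast h1

/-- the cuts of an element of `M` -/
theorem cuts_le {D U : Set α} {M : Finset α} (h1 : ∀ m ∈ M, ∀ w ∈ D, w < m)
    (h2 : ∀ m ∈ M, ∀ e, e ∉ M → m < e → e ∈ U) (b : α)
    (hD : ∀ w ∈ D, w < b) (hU : ∀ u ∈ U, b < u) :
    (Cc fun p σ => Val {w | w < b} {u | b < u} p σ) ≤
      (M.card + 1 - (M.filter fun z => b < z).card) * CC D U M 0 := by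
  have hle : (M.filter fun z => b < z).card ≤ M.card := Finset.card_filter_le _ _
  have s1 : ∀ p ∈ range (Fintype.card α + 1),
      nn (fun σ => Val {w | w < b} {u | b < u} p σ) ≤
      ∑ i ∈ range (M.card + 1 - (M.filter fun z => b < z).card),
        nn (fun σ => Val D U p σ ∧ cM M p σ = i) := by
    intro p _
    refine nn_le_sum ?_
    rintro σ hσ ⟨a1, a2⟩
    refine ⟨cM M p σ, ?_, ⟨fun w hw => a1 w (hD w hw), fun u hu => a2 u (hU u hu)⟩, rfl⟩
    rw [mem_range]
    have h3 : (M.filter fun z => (σ z : ℕ) < p) ⊆ M.filter fun z => ¬ b < z := by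
      intro z hz
      rw [mem_filter] at hz ⊢
      refine ⟨hz.1, fun h => ?_⟩
      have := a2 z h
      omega
    have h4 := Finset.card_le_card h3
    have h5 := Finset.card_filter_add_card_filter_not (s := M) (fun z => b < z)
    unfold cM
    omega
  unfold Cc
  refine (Finset.sum_le_sum s1).trans ?_
  rw [Finset.sum_comm]
  calc ∑ i ∈ range (M.card + 1 - (M.filter fun z => b < z).card),
        ∑ p ∈ range (Fintype.card α + 1), nn (fun σ => Val D U p σ ∧ cM M p σ = i)
      ≤ ∑ _i ∈ range (M.card + 1 - (M.filter fun z => b < z).card), CC D U M 0 :=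
        Finset.sum_le_sum fun i _ => CC_le h1 h2 i
    _ = _ := by simp

/-- the cuts before all elements of `M` -/
lemma CC_zero_le {D U : Set α} {M A : Finset α} (hA : A ⊆ M) :
    CC D U M 0 ≤ Cc fun p σ => Val D (A : Set α) p σ := by
  refine Cc_mono fun p σ _ h => ?_
  obtain ⟨⟨h1, -⟩, h3⟩ := h
  refine ⟨h1, fun a ha => ?_⟩
  by_contra hcon
  unfold cM at h3
  rw [Finset.card_eq_zero] at h3
  have : a ∈ (M.filter fun z => (σ z : ℕ) < p) := mem_filter.2 ⟨hA ha, by omega⟩
  rw [h3] at this
  exact absurd this (Finset.notMem_empty _)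

end Pool.Agent.U276.TP
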