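import Mathlib
import Pool.Agent.U276.TP.Cut
import Pool.Agent.Y491.BF.T_NC
import Pool.Agent.Y491.BF.T_DEC
import Pool.Agent.Y491.BF.T_SM

/-!
# A correlation inequality for cuts

The elements of `A` have the same lower elements, the elements of `D`. The probability that an element
of `A` comes immediately after the last element of `D`, multiplied by the mean number of cuts between
`D` and `A`, is at most one.
-/

set_option autoImplicit false
set_option linter.unusedSectionVars false

open Finset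
open scoped Classical

namespace Pool.Agent.U276.TP

open Pool.Agent.Y491.BF Pool.Agent.U396.H2 Pool.Agent.Y491.BF.DEC Pool.Agent.Y491.BF.NC

lemma cnt_ex {β γ : Type} {F : Finset β} {s : Finset γ} {Q : γ → β → Prop}
    (h : ∀ f ∈ F, ∀ d ∈ s, ∀ d' ∈ s, Q d f → Q d' f → d = d') :
    cnt F (fun f => ∃ d ∈ s, Q d f) = ∑ d ∈ s, cnt F (Q d) := by
  unfold cnt
  rw [← Finset.card_biUnion]
  · congr 1
    ext f
    simp only [mem_filter, mem_biUnion]
    constructor
    · rintro ⟨h1, d, h2, h3⟩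
      exact ⟨d, h2, h1, h3⟩
    · rintro ⟨d, h2, h1, h3⟩
      exact ⟨h1, d, h2, h3⟩
  · intro d hd d' hd' hne
    rw [Function.onFun, Finset.disjoint_left]
    intro f h1 h2
    rw [mem_filter] at h1 h2
    exact hne (h f h1.1 d hd d' hd' h1.2 h2.2)

lemma sum_cnt_comm {β γ : Type} (F : Finset β) (s : Finset γ) (R : γ → β → Prop) :
    ∑ p ∈ s, cnt F (R p) = ∑ h ∈ F, cnt s fun p => R p h := by
  unfold cnt
  simp only [Finset.card_filter]
  exact Finset.sum_comm

section

variable {α : Type} [Fintype α] [PartialOrder α]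

/-- linear extensions of `I` with the last element in `D` -/
noncomputable def eL (D I : Finset α) : ℕ := cnt (Lf I) fun f => ∃ d ∈ D, f d + 1 = I.card

/-- linear extensions of `F` with the first element in `A` -/
noncomputable def eF (A F : Finset α) : ℕ := cnt (Lf F) fun f => ∃ a ∈ A, f a = 0

lemma eL_eq {D I : Finset α} (hI : Low I) (hD : D ⊆ I) : eL D I = ∑ d ∈ D, ex d I := by
  unfold eL
  rw [cnt_ex]
  · refine Finset.sum_congr rfl fun d hd => ?_
    rw [last_eq hI (hD hd)]
    rfl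
  · intro f hf d hd d' hd' h1 h2
    rw [mem_Lf] at hf
    exact hf.2.2.1 d (hD hd) d' (hD hd') (by omega)

lemma eF_eq {A F : Finset α} (hF : Upp F) (hA : A ⊆ F) : eF A F = ∑ a ∈ A, fz a F := by
  unfold eF
  rw [cnt_ex]
  · refine Finset.sum_congr rfl fun d hd => ?_
    rw [first_eq hF (hA hd)]
    rfl
  · intro f hf d hd d' hd' h1 h2
    rw [mem_Lf] at hf
    exact hf.2.2.1 d (hA hd) d' (hA hd') (by omega)

lemma low_inter {I J : Finset α} (hI : Low I) (hJ : Low J) : Low (I ∩ J) := by
  intro a b hab hb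
  rw [Finset.mem_inter] at hb ⊢
  exact ⟨hI a b hab hb.1, hJ a b hab hb.2⟩

lemma low_union {I J : Finset α} (hI : Low I) (hJ : Low J) : Low (I ∪ J) := by
  intro a b hab hb
  rw [Finset.mem_union] at hb ⊢
  exact hb.imp (hI a b hab) (hJ a b hab)

lemma upp_inter {I J : Finset α} (hI : Upp I) (hJ : Upp J) : Upp (I ∩ J) := by
  intro a b hab hb
  rw [Finset.mem_inter] at hb ⊢
  exact ⟨hI a b hab hb.1, hJ a b hab hb.2⟩

lemma upp_union {I J : Finset α} (hI : Upp I) (hJ : Upp J) : Upp (I ∪ J) := by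
  intro a b hab hb
  rw [Finset.mem_union] at hb ⊢
  exact hb.imp (hI a b hab) (hJ a b hab)

lemma upp_compl {I : Finset α} (hI : Low I) : Upp Iᶜ := by
  intro a b hab ha
  rw [Finset.mem_compl] at ha ⊢
  exact fun hb => ha (hI a b hab hb)

lemma eL_le {D I J : Finset α} (hI : Low I) (hJ : Low J) (h1 : D ⊆ I) (h2 : D ⊆ J) :
    eL D I * eS J ≤ eL D (I ∩ J) * eS (I ∪ J) := by
  rw [eL_eq hI h1, eL_eq (low_inter hI hJ) (Finset.subset_inter h1 h2), Finset.sum_mul,
    Finset.sum_mul]
  exact Finset.sum_le_sum fun d hd => ex_le SM.t_SM hI hJ (h1 hd) (h2 hd)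

lemma eF_le {A I J : Finset α} (hI : Upp I) (hJ : Upp J) (h1 : A ⊆ I) (h2 : A ⊆ J) :
    eF A I * eS J ≤ eF A (I ∩ J) * eS (I ∪ J) := by
  rw [eF_eq hI h1, eF_eq (upp_inter hI hJ) (Finset.subset_inter h1 h2), Finset.sum_mul,
    Finset.sum_mul]
  exact Finset.sum_le_sum fun d hd => fz_le SM.t_SM hI hJ (h1 hd) (h2 hd)

/-- the admissible sets -/
def Ad (D A I : Finset α) : Prop := Low I ∧ D ⊆ I ∧ Disjoint I A

/-- `I` is an initial segment of `h` with conditions on the last element and on the next element -/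
def In (D A : Finset α) (p q : Bool) (I : Finset α) (h : α → ℕ) : Prop :=
  (∀ s ∈ I, h s < I.card) ∧ ((p = true → ∃ d ∈ D, h d + 1 = I.card) ∧
    (q = true → ∃ a ∈ A, h a = I.card))

lemma cnt_In {D A I : Finset α} (hI : Ad D A I) (p q : Bool) :
    cnt (Lf (univ : Finset α)) (In D A p q I) =
      (if p = true then eL D I else eS I) * (if q = true then eF A Iᶜ else eS Iᶜ) := by
  obtain ⟨h1, h2, h3⟩ := hI
  have hd : Disjoint I Iᶜ := disjoint_compl_right
  have hst : ∀ s ∈ I, ∀ t ∈ Iᶜ, ¬ t < s := fun s hs t ht hts =>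
    (Finset.mem_compl.mp ht) (h1 t s hts.le hs)
  have hA : A ⊆ Iᶜ := by
    intro a ha
    rw [Finset.mem_compl]
    exact fun h => Finset.disjoint_left.1 h3 h ha
  have key := split hd hst (fun f => p = true → ∃ d ∈ D, f d + 1 = I.card)
    (fun g => q = true → ∃ a ∈ A, g a = 0)
    (fun h => (p = true → ∃ d ∈ D, h d + 1 = I.card) ∧ (q = true → ∃ a ∈ A, h a = I.card)) (by
      intro f g hf hg
      have e1 : ∀ d ∈ D, glue I Iᶜ f g d = f d := fun d hd => glue_S (h2 hd)
      have e2 : ∀ a ∈ A, glue I Iᶜ f g a = I.card + g a := fun a ha => glue_T hd (hA ha)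
      constructor
      · rintro ⟨k1, k2⟩
        refine ⟨fun hp => ?_, fun hq => ?_⟩
        · obtain ⟨d, hd, h⟩ := k1 hp
          rw [e1 d hd] at h
          exact ⟨d, hd, h⟩
        · obtain ⟨a, ha, h⟩ := k2 hq
          rw [e2 a ha] at h
          exact ⟨a, ha, by omega⟩
      · rintro ⟨k1, k2⟩
        refine ⟨fun hp => ?_, fun hq => ?_⟩
        · obtain ⟨d, hd, h⟩ := k1 hp
          exact ⟨d, hd, by rw [e1 d hd]; exact h⟩
        · obtain ⟨a, ha, h⟩ := k2 hq
          exact ⟨a, ha, by rw [e2 a ha, h, Nat.add_zero]⟩)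
  rw [Finset.union_compl] at key
  unfold In
  rw [key]
  congr 1
  · cases p
    · simp [eS_eq, cnt_true]
    · simp only [if_true, forall_const]
      rfl
  · cases q
    · simp [eS_eq, cnt_true]
    · simp only [if_true, forall_const]
      rfl

/-- the sum over the admissible sets -/
noncomputable def Zz (D A : Finset α) (p q : Bool) : ℕ :=
  ∑ I : Finset α, if Ad D A I then cnt (Lf (univ : Finset α)) (In D A p q I) else 0

lemma four (D A : Finset α) : Zz D A true true * Zz D A false false ≤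
    Zz D A true false * Zz D A false true := by
  unfold Zz
  refine four_functions_theorem_univ _ _ _ _ (fun _ => Nat.zero_le _) (fun _ => Nat.zero_le _)
    (fun _ => Nat.zero_le _) (fun _ => Nat.zero_le _) (fun I J => ?_)
  by_cases hI : Ad D A I
  · by_cases hJ : Ad D A J
    · have hm : Ad D A (I ∩ J) := ⟨low_inter hI.1 hJ.1, Finset.subset_inter hI.2.1 hJ.2.1,
        Finset.disjoint_of_subset_left Finset.inter_subset_left hI.2.2⟩
      have hj : Ad D A (I ∪ J) := ⟨low_union hI.1 hJ.1, hI.2.1.trans Finset.subset_union_left,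
        Finset.disjoint_union_left.2 ⟨hI.2.2, hJ.2.2⟩⟩
      have hAI : A ⊆ Iᶜ := fun a ha => Finset.mem_compl.2 fun h => Finset.disjoint_left.1 hI.2.2 h ha
      have hAJ : A ⊆ Jᶜ := fun a ha => Finset.mem_compl.2 fun h => Finset.disjoint_left.1 hJ.2.2 h ha
      have k1 := eL_le hI.1 hJ.1 hI.2.1 hJ.2.1
      have k2 := eF_le (upp_compl hI.1) (upp_compl hJ.1) hAI hAJ
      rw [← Finset.compl_union, ← Finset.compl_inter] at k2
      simp only [Finset.inf_eq_inter, Finset.sup_eq_union]
      rw [if_pos hI, if_pos hJ, if_pos hm, if_pos hj, cnt_In hI, cnt_In hJ, cnt_In hm, cnt_In hj]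
      simp only [if_true, Bool.false_eq_true, if_false]
      calc eL D I * eF A Iᶜ * (eS J * eS Jᶜ) =
          (eL D I * eS J) * (eF A Iᶜ * eS Jᶜ) := by ring
        _ ≤ (eL D (I ∩ J) * eS (I ∪ J)) * (eF A (I ∪ J)ᶜ * eS (I ∩ J)ᶜ) := Nat.mul_le_mul k1 k2
        _ = _ := by ring
    · rw [if_neg hJ, mul_zero]
      exact Nat.zero_le _
  · rw [if_neg hI, zero_mul]
    exact Nat.zero_le _

lemma Zz_eq (D A : Finset α) (p q : Bool) : Zz D A p q =
    ∑ h ∈ Lf (univ : Finset α), (univ.filter fun I => Ad D A I ∧ In D A p q I h).card := by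
  unfold Zz cnt
  have e : ∀ I : Finset α, (if Ad D A I then ((Lf (univ : Finset α)).filter (In D A p q I)).card
      else 0) = ∑ h ∈ Lf (univ : Finset α), if Ad D A I ∧ In D A p q I h then 1 else 0 := by
    intro I
    by_cases hI : Ad D A I
    · rw [if_pos hI, Finset.card_filter]
      refine Finset.sum_congr rfl fun h _ => ?_
      simp only [hI, true_and]
    · rw [if_neg hI]
      simp [hI]
  rw [Finset.sum_congr rfl fun I _ => e I, Finset.sum_comm]
  refine Finset.sum_congr rfl fun h _ => ?_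
  rw [Finset.card_filter]

/-- the number of elements before position `p` -/
lemma card_init {h : α → ℕ} (hh : PS (univ : Finset α) h) {p : ℕ} (hp : p ≤ Fintype.card α) :
    (univ.filter fun z => h z < p).card = p := by
  have e : (univ.filter fun z => h z < p).image h = range p := by
    ext k
    rw [mem_image, mem_range]
    constructor
    · rintro ⟨z, hz, rfl⟩
      exact (mem_filter.1 hz).2
    · intro hk
      obtain ⟨z, _, hz⟩ := hh.surj k (by rw [Finset.card_univ]; omega)
      exact ⟨z, mem_filter.2 ⟨mem_univ _, by omega⟩, hz⟩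
  have h1 : ((univ.filter fun z => h z < p).image h).card = (univ.filter fun z => h z < p).card := by
    rw [Finset.card_image_of_injOn]
    intro a _ b _ hab
    exact hh.2.2.1 a (mem_univ a) b (mem_univ b) hab
  rw [← h1, e, Finset.card_range]

lemma init_eq {h : α → ℕ} (hh : PS (univ : Finset α) h) {I : Finset α}
    (hI : ∀ s ∈ I, h s < I.card) : I = univ.filter fun z => h z < I.card := by
  refine Finset.eq_of_subset_of_card_le (fun s hs => mem_filter.2 ⟨mem_univ _, hI s hs⟩) ?_
  rw [card_init hh (Finset.card_le_univ I)]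

lemma mono_of {h : α → ℕ} (hh : PS (univ : Finset α) h) {a b : α} (hab : a ≤ b) : h a ≤ h b := by
  rcases hab.lt_or_eq with h6 | h6
  · exact (hh.2.2.2 a (Finset.mem_univ a) b (Finset.mem_univ b) h6).le
  · rw [h6]

lemma low_init {h : α → ℕ} (hh : PS (univ : Finset α) h) (p : ℕ) :
    Low (univ.filter fun z => h z < p) := by
  intro a b hab hb
  rw [mem_filter] at hb ⊢
  exact ⟨mem_univ _, (mono_of hh hab).trans_lt hb.2⟩

lemma Z_tf (D A : Finset α) : Zz D A true false ≤ (Lf (univ : Finset α)).card := by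
  rw [Zz_eq, Finset.card_eq_sum_ones]
  refine Finset.sum_le_sum fun h hh => ?_
  rw [mem_Lf] at hh
  rw [Finset.card_le_one]
  intro I hI J hJ
  rw [mem_filter] at hI hJ
  obtain ⟨-, ⟨a1, a2, a3⟩, b1, b2, -⟩ := hI
  obtain ⟨-, ⟨c1, c2, c3⟩, d1, d2, -⟩ := hJ
  obtain ⟨d, hd, e1⟩ := b2 rfl
  obtain ⟨d', hd', e2⟩ := d2 rfl
  have f1 := b1 d' (a2 hd')
  have f2 := d1 d (c2 hd)
  rw [init_eq hh b1, init_eq hh d1, show I.card = J.card by omega]

lemma Z_ft (D A : Finset α) : Zz D A false true ≤ (Lf (univ : Finset α)).card := by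
  rw [Zz_eq, Finset.card_eq_sum_ones]
  refine Finset.sum_le_sum fun h hh => ?_
  rw [mem_Lf] at hh
  rw [Finset.card_le_one]
  intro I hI J hJ
  rw [mem_filter] at hI hJ
  obtain ⟨-, ⟨a1, a2, a3⟩, b1, -, b2⟩ := hI
  obtain ⟨-, ⟨c1, c2, c3⟩, d1, -, d2⟩ := hJ
  obtain ⟨a, ha, e1⟩ := b2 rfl
  obtain ⟨a', ha', e2⟩ := d2 rfl
  have f1 : I.card ≤ h a' := by
    by_contra hcon
    have : a' ∈ I := by rw [init_eq hh b1]; exact mem_filter.2 ⟨mem_univ _, by omega⟩
    exact Finset.disjoint_left.1 a3 this ha'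
  have f2 : J.card ≤ h a := by
    by_contra hcon
    have : a ∈ J := by rw [init_eq hh d1]; exact mem_filter.2 ⟨mem_univ _, by omega⟩
    exact Finset.disjoint_left.1 c3 this ha
  rw [init_eq hh b1, init_eq hh d1, show I.card = J.card by omega]

lemma Z_ff (D A : Finset α) :
    Cc (fun p σ => Val (D : Set α) (A : Set α) p σ) ≤ Zz D A false false := by
  have e1 : Cc (fun p σ => Val (D : Set α) (A : Set α) p σ) =
      ∑ h ∈ Lf (univ : Finset α), cnt (range (Fintype.card α + 1))
        fun p => (∀ w ∈ D, h w < p) ∧ ∀ a ∈ A, p ≤ h a := by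
    unfold Cc
    have e2 : ∀ p : ℕ, nn (fun σ => Val (D : Set α) (A : Set α) p σ) =
        cnt (Lf (univ : Finset α)) fun h => (∀ w ∈ D, h w < p) ∧ ∀ a ∈ A, p ≤ h a := by
      intro p
      refine LE_eq _ _ fun σ => ?_
      unfold Val
      simp only [Finset.mem_coe]
    rw [Finset.sum_congr rfl fun p _ => e2 p]
    exact sum_cnt_comm _ _ fun (p : ℕ) (h : α → ℕ) => (∀ w ∈ D, h w < p) ∧ ∀ a ∈ A, p ≤ h a
  rw [e1, Zz_eq]
  refine Finset.sum_le_sum fun h hh => ?_
  rw [mem_Lf] at hh
  rw [← cnt_def]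
  refine Finset.card_le_card_of_injOn (fun p => univ.filter fun z => h z < p) ?_ ?_
  · intro p hp
    rw [Finset.mem_coe, mem_filter, mem_range] at hp
    obtain ⟨h0, h1, h2⟩ := hp
    rw [Finset.mem_coe, mem_filter]
    refine ⟨mem_univ _, ⟨low_init hh p, fun w hw => mem_filter.2 ⟨mem_univ _, h1 w hw⟩, ?_⟩, ?_, ?_, ?_⟩
    · rw [Finset.disjoint_left]
      intro a ha ha'
      have := (mem_filter.1 ha).2
      have := h2 a ha'
      omega
    · intro s hs
      rw [card_init hh (by omega)]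
      exact (mem_filter.1 hs).2
    · intro h; exact absurd h (by decide)
    · intro h; exact absurd h (by decide)
  · intro p hp p' hp' he
    rw [Finset.mem_coe, mem_filter, mem_range] at hp hp'
    have := congrArg Finset.card he
    simp only at this
    rwa [card_init hh (by omega), card_init hh (by omega)] at this

lemma Z_tt {D A : Finset α} (hne : D.Nonempty) (hA : ∀ a ∈ A, ∀ w, w < a ↔ w ∈ D) :
    ∑ a ∈ A, nn (fun σ => dn a σ = 0) ≤ Zz D A true true := by
  have e1 : ∑ a ∈ A, nn (fun σ : α ≃ Fin (Fintype.card α) => dn a σ = 0) =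
      ∑ h ∈ Lf (univ : Finset α), cnt A
        fun a => ∀ z, h z < h a → ∃ w, w < a ∧ h z ≤ h w := by
    have e2 : ∀ a : α, nn (fun σ : α ≃ Fin (Fintype.card α) => dn a σ = 0) =
        cnt (Lf (univ : Finset α)) fun h => ∀ z, h z < h a → ∃ w, w < a ∧ h z ≤ h w := by
      intro a
      refine LE_eq _ _ fun σ => ?_
      unfold dn
      rw [Finset.card_eq_zero, Finset.eq_empty_iff_forall_notMem]
      constructor
      · intro h3 z hz
        by_contra hcon
        push Not at hcon
        exact h3 z (mem_dnS.2 ⟨hz, hcon⟩)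
      · intro h3 z hz
        rw [mem_dnS] at hz
        obtain ⟨w, hw, hw2⟩ := h3 z hz.1
        have h4 : (σ z : ℕ) ≤ σ w := hw2
        have := hz.2 w hw
        omega
    rw [Finset.sum_congr rfl fun a _ => e2 a]
    exact sum_cnt_comm _ _ fun (a : α) (h : α → ℕ) => ∀ z, h z < h a → ∃ w, w < a ∧ h z ≤ h w
  rw [e1, Zz_eq]
  refine Finset.sum_le_sum fun h hh => ?_
  rw [mem_Lf] at hh
  rw [← cnt_def]
  have hlt : ∀ a, h a < Fintype.card α := fun a => by
    have := hh.2.1 a (mem_univ a)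
    rwa [Finset.card_univ] at this
  refine Finset.card_le_card_of_injOn (fun a => univ.filter fun z => h z < h a) ?_ ?_
  · intro a ha
    rw [Finset.mem_coe, mem_filter] at ha
    obtain ⟨h0, h1⟩ := ha
    rw [Finset.mem_coe, mem_filter]
    have hc : (univ.filter fun z => h z < h a).card = h a := card_init hh (hlt a).le
    refine ⟨mem_univ _, ⟨low_init hh _, fun w hw => mem_filter.2 ⟨mem_univ _, ?_⟩, ?_⟩, ?_, ?_, ?_⟩
    · exact hh.2.2.2 w (mem_univ w) a (mem_univ a) ((hA a h0 w).2 hw)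
    · rw [Finset.disjoint_left]
      intro a' ha' ha''
      obtain ⟨w, hw, hw2⟩ := h1 a' (mem_filter.1 ha').2
      have h3 := (hA a' ha'' w).2 ((hA a h0 w).1 hw)
      have := hh.2.2.2 w (mem_univ w) a' (mem_univ a') h3
      omega
    · intro s hs
      rw [hc]
      exact (mem_filter.1 hs).2
    · intro _
      obtain ⟨d, hd⟩ := hne
      have h2 : h d < h a := hh.2.2.2 d (mem_univ d) a (mem_univ a) ((hA a h0 d).2 hd)
      obtain ⟨z, _, hz⟩ := hh.surj (h a - 1) (by rw [Finset.card_univ]; have := hlt a; omega)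
      obtain ⟨w, hw, hw2⟩ := h1 z (by omega)
      have h3 := hh.2.2.2 w (mem_univ w) a (mem_univ a) hw
      exact ⟨w, (hA a h0 w).1 hw, by rw [hc]; omega⟩
    · intro _
      exact ⟨a, h0, hc.symm⟩
  · intro a ha a' ha' he
    have := congrArg Finset.card he
    simp only at this
    rw [card_init hh (hlt a).le, card_init hh (hlt a').le] at this
    exact hh.2.2.1 a (mem_univ a) a' (mem_univ a') this

/-- **The correlation inequality.** -/
theorem corr {D A : Finset α} (hne : D.Nonempty) (hA : ∀ a ∈ A, ∀ w, w < a ↔ w ∈ D) :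
    (∑ a ∈ A, nn (fun σ => dn a σ = 0)) * Cc (fun p σ => Val (D : Set α) (A : Set α) p σ) ≤
      (Y491.BF.LE α).card ^ 2 := by
  have hN : (Y491.BF.LE α).card = (Lf (univ : Finset α)).card := by
    rw [← nn_true, LE_eq (fun _ => True) (fun _ => True) (fun _ => Iff.rfl), cnt_true]
  rw [hN, sq]
  calc _ ≤ Zz D A true true * Zz D A false false := Nat.mul_le_mul (Z_tt hne hA) (Z_ff D A)
    _ ≤ Zz D A true false * Zz D A false true := four D A
    _ ≤ _ := Nat.mul_le_mul (Z_tf D A) (Z_ft D A)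

end

end Pool.Agent.U276.TP
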