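import Mathlib
import Pool.Agent.U276.TP.Corr

/-!
# Many elements with the same lower elements: the chain of the mean values
-/

set_option autoImplicit false
set_option linter.unusedSectionVars false

open Finset
open scoped Classical

namespace Pool.Agent.U276.TP

open Pool.Agent.Y491.BF Pool.Agent.U396.H2

section

variable {α : Type} [Fintype α] [PartialOrder α]

/-- the pair inequality -/
lemma pair_ineq' {x y : α} (hne : x ≠ y) (h : ∀ w, w < x ↔ w < y)
    (hN : 10000 ≤ Fintype.card α) (hb : pp (fun σ => gap x y σ < 0) ≤ 4001 / 12000) :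
    hh x + (11095 / 100000 / ff y + 333 / 1000) ≤ hh y := by
  have h1 : ¬ x ≤ y := fun h1 => lt_irrefl _ ((h x).2 (lt_of_le_of_ne h1 hne))
  have h2 : ¬ y ≤ x := fun h2 => lt_irrefl _ ((h y).1 (lt_of_le_of_ne h2 hne.symm))
  have hL := Npos (α := α)
  have hn : (10000 : ℝ) ≤ (Fintype.card α : ℝ) := by exact_mod_cast hN
  set b := pp (fun σ : α ≃ Fin (Fintype.card α) => gap x y σ < 0) with hbdef
  set R := pp (fun σ : α ≃ Fin (Fintype.card α) => gap x y σ = 1) with hRdef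
  have hb0 : 0 ≤ b := pp_nonneg _
  have hR0 : 0 ≤ R := pp_nonneg _
  have hg : pp (fun σ : α ≃ Fin (Fintype.card α) => 0 < gap x y σ) = 1 - b := pp_gap hne
  -- the reversed part
  have e1 : R * Ep y x ≤ b ^ 2 * (1 + 1 / 10000) := by
    have h3 := L1.t_L1 ASY.t_ASY α x y h1 h2
    have h4 : (nn (fun σ : α ≃ Fin (Fintype.card α) => gap x y σ = 1) : ℝ) =
        R * (Y491.BF.LE α).card := by
      rw [hRdef]; unfold pp; field_simp
    have h5 : (nn (fun σ : α ≃ Fin (Fintype.card α) => gap x y σ < 0) : ℝ) =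
        b * (Y491.BF.LE α).card := by
      rw [hbdef]; unfold pp; field_simp
    have h6 : Tp y x = Ep y x * (Y491.BF.LE α).card := by
      rw [Ep_eq]; field_simp
    rw [h4, h5, h6] at h3
    have h7 : R * Ep y x * (Fintype.card α : ℝ) ≤ b ^ 2 * (Fintype.card α + 1) := by
      have h8 : ((Y491.BF.LE α).card : ℝ) ^ 2 * (R * Ep y x * (Fintype.card α : ℝ)) ≤
          ((Y491.BF.LE α).card : ℝ) ^ 2 * (b ^ 2 * (Fintype.card α + 1)) := by
        nlinarith
      exact le_of_mul_le_mul_left h8 (by positivity)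
    have h9 : b ^ 2 * (Fintype.card α + 1) ≤ b ^ 2 * (1 + 1 / 10000) * (Fintype.card α : ℝ) := by
      have : (Fintype.card α : ℝ) + 1 ≤ (1 + 1 / 10000) * (Fintype.card α : ℝ) := by linarith
      calc b ^ 2 * (Fintype.card α + 1) ≤ b ^ 2 * ((1 + 1 / 10000) * (Fintype.card α : ℝ)) :=
            mul_le_mul_of_nonneg_left this (by positivity)
        _ = _ := by ring
    exact le_of_mul_le_mul_right (h7.trans h9) (by linarith)
  -- the other part
  have e2 : (1 - b) ^ 2 ≤ R * (2 * Ep x y - (1 - b)) := by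
    have h3 := bath_gap x y (fun w hw => (h w).2 hw)
    have h4 : (nn (fun σ : α ≃ Fin (Fintype.card α) => gap x y σ = 1) : ℝ) =
        R * (Y491.BF.LE α).card := by
      rw [hRdef]; unfold pp; field_simp
    have h5 : (nn (fun σ : α ≃ Fin (Fintype.card α) => 0 < gap x y σ) : ℝ) =
        (1 - b) * (Y491.BF.LE α).card := by
      rw [← hg]; unfold pp; field_simp
    have h6 : Tp x y = Ep x y * (Y491.BF.LE α).card := by
      rw [Ep_eq]; field_simp
    rw [h4, h5, h6] at h3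
    have h8 : ((Y491.BF.LE α).card : ℝ) ^ 2 * ((1 - b) ^ 2) ≤
        ((Y491.BF.LE α).card : ℝ) ^ 2 * (R * (2 * Ep x y - (1 - b))) := by
      nlinarith
    exact le_of_mul_le_mul_left h8 (by positivity)
  have e3 : R * (2 * (Ep x y - Ep y x) - (1 - b)) ≥ 2 * (11095 / 100000) := by
    have h3 : (1 - b) ^ 2 - 2 * (b ^ 2 * (1 + 1 / 10000)) ≥ 2 * (11095 / 100000) := by nlinarith
    nlinarith
  have hRpos : 0 < R := by
    rcases hR0.eq_or_lt with h3 | h3
    · rw [← h3] at e3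
      norm_num at e3
    · exact h3
  have hRf : R ≤ ff y := by
    have h3 : nn (fun σ : α ≃ Fin (Fintype.card α) => gap x y σ = 1) =
        nn (fun σ => gap x y σ = -1) := adj_symm SH.t_SWAP h1 h2
    rw [hRdef]
    unfold ff pp
    rw [h3]
    exact div_le_div_of_nonneg_right (by exact_mod_cast nn_adj_le x y) hL.le
  have hfy := ff_pos y
  have e4 : 2 * (11095 / 100000) / ff y ≤ 2 * (Ep x y - Ep y x) - (1 - b) := by
    have h3 : 2 * (11095 / 100000) / R ≤ 2 * (Ep x y - Ep y x) - (1 - b) := by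
      rw [div_le_iff₀ hRpos]
      linarith
    refine le_trans ?_ h3
    exact div_le_div_of_nonneg_left (by norm_num) hRpos hRf
  have e5 := HH_hh h
  rw [HH_sub] at e5
  have e6 : 2 * (11095 / 100000) / ff y = 2 * (11095 / 100000 / ff y) := by ring
  linarith

/-- adding up the pair inequalities -/
lemma chain' (A : Finset α) (hA : ∀ a ∈ A, ∀ a' ∈ A, ∀ w, w < a ↔ w < a')
    (hN : 10000 ≤ Fintype.card α)
    (hb : ∀ x ∈ A, ∀ y ∈ A, x ≠ y → pp (fun σ => gap x y σ < 0) ≤ 4001 / 12000 ∨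
      pp (fun σ => gap y x σ < 0) ≤ 4001 / 12000) (n : ℕ) :
    ∀ S : Finset α, S ⊆ A → S.card = n + 1 → ∀ b ∈ S, (∀ a ∈ S, hh a ≤ hh b) →
      ∃ a₀ ∈ S, hh a₀ + ∑ a ∈ S.erase a₀, (11095 / 100000 / ff a + 333 / 1000) ≤ hh b := by
  induction n with
  | zero =>
    intro S _ hS b hbS _
    obtain ⟨a, rfl⟩ := Finset.card_eq_one.mp hS
    rw [mem_singleton] at hbS
    subst hbS
    exact ⟨b, by simp, by simp⟩
  | succ n ih =>
    intro S hSA hS b hbS hmax
    have hne : (S.erase b).Nonempty := Finset.card_pos.mp (by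
      rw [Finset.card_erase_of_mem hbS]; omega)
    obtain ⟨y, hy, hymax⟩ := Finset.exists_max_image (S.erase b) hh hne
    obtain ⟨a₀, h0, hle⟩ := ih (S.erase b) ((Finset.erase_subset _ _).trans hSA) (by
      rw [Finset.card_erase_of_mem hbS]; omega) y hy hymax
    have hy' := Finset.mem_of_mem_erase hy
    have hyb : y ≠ b := Finset.ne_of_mem_erase hy
    have h0' := Finset.mem_of_mem_erase h0
    have h0b : a₀ ≠ b := Finset.ne_of_mem_erase h0
    refine ⟨a₀, h0', ?_⟩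
    have hp : hh y + (11095 / 100000 / ff b + 333 / 1000) ≤ hh b := by
      rcases hb y (hSA hy') b (hSA hbS) hyb with h | h
      · exact pair_ineq' hyb (hA y (hSA hy') b (hSA hbS)) hN h
      · have h2 := pair_ineq' hyb.symm (hA b (hSA hbS) y (hSA hy')) hN h
        have h3 := hmax y hy'
        have h4 := ff_pos y
        have h5 : 0 < 11095 / 100000 / ff y := by positivity
        linarith
    have he : S.erase a₀ = insert b ((S.erase b).erase a₀) := by
      ext z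
      simp only [mem_erase, mem_insert]
      constructor
      · rintro ⟨h2, h3⟩
        by_cases hz : z = b
        · exact Or.inl hz
        · exact Or.inr ⟨h2, hz, h3⟩
      · rintro (rfl | ⟨h2, _, h3⟩)
        · exact ⟨h0b.symm, hbS⟩
        · exact ⟨h2, h3⟩
    rw [he, Finset.sum_insert (by simp)]
    linarith

/-- the lower bound -/
theorem low_bound (A : Finset α) (hA : ∀ a ∈ A, ∀ a' ∈ A, ∀ w, w < a ↔ w < a')
    (hN : 10000 ≤ Fintype.card α) (h1 : 1 ≤ A.card)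
    (hb : ∀ x ∈ A, ∀ y ∈ A, x ≠ y → pp (fun σ => gap x y σ < 0) ≤ 4001 / 12000 ∨
      pp (fun σ => gap y x σ < 0) ≤ 4001 / 12000) (b : α) (hbA : b ∈ A)
    (hmax : ∀ a ∈ A, hh a ≤ hh b) :
    (1 + ((A.card : ℝ) - 1) * (471 / 1000)) ^ 2 < (2 * hh b + 2) * ∑ a ∈ A, ff a := by
  obtain ⟨k, hk⟩ : ∃ k, A.card = k + 1 := ⟨A.card - 1, by omega⟩
  obtain ⟨a₀, h0, hle⟩ := chain' A hA hN hb k A (Finset.Subset.refl _) hk b hbA hmax
  have hh0 := hh_ge a₀
  have hF : 0 < ∑ a ∈ A, ff a := Finset.sum_pos (fun a _ => ff_pos a) ⟨b, hbA⟩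
  let u : α → ℝ := fun a => if a = a₀ then 1 else 471 / 1000
  have hcs := Finset.sq_sum_div_le_sum_sq_div A u (g := ff) (fun a _ => ff_pos a)
  have e1 : ∑ a ∈ A, u a = 1 + ((A.card : ℝ) - 1) * (471 / 1000) := by
    rw [← Finset.add_sum_erase _ _ h0]
    have : ∑ a ∈ A.erase a₀, u a = ∑ _a ∈ A.erase a₀, (471 / 1000 : ℝ) :=
      Finset.sum_congr rfl fun a ha => by simp [u, Finset.ne_of_mem_erase ha]
    rw [this, Finset.sum_const, Finset.card_erase_of_mem h0, nsmul_eq_mul,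
      Nat.cast_sub h1]
    simp [u]
  have e2 : ∑ a ∈ A, u a ^ 2 / ff a ≤
      1 / ff a₀ + 2 * ∑ a ∈ A.erase a₀, 11095 / 100000 / ff a := by
    rw [← Finset.add_sum_erase _ _ h0, Finset.mul_sum]
    have h3 : ∑ a ∈ A.erase a₀, u a ^ 2 / ff a ≤
        ∑ a ∈ A.erase a₀, 2 * (11095 / 100000 / ff a) := by
      refine Finset.sum_le_sum fun a ha => ?_
      have h4 := ff_pos a
      have h5 : u a = 471 / 1000 := by simp [u, Finset.ne_of_mem_erase ha]
      rw [h5, ← mul_div_assoc]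
      exact div_le_div_of_nonneg_right (by norm_num) h4.le
    have h6 : u a₀ ^ 2 / ff a₀ = 1 / ff a₀ := by simp [u]
    rw [h6]
    linarith
  rw [Finset.sum_add_distrib] at hle
  have h7 : 0 ≤ ∑ _a ∈ A.erase a₀, (333 / 1000 : ℝ) := Finset.sum_nonneg fun _ _ => by norm_num
  have h8 : (∑ a ∈ A, u a) ^ 2 / ∑ a ∈ A, ff a < 2 * hh b + 2 := by
    linarith
  rw [e1, div_lt_iff₀ hF] at h8
  exact h8

/-- the upper bound -/
theorem upp_bound {D : Set α} {U : Set α} {A M : Finset α} (hAM : A ⊆ M)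
    (hDne : D.Nonempty) (hD : ∀ a ∈ A, ∀ w, w < a ↔ w ∈ D)
    (h1 : ∀ m ∈ M, ∀ w ∈ D, w < m)
    (h2 : ∀ m ∈ M, ∀ e, e ∉ M → m < e → e ∈ U) (hU : ∀ a ∈ A, ∀ u ∈ U, a < u) (b : α)
    (hb : b ∈ A) : (2 * hh b + 2) * ∑ a ∈ A, ff a ≤
      ((M.card + 1 - (M.filter fun z => b < z).card : ℕ) : ℝ) := by
  have hN := Npos (α := α)
  have c1 := hh_le b
  have c2 := cuts_le h1 h2 b (fun w hw => (hD b hb w).2 hw) (fun u hu => hU b hb u hu)
  have c3 := CC_zero_le (D := D) (U := U) hAM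
  obtain ⟨D', hD'⟩ : ∃ D' : Finset α, (D' : Set α) = D := ⟨univ.filter (· ∈ D), by ext; simp⟩
  have hmem : ∀ w, w ∈ D' ↔ w ∈ D := fun w => by rw [← hD']; simp
  have c4 := corr (D := D') (A := A) (by
    obtain ⟨w, hw⟩ := hDne
    exact ⟨w, (hmem w).2 hw⟩) (fun a ha w => (hD a ha w).trans (hmem w).symm)
  rw [hD'] at c4
  set ρ := M.card + 1 - (M.filter fun z => b < z).card
  set C := Cc fun p σ => Val D (A : Set α) p σ
  set N := (Y491.BF.LE α).card
  set T := ∑ a ∈ A, nn (fun σ => dn a σ = 0)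
  have e1 : ∑ a ∈ A, ff a = (T : ℝ) / N := by
    show _ = ((∑ a ∈ A, nn (fun σ => dn a σ = 0) : ℕ) : ℝ) / N
    unfold ff pp
    rw [← Finset.sum_div, Nat.cast_sum]
  have c5 : (2 * hh b + 2) * (N : ℝ) ≤ (ρ : ℝ) * C := by
    refine c1.trans ?_
    have : (Cc fun p σ => Val {w | w < b} {u | b < u} p σ) ≤ ρ * C :=
      c2.trans (Nat.mul_le_mul le_rfl c3)
    exact_mod_cast this
  have c6 : (T : ℝ) * C ≤ (N : ℝ) ^ 2 := by exact_mod_cast c4
  rw [e1]
  have hN' : (0 : ℝ) < N := hN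
  have c7 : (2 * hh b + 2) * (T / N) * (N : ℝ) ^ 2 ≤ ρ * (N : ℝ) ^ 2 := by
    calc (2 * hh b + 2) * (T / N) * (N : ℝ) ^ 2 = ((2 * hh b + 2) * N) * T := by
          field_simp
      _ ≤ (ρ * C) * T := mul_le_mul_of_nonneg_right c5 (by positivity)
      _ = ρ * (T * C) := by ring
      _ ≤ ρ * (N : ℝ) ^ 2 := mul_le_mul_of_nonneg_left c6 (by positivity)
  exact le_of_mul_le_mul_right c7 (by positivity)

end

end Pool.Agent.U276.TP
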