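import Mathlib

/-!
# The tangles of a `(3+1)`-free poset
-/

set_option autoImplicit false
set_option linter.unusedSectionVars false

namespace Pool.Agent.U276.TP

section

variable {P : Type} [PartialOrder P]

/-- no three elements `a < b < c` and fourth element incomparable to all of them -/
def Free31 (P : Type) [PartialOrder P] : Prop := ∀ a b c d : P, a < b → b < c → a < d ∨ d < c

/-- `x` and `y` cross: both differences of the sets of upper elements are nonempty -/
def Cross (x y : P) : Prop := ∃ u v, x < u ∧ ¬ y < u ∧ y < v ∧ ¬ x < v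

lemma Cross.symm {x y : P} (h : Cross x y) : Cross y x := by
  obtain ⟨u, v, h1, h2, h3, h4⟩ := h
  exact ⟨v, u, h3, h4, h1, h2⟩

/-- elements which cross have the same lower elements -/
lemma Cross.low (hP : Free31 P) {x y : P} (h : Cross x y) (w : P) : w < x ↔ w < y := by
  obtain ⟨u, v, h1, h2, h3, h4⟩ := h
  constructor
  · intro hw
    exact (hP w x u y hw h1).resolve_right h2
  · intro hw
    exact (hP w y v x hw h3).resolve_right h4

/-- the dual statement -/
lemma upp_eq (hP : Free31 P) {x y u v : P} (h1 : u < x) (h2 : ¬ u < y) (h3 : v < y) (h4 : ¬ v < x)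
    (w : P) : x < w ↔ y < w := by
  constructor
  · intro hw
    exact (hP u x w y h1 hw).resolve_left h2
  · intro hw
    exact (hP v y w x h3 hw).resolve_left h4

/-- The pair of sets `L`, `W` is a tangle: the elements of `L` have the same lower elements, the
elements of `W` have the same upper elements, an element above some but not all elements of `L` is in
`W`, an element below some but not all elements of `W` is in `L`, and every element of `L` is below some
but not all elements of `W` and conversely. -/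
structure Tangle (P : Type) [PartialOrder P] (L W : Set P) : Prop where
  low : ∀ x ∈ L, ∀ x' ∈ L, ∀ z, z < x → z < x'
  upp : ∀ w ∈ W, ∀ w' ∈ W, ∀ z, w < z → w' < z
  up_mem : ∀ x ∈ L, ∀ x' ∈ L, ∀ w, x < w → ¬ x' < w → w ∈ W
  dn_mem : ∀ w ∈ W, ∀ w' ∈ W, ∀ l, l < w → ¬ l < w' → l ∈ L
  up_some : ∀ x ∈ L, ∃ w ∈ W, x < w
  up_not : ∀ x ∈ L, ∃ w ∈ W, ¬ x < w
  dn_some : ∀ w ∈ W, ∃ x ∈ L, x < w
  dn_not : ∀ w ∈ W, ∃ x ∈ L, ¬ x < w
  ne : L.Nonempty

lemma Tangle.dual {L W : Set P} (h : Tangle P L W) : Tangle Pᵒᵈ W L where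
  low x hx x' hx' z hz := h.upp x hx x' hx' z hz
  upp x hx x' hx' z hz := h.low x hx x' hx' z hz
  up_mem x hx x' hx' z h1 h2 := h.dn_mem x hx x' hx' z h1 h2
  dn_mem x hx x' hx' z h1 h2 := h.up_mem x hx x' hx' z h1 h2
  up_some x hx := h.dn_some x hx
  up_not x hx := h.dn_not x hx
  dn_some x hx := h.up_some x hx
  dn_not x hx := h.up_not x hx
  ne := by
    obtain ⟨x, hx⟩ := h.ne
    obtain ⟨w, hw, -⟩ := h.up_some x hx
    exact ⟨w, hw⟩

/-- the component of `x` -/
def Comp (x : P) : Set P := {y | Relation.ReflTransGen Cross x y}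

/-- the elements above some but not all elements of the component -/
def Top (x : P) : Set P := {w | (∃ y ∈ Comp x, y < w) ∧ ∃ y ∈ Comp x, ¬ y < w}

lemma comp_low (hP : Free31 P) {x y : P} (h : y ∈ Comp x) (w : P) : w < x ↔ w < y := by
  induction h with
  | refl => exact Iff.rfl
  | tail _ h2 ih => exact ih.trans (h2.low hP w)

/-- crossing elements differ only in elements with the same upper elements -/
lemma link (hP : Free31 P) {a b : P} (h : Cross a b) {z z' : P}
    (hz : (a < z ∧ ¬ b < z) ∨ (b < z ∧ ¬ a < z)) (hz' : (a < z' ∧ ¬ b < z') ∨ (b < z' ∧ ¬ a < z'))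
    (w : P) : z < w ↔ z' < w := by
  obtain ⟨u, v, h1, h2, h3, h4⟩ := h
  have key : ∀ z z', a < z → ¬ b < z → b < z' → ¬ a < z' → ∀ w, z < w ↔ z' < w :=
    fun z z' k1 k2 k3 k4 w => upp_eq hP k1 k4 k3 k2 w
  rcases hz with ⟨k1, k2⟩ | ⟨k1, k2⟩ <;> rcases hz' with ⟨k3, k4⟩ | ⟨k3, k4⟩
  · exact (key z v k1 k2 h3 h4 w).trans (key z' v k3 k4 h3 h4 w).symm
  · exact key z z' k1 k2 k3 k4 w
  · exact (key z' z k3 k4 k1 k2 w).symm
  · exact (key u z h1 h2 k1 k2 w).symm.trans (key u z' h1 h2 k3 k4 w)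

lemma link2 (hP : Free31 P) {a b c : P} (h : Cross a b) (h' : Cross b c) {z z' : P}
    (hz : (a < z ∧ ¬ b < z) ∨ (b < z ∧ ¬ a < z)) (hz' : (b < z' ∧ ¬ c < z') ∨ (c < z' ∧ ¬ b < z'))
    (w : P) : z < w ↔ z' < w := by
  obtain ⟨u, v, h1, h2, h3, h4⟩ := id h
  obtain ⟨u', v', k1, k2, k3, k4⟩ := id h'
  -- `v` is above `b`, not above `a`; `u'` is above `b`, not above `c`
  by_cases hv : c < v
  · by_cases hu : a < u'
    · have e := upp_eq hP hv k2 hu h4 w
      exact (link hP h hz (Or.inr ⟨h3, h4⟩) w).trans (e.trans (link hP h' hz' (Or.inl ⟨k1, k2⟩) w).symm)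
    · exact (link hP h hz (Or.inr ⟨k1, hu⟩) w).trans (link hP h' hz' (Or.inl ⟨k1, k2⟩) w).symm
  · exact (link hP h hz (Or.inr ⟨h3, h4⟩) w).trans (link hP h' hz' (Or.inl ⟨h3, hv⟩) w).symm

/-- all elements of `Top x` have the same upper elements -/
lemma top_upp (hP : Free31 P) {x y : P} (hxy : Cross x y) {z : P}
    (hz : (x < z ∧ ¬ y < z) ∨ (y < z ∧ ¬ x < z)) {w : P} (hw : w ∈ Top x) (t : P) :
    z < t ↔ w < t := by
  have Q : ∀ a ∈ Comp x, ∀ b, Cross a b → ∀ w, ((a < w ∧ ¬ b < w) ∨ (b < w ∧ ¬ a < w)) →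
      ∀ t, z < t ↔ w < t := by
    intro a ha
    induction ha with
    | refl =>
      intro b hb w hw t
      exact link2 hP hxy.symm hb hz.symm hw t
    | tail _ h2 ih =>
      intro b hb w hw t
      obtain ⟨u, v, h3, h4, h5, h6⟩ := id h2
      exact (ih _ h2 u (Or.inl ⟨h3, h4⟩) t).trans (link2 hP h2 hb (Or.inl ⟨h3, h4⟩) hw t)
  by_contra hcon
  obtain ⟨⟨a, ha, haw⟩, ⟨b, hb, hbw⟩⟩ := hw
  have R : ∀ a ∈ Comp x, (x < w ↔ a < w) := by
    intro a ha
    induction ha with
    | refl => exact Iff.rfl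
    | tail h1 h2 ih =>
      rename_i p q
      refine ih.trans ?_
      by_contra h3
      apply hcon
      refine Q p h1 q h2 w ?_ t
      tauto
  exact hbw ((R b hb).1 ((R a ha).2 haw))

/-- **The tangle of two elements which cross.** -/
theorem exists_tangle (hP : Free31 P) {x y : P} (hxy : Cross x y) : Tangle P (Comp x) (Top x) := by
  obtain ⟨u, v, h1, h2, h3, h4⟩ := id hxy
  have hx : x ∈ Comp x := Relation.ReflTransGen.refl
  have hy : y ∈ Comp x := Relation.ReflTransGen.single hxy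
  have part : ∀ a ∈ Comp x, ∃ b ∈ Comp x, Cross a b := by
    intro a ha
    induction ha with
    | refl => exact ⟨y, hy, hxy⟩
    | tail h5 h6 _ => exact ⟨_, h5, h6.symm⟩
  refine ⟨?_, ?_, ?_, ?_, ?_, ?_, ?_, ?_, ⟨x, hx⟩⟩
  · intro a ha b hb z hz
    exact (comp_low hP hb z).1 ((comp_low hP ha z).2 hz)
  · intro w hw w' hw' z hz
    exact (top_upp hP hxy (Or.inl ⟨h1, h2⟩) hw' z).1 ((top_upp hP hxy (Or.inl ⟨h1, h2⟩) hw z).2 hz)
  · intro a ha b hb w haw hbw
    exact ⟨⟨a, ha, haw⟩, ⟨b, hb, hbw⟩⟩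
  · intro w hw w' hw' l hl hl'
    by_contra hcon
    have no : ∀ a ∈ Comp x, (∀ z, a < z → l < z) ∨ ∀ z, l < z → a < z := by
      intro a ha
      by_contra hc
      push Not at hc
      obtain ⟨⟨p, hp, hp'⟩, ⟨q, hq, hq'⟩⟩ := hc
      exact hcon (Relation.ReflTransGen.tail ha ⟨p, q, hp, hp', hq, hq'⟩)
    rcases no x hx with k | k
    · have all : ∀ a ∈ Comp x, ∀ z, a < z → l < z := by
        intro a ha
        induction ha with
        | refl => exact k
        | tail h5 h6 ih =>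
          rcases no _ (Relation.ReflTransGen.tail h5 h6) with m | m
          · exact m
          · obtain ⟨p, q, n1, n2, n3, n4⟩ := h6
            exact absurd (m p (ih p n1)) n2
      obtain ⟨⟨a, ha, haw⟩, -⟩ := hw'
      exact hl' (all a ha w' haw)
    · have all : ∀ a ∈ Comp x, ∀ z, l < z → a < z := by
        intro a ha
        induction ha with
        | refl => exact k
        | tail h5 h6 ih =>
          rcases no _ (Relation.ReflTransGen.tail h5 h6) with m | m
          · obtain ⟨p, q, n1, n2, n3, n4⟩ := h6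
            exact absurd (ih q (m q n3)) n4
          · exact m
      obtain ⟨-, ⟨a, ha, haw⟩⟩ := hw
      exact haw (all a ha w hl)
  · intro a ha
    obtain ⟨b, hb, p, q, n1, n2, n3, n4⟩ := part a ha
    exact ⟨p, ⟨⟨a, ha, n1⟩, ⟨b, hb, n2⟩⟩, n1⟩
  · intro a ha
    obtain ⟨b, hb, p, q, n1, n2, n3, n4⟩ := part a ha
    exact ⟨q, ⟨⟨b, hb, n3⟩, ⟨a, ha, n4⟩⟩, n4⟩
  · rintro w ⟨h5, -⟩
    exact h5
  · rintro w ⟨-, h5⟩
    exact h5

end

end Pool.Agent.U276.TP
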