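import Mathlib
import Pool.Agent.U276.TP.Tangle

/-!
# Tangles without close pairs have at least six elements on both sides
-/

set_option autoImplicit false
set_option linter.unusedSectionVars false

open Finset
open scoped Classical

namespace Pool.Agent.U276.TP

section

variable {P : Type} [PartialOrder P]

/-- two elements are above `x` and not above `y` -/
def Two (x y : P) : Prop := ∃ w w', w ≠ w' ∧ x < w ∧ ¬ y < w ∧ x < w' ∧ ¬ y < w'

/-- two elements are below `x` and not below `y` -/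
def TwoD (x y : P) : Prop := ∃ w w', w ≠ w' ∧ w < x ∧ ¬ w < y ∧ w' < x ∧ ¬ w' < y

theorem six {L W : Set P} (hT : Tangle P L W) (A : Finset P) (hA : ∀ x, x ∈ A ↔ x ∈ L)
    (hL : ∀ x ∈ L, ∀ y ∈ L, x ≠ y → Two x y ∨ Two y x)
    (hW : ∀ x ∈ W, ∀ y ∈ W, x ≠ y → TwoD x y ∨ TwoD y x) : 6 ≤ A.card := by
  by_contra hcon
  -- the part of `A` below `w`
  let C : P → Finset P := fun w => A.filter (· < w)
  let K : P → Finset P := fun w => A.filter (fun x => ¬ x < w)
  have hCK : ∀ w, (C w).card + (K w).card = A.card := by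
    intro w
    exact Finset.card_filter_add_card_filter_not _
  have mC : ∀ w x, x ∈ C w ↔ x ∈ L ∧ x < w := by
    intro w x
    simp only [C, mem_filter, hA]
  have mK : ∀ w x, x ∈ K w ↔ x ∈ L ∧ ¬ x < w := by
    intro w x
    simp only [K, mem_filter, hA]
  have big : ∀ w w' x, w ∈ W → w' ∈ W → w ≠ w' → x ∈ L → x < w → x < w' →
      3 ≤ (C w).card ∨ 3 ≤ (C w').card := by
    have key : ∀ w w' x, w ∈ W → w' ∈ W → x ∈ L → x < w → x < w' → TwoD w w' →
        3 ≤ (C w).card := by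
      rintro w w' x hw hw' hx h1 h2 ⟨p, q, hpq, p1, p2, q1, q2⟩
      have hp : p ∈ L := hT.dn_mem w hw w' hw' p p1 p2
      have hq : q ∈ L := hT.dn_mem w hw w' hw' q q1 q2
      have hxp : x ≠ p := by rintro rfl; exact p2 h2
      have hxq : x ≠ q := by rintro rfl; exact q2 h2
      have h3 : ({x, p, q} : Finset P) ⊆ C w := by
        intro z hz
        simp only [mem_insert, mem_singleton] at hz
        rcases hz with rfl | rfl | rfl
        · exact (mC w _).2 ⟨hx, h1⟩
        · exact (mC w _).2 ⟨hp, p1⟩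
        · exact (mC w _).2 ⟨hq, q1⟩
      have h4 := card_le_card h3
      rwa [card_eq_three.2 ⟨x, p, q, hxp, hxq, hpq, rfl⟩] at h4
    intro w w' x hw hw' hne hx h1 h2
    rcases hW w hw w' hw' hne with h | h
    · exact Or.inl (key w w' x hw hw' hx h1 h2 h)
    · exact Or.inr (key w' w x hw' hw hx h2 h1 h)
  -- every pair is separated by an element above at least three elements
  have sep : ∀ x ∈ L, ∀ y ∈ L, x ≠ y → ∃ w ∈ W, 3 ≤ (C w).card ∧
      ((x < w ∧ ¬ y < w) ∨ (y < w ∧ ¬ x < w)) := by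
    have key : ∀ x ∈ L, ∀ y ∈ L, Two x y → ∃ w ∈ W, 3 ≤ (C w).card ∧ (x < w ∧ ¬ y < w) := by
      rintro x hx y hy ⟨w, w', hne, h1, h2, h3, h4⟩
      have hw : w ∈ W := hT.up_mem x hx y hy w h1 h2
      have hw' : w' ∈ W := hT.up_mem x hx y hy w' h3 h4
      rcases big w w' x hw hw' hne hx h1 h3 with h | h
      · exact ⟨w, hw, h, h1, h2⟩
      · exact ⟨w', hw', h, h3, h4⟩
    intro x hx y hy hne
    rcases hL x hx y hy hne with h | h
    · obtain ⟨w, hw, h1, h2⟩ := key x hx y hy h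
      exact ⟨w, hw, h1, Or.inl h2⟩
    · obtain ⟨w, hw, h1, h2⟩ := key y hy x hx h
      exact ⟨w, hw, h1, Or.inr h2⟩
  -- two such elements
  have two : ∀ w ∈ W, ∀ w' ∈ W, w ≠ w' → 3 ≤ (C w).card → 3 ≤ (C w').card →
      Disjoint (K w) (K w') ∧ (2 ≤ (K w).card ∨ 2 ≤ (K w').card) := by
    have key : ∀ w ∈ W, ∀ w' ∈ W, 3 ≤ (C w').card → TwoD w w' →
        Disjoint (K w') (K w) ∧ 2 ≤ (K w').card := by
      rintro w hw w' hw' h3 ⟨p, q, hpq, p1, p2, q1, q2⟩
      have hp : p ∈ L := hT.dn_mem w hw w' hw' p p1 p2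
      have hq : q ∈ L := hT.dn_mem w hw w' hw' q q1 q2
      have h4 : ({p, q} : Finset P) ⊆ K w' := by
        intro z hz
        simp only [mem_insert, mem_singleton] at hz
        rcases hz with rfl | rfl
        · exact (mK w' _).2 ⟨hp, p2⟩
        · exact (mK w' _).2 ⟨hq, q2⟩
      have h5 : ({p, q} : Finset P).card = 2 := card_pair hpq
      have h6 := hCK w'
      have h7 := card_le_card h4
      have h8 : ({p, q} : Finset P) = K w' := eq_of_subset_of_card_le h4 (by omega)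
      refine ⟨?_, by omega⟩
      rw [disjoint_left, ← h8]
      intro z hz hz'
      simp only [mem_insert, mem_singleton] at hz
      rcases hz with rfl | rfl
      · exact ((mK w _).1 hz').2 p1
      · exact ((mK w _).1 hz').2 q1
    intro w hw w' hw' hne h1 h2
    rcases hW w hw w' hw' hne with h | h
    · obtain ⟨k1, k2⟩ := key w hw w' hw' h2 h
      exact ⟨k1.symm, Or.inr k2⟩
    · obtain ⟨k1, k2⟩ := key w' hw' w hw h1 h
      exact ⟨k1, Or.inl k2⟩
  have small : ∀ w ∈ W, 3 ≤ (C w).card → (K w).card ≤ 1 := by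
    intro w hw h3
    by_contra h4
    push Not at h4
    obtain ⟨x, hx, y, hy, hxy⟩ := one_lt_card.1 h4
    have hx' := (mK w x).1 hx
    have hy' := (mK w y).1 hy
    obtain ⟨w', hw', h5, h6⟩ := sep x hx'.1 y hy'.1 hxy
    have hne : w ≠ w' := by
      rintro rfl
      rcases h6 with h6 | h6
      · exact hx'.2 h6.1
      · exact hy'.2 h6.1
    obtain ⟨h7, -⟩ := two w hw w' hw' hne h3 h5
    rw [disjoint_left] at h7
    rcases h6 with h6 | h6
    · exact h7 hy ((mK w' y).2 ⟨hy'.1, h6.2⟩)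
    · exact h7 hx ((mK w' x).2 ⟨hx'.1, h6.2⟩)
  -- a first separated pair
  obtain ⟨x, hx⟩ := hT.ne
  obtain ⟨w, hw, hxw⟩ := hT.up_some x hx
  obtain ⟨y, hy, hyw⟩ := hT.dn_not w hw
  have hxy : x ≠ y := by rintro rfl; exact hyw hxw
  obtain ⟨w, hw, h3, -⟩ := sep x hx y hy hxy
  obtain ⟨p, hp, q, hq, hpq⟩ := one_lt_card.1 (show 1 < (C w).card by omega)
  have hp' := (mC w p).1 hp
  have hq' := (mC w q).1 hq
  obtain ⟨w', hw', h4, h5⟩ := sep p hp'.1 q hq'.1 hpq
  have hne : w ≠ w' := by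
    rintro rfl
    rcases h5 with h5 | h5
    · exact h5.2 hq'.2
    · exact h5.2 hp'.2
  have h6 := (two w hw w' hw' hne h3 h4).2
  have h7 := small w hw h3
  have h8 := small w' hw' h4
  omega

end

end Pool.Agent.U276.TP
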