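import Mathlib
import Pool.Agent.N175.SO.CloseFin
import Pool.Agent.U276.TP.Six

/-!
# Close pairs in tangles
-/

set_option autoImplicit false
set_option linter.unusedSectionVars false

open Finset
open scoped Classical

namespace Pool.Agent.U276.TP

open Pool.Agent.H13R3.WB Pool.Agent.H931R3.Bal Pool.Agent.R636.BG Pool.Agent.N175.SO

section

variable {P : Type} [Fintype P] [PartialOrder P]

lemma not_two {x y : P} (h : ¬ Two x y) {w w' : P} (h1 : x < w) (h2 : ¬ y < w) (h3 : x < w')
    (h4 : ¬ y < w') : w = w' := by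
  by_contra hne
  exact h ⟨w, w', hne, h1, h2, h3, h4⟩

lemma Tangle.anti {L W : Set P} (hT : Tangle P L W) {x y : P} (hx : x ∈ L) (hy : y ∈ L)
    (hne : x ≠ y) : ¬ x ≤ y := by
  intro h
  have h1 : x < y := lt_of_le_of_ne h hne
  exact lt_irrefl x (hT.low y hy x hx x h1)

/-- a pair of elements of `L` such that both differences of the sets of upper elements have at most
one element -/
theorem close {ε : ℝ} (good : Good ε) {L W : Set P} (hT : Tangle P L W) {x y : P} (hx : x ∈ L)
    (hy : y ∈ L) (hne : x ≠ y) (h1 : ¬ Two x y) (h2 : ¬ Two y x) : 1 / 3 + ε ≤ balance P := by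
  have hxy := hT.anti hx hy hne
  have hyx := hT.anti hy hx hne.symm
  have hD : ∀ w, w < x ↔ w < y := fun w => ⟨hT.low x hx y hy w, hT.low y hy x hx w⟩
  by_cases c1 : ∃ u, x < u ∧ ¬ y < u
  · by_cases c2 : ∃ v, y < v ∧ ¬ x < v
    · obtain ⟨u, hu, hu'⟩ := c1
      obtain ⟨v, hv, hv'⟩ := c2
      exact gap_near good hne hD
        (fun w w' a b c d => Or.inl (not_two h1 a c b d).le)
        (fun w w' a b c d => Or.inl (not_two h2 a c b d).le) hu hu' hv hv'
    · push Not at c2
      have hs : ∀ w, Sep P w x y → x < w ∧ ¬ y < w := by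
        intro w hw
        rcases (sep_iff hxy hyx).1 hw with h | h | h | h
        · exact absurd ((hD w).1 h.1) h.2
        · exact h
        · exact absurd ((hD w).2 h.1) h.2
        · exact absurd (c2 w h.1) h.2
      rcases one_sep good hxy hyx (fun w w' a b =>
        not_two h1 (hs w a).1 (hs w a).2 (hs w' b).1 (hs w' b).2) with h | ⟨z, hz⟩
      · exact h
      · exfalso
        obtain ⟨hz1, hz2⟩ := hs z hz.1
        have hzW := hT.up_mem x hx y hy z hz1 hz2
        obtain ⟨w, hw, hyw⟩ := hT.up_some y hy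
        have hwz : w ≠ z := by rintro rfl; exact hz2 hyw
        have hwx : w ≠ x := by rintro rfl; exact hyx hyw.le
        obtain ⟨-, -, -, h3⟩ := hz.2 w hwx hyw.ne' hwz
        exact lt_irrefl w (hT.upp z hzW w hw w (h3.1 hyw))
  · push Not at c1
    have hs : ∀ w, Sep P w x y → y < w ∧ ¬ x < w := by
      intro w hw
      rcases (sep_iff hxy hyx).1 hw with h | h | h | h
      · exact absurd ((hD w).1 h.1) h.2
      · exact absurd (c1 w h.1) h.2
      · exact absurd ((hD w).2 h.1) h.2
      · exact h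
    rcases one_sep good hxy hyx (fun w w' a b =>
      not_two h2 (hs w a).1 (hs w a).2 (hs w' b).1 (hs w' b).2) with h | ⟨z, hz⟩
    · exact h
    · exfalso
      obtain ⟨hz1, hz2⟩ := hs z hz.1
      have hzW := hT.up_mem y hy x hx z hz1 hz2
      obtain ⟨w, hw, hxw⟩ := hT.up_some x hx
      have hwz : w ≠ z := by rintro rfl; exact hz2 hxw
      have hwy : w ≠ y := by rintro rfl; exact hxy hxw.le
      obtain ⟨-, -, h3, h4⟩ := hz.2 w hxw.ne' hwy hwz
      exact lt_irrefl w (hT.upp z hzW w hw w (h4.1 (h3.1 hxw)))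

/-- the dual statement -/
theorem close' {ε : ℝ} (good : Good ε) {L W : Set P} (hT : Tangle P L W) {x y : P} (hx : x ∈ W)
    (hy : y ∈ W) (hne : x ≠ y) (h1 : ¬ TwoD x y) (h2 : ¬ TwoD y x) : 1 / 3 + ε ≤ balance P := by
  have : Nonempty P := ⟨x⟩
  rw [← balance_dual P]
  exact close good (P := Pᵒᵈ) hT.dual (x := OrderDual.toDual x) (y := OrderDual.toDual y) hx hy
    (fun h => hne (OrderDual.toDual.injective h)) h1 h2

/-- a tangle has at least six elements on both sides, or there is a balanced pair -/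
theorem tangle_six {ε : ℝ} (good : Good ε) {L W : Set P} (hT : Tangle P L W) :
    1 / 3 + ε ≤ balance P ∨ ∃ A B : Finset P, (∀ x, x ∈ A ↔ x ∈ L) ∧ (∀ x, x ∈ B ↔ x ∈ W) ∧
      6 ≤ A.card ∧ 6 ≤ B.card := by
  by_cases hL : ∀ x ∈ L, ∀ y ∈ L, x ≠ y → Two x y ∨ Two y x
  · by_cases hW : ∀ x ∈ W, ∀ y ∈ W, x ≠ y → TwoD x y ∨ TwoD y x
    · right
      refine ⟨univ.filter (· ∈ L), univ.filter (· ∈ W), fun x => by simp, fun x => by simp, ?_, ?_⟩
      · exact six hT _ (fun x => by simp) hL hW
      · have := six (P := Pᵒᵈ) hT.dual ((univ.filter (· ∈ W)).map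
          ⟨OrderDual.toDual, OrderDual.toDual.injective⟩) (fun x => by
            rw [Finset.mem_map]
            constructor
            · rintro ⟨y, hy, rfl⟩
              exact (mem_filter.1 hy).2
            · intro hx
              exact ⟨OrderDual.ofDual x, mem_filter.2 ⟨mem_univ _, hx⟩, rfl⟩) hW hL
        rwa [card_map] at this
    · push Not at hW
      obtain ⟨x, hx, y, hy, hne, h1, h2⟩ := hW
      exact Or.inl (close' good hT hx hy hne h1 h2)
  · push Not at hL
    obtain ⟨x, hx, y, hy, hne, h1, h2⟩ := hL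
    exact Or.inl (close good hT hx hy hne h1 h2)

end

end Pool.Agent.U276.TP
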