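import Mathlib
import Pool.Agent.U276.TP.Chain
import Pool.Agent.U276.TP.Close
import Pool.Agent.U396.H2.Low

/-!
# Tangles in padded posets, and the balance constant of a poset with a large tangle
-/

set_option autoImplicit false
set_option linter.unusedSectionVars false

open Finset
open scoped Classical

namespace Pool.Agent.U276.TP

open Pool.Agent.Y491.BF Pool.Agent.U396.H2 Pool.Agent.H13R3.WB Pool.Agent.TH161.LW

lemma Tangle.antiW {P : Type} [PartialOrder P] {L W : Set P} (hT : Tangle P L W) {x y : P}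
    (hx : x ∈ W) (hy : y ∈ W) : ¬ x < y := by
  intro h
  exact lt_irrefl y (hT.upp x hx y hy y h)

lemma Tangle.antiL {P : Type} [PartialOrder P] {L W : Set P} (hT : Tangle P L W) {x y : P}
    (hx : x ∈ L) (hy : y ∈ L) : ¬ x < y := by
  intro h
  exact lt_irrefl x (hT.low y hy x hx x h)

/-- a tangle in a poset with additional elements which are comparable to everything -/
theorem tangle_map {P Q : Type} [PartialOrder P] [PartialOrder Q] {ι : P → Q}
    (hlt : ∀ a b, ι a < ι b ↔ a < b)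
    (hout : ∀ q : Q, q ∉ Set.range ι → ∀ q' : Q, q ≤ q' ∨ q' ≤ q) {L W : Set P}
    (hT : Tangle P L W) : Tangle Q (ι '' L) (ι '' W) where
  low := by
    rintro _ ⟨a, ha, rfl⟩ _ ⟨b, hb, rfl⟩ z hz
    by_cases hr : z ∈ Set.range ι
    · obtain ⟨c, rfl⟩ := hr
      rw [hlt] at hz ⊢
      exact hT.low a ha b hb c hz
    · rcases hout z hr (ι b) with h | h
      · exact lt_of_le_of_ne h (fun he => hr ⟨b, he.symm⟩)
      · exact absurd ((hlt b a).1 (lt_of_le_of_lt h hz)) (hT.antiL hb ha)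
  upp := by
    rintro _ ⟨a, ha, rfl⟩ _ ⟨b, hb, rfl⟩ z hz
    by_cases hr : z ∈ Set.range ι
    · obtain ⟨c, rfl⟩ := hr
      rw [hlt] at hz ⊢
      exact hT.upp a ha b hb c hz
    · rcases hout z hr (ι b) with h | h
      · exact absurd ((hlt a b).1 (lt_of_lt_of_le hz h)) (hT.antiW ha hb)
      · exact lt_of_le_of_ne h (fun he => hr ⟨b, he⟩)
  up_mem := by
    rintro _ ⟨a, ha, rfl⟩ _ ⟨b, hb, rfl⟩ z hz hz'
    by_cases hr : z ∈ Set.range ι
    · obtain ⟨c, rfl⟩ := hr
      rw [hlt] at hz hz'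
      exact ⟨c, hT.up_mem a ha b hb c hz hz', rfl⟩
    · exfalso
      rcases hout z hr (ι b) with h | h
      · exact hT.antiL ha hb ((hlt a b).1 (lt_of_lt_of_le hz h))
      · exact hz' (lt_of_le_of_ne h (fun he => hr ⟨b, he⟩))
  dn_mem := by
    rintro _ ⟨a, ha, rfl⟩ _ ⟨b, hb, rfl⟩ z hz hz'
    by_cases hr : z ∈ Set.range ι
    · obtain ⟨c, rfl⟩ := hr
      rw [hlt] at hz hz'
      exact ⟨c, hT.dn_mem a ha b hb c hz hz', rfl⟩
    · exfalso
      rcases hout z hr (ι b) with h | h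
      · exact hz' (lt_of_le_of_ne h (fun he => hr ⟨b, he.symm⟩))
      · exact hT.antiW hb ha ((hlt b a).1 (lt_of_le_of_lt h hz))
  up_some := by
    rintro _ ⟨a, ha, rfl⟩
    obtain ⟨w, hw, h⟩ := hT.up_some a ha
    exact ⟨ι w, ⟨w, hw, rfl⟩, (hlt _ _).2 h⟩
  up_not := by
    rintro _ ⟨a, ha, rfl⟩
    obtain ⟨w, hw, h⟩ := hT.up_not a ha
    exact ⟨ι w, ⟨w, hw, rfl⟩, fun h2 => h ((hlt _ _).1 h2)⟩
  dn_some := by
    rintro _ ⟨a, ha, rfl⟩
    obtain ⟨w, hw, h⟩ := hT.dn_some a ha
    exact ⟨ι w, ⟨w, hw, rfl⟩, (hlt _ _).2 h⟩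
  dn_not := by
    rintro _ ⟨a, ha, rfl⟩
    obtain ⟨w, hw, h⟩ := hT.dn_not a ha
    exact ⟨ι w, ⟨w, hw, rfl⟩, fun h2 => h ((hlt _ _).1 h2)⟩
  ne := by
    obtain ⟨a, ha⟩ := hT.ne
    exact ⟨ι a, a, ha, rfl⟩

/-- the situation in a padded poset -/
structure Big (α : Type) [Fintype α] [PartialOrder α] (A B : Finset α) : Prop where
  tangle : Tangle α (A : Set α) (B : Set α)
  large : 10000 ≤ Fintype.card α
  below : ∀ a ∈ A, ∃ w, w < a
  unb : ∀ x ∈ A, ∀ y ∈ A, x ≠ y → pp (fun σ => gap x y σ < 0) ≤ 4001 / 12000 ∨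
      pp (fun σ => gap y x σ < 0) ≤ 4001 / 12000

/-- padding -/
theorem exists_big (P : Type) [Fintype P] [PartialOrder P] (A B : Finset P)
    (hT : Tangle P (A : Set P) (B : Set P)) (hbal : balance P < 1 / 3 + 1 / 12000) :
    ∃ (Q : Type) (_ : Fintype Q) (_ : PartialOrder Q) (ι : P ↪ Q),
      (∀ a b, ι a < ι b ↔ a < b) ∧ Big Q (A.map ι) (B.map ι) := by
  haveI : Nonempty P := ⟨hT.ne.some⟩
  obtain ⟨Q, iF, iP, ι, hι, hle, hcard, hout, hlow, hprob⟩ := Pool.Agent.TH494.KS_LEX.t_LEX P 5000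
  have hlt : ∀ a b : P, ι a < ι b ↔ a < b := by
    intro a b
    rw [lt_iff_le_not_ge, lt_iff_le_not_ge, hle, hle]
  refine ⟨Q, iF, iP, ⟨ι, hι⟩, hlt, ?_, by omega, ?_, ?_⟩
  · have := tangle_map hlt hout hT
    rw [Finset.coe_map, Finset.coe_map]
    exact this
  · intro a ha
    rw [Finset.mem_map] at ha
    obtain ⟨p, _, rfl⟩ := ha
    have h1 := (hlow p).1
    obtain ⟨q, hq⟩ := Finset.card_pos.1 (show 0 < (univ.filter fun q : Q => q < ι p).card by omega)
    exact ⟨q, (Finset.mem_filter.1 hq).2⟩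
  · intro x hx y hy _
    rw [Finset.mem_map] at hx hy
    obtain ⟨p, hp, rfl⟩ := hx
    obtain ⟨q, hq, rfl⟩ := hy
    change pp (fun σ => gap (ι p) (ι q) σ < 0) ≤ 4001 / 12000 ∨
      pp (fun σ => gap (ι q) (ι p) σ < 0) ≤ 4001 / 12000
    rw [pp_eq_eP, pp_eq_eP, hprob, hprob, ← prob_eq', ← prob_eq']
    have hb : min (prob P p q) (prob P q p) ≤ balance P := by
      unfold balance
      exact le_ciSup (f := fun p : P × P => min (prob P p.1 p.2) (prob P p.2 p.1))
        (Set.finite_range _).bddAbove (p, q)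
    rcases min_le_iff.mp hb with h4 | h4
    · right; linarith
    · left; linarith

section

variable {α : Type} [Fintype α] [PartialOrder α]

/-- elements above all elements of `A` -/
def Uu (A : Finset α) : Set α := {e | ∀ a ∈ A, a < e}

lemma Big.h2 {A B : Finset α} (h : Big α A B) : ∀ m ∈ A ∪ B, ∀ e, e ∉ A ∪ B → m < e → e ∈ Uu A := by
  have key : ∀ m ∈ A, ∀ e, e ∉ A ∪ B → m < e → e ∈ Uu A := by
    intro m hm e he hlt a ha
    by_contra hcon
    have := h.tangle.up_mem m (by simpa using hm) a (by simpa using ha) e hlt hcon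
    exact he (Finset.mem_union_right _ (by simpa using this))
  intro m hm e he hlt
  rcases Finset.mem_union.1 hm with h1 | h1
  · exact key m h1 e he hlt
  · obtain ⟨x, hx, hxm⟩ := h.tangle.dn_some m (by simpa using h1)
    exact key x (by simpa using hx) e he (hxm.trans hlt)

lemma Big.h1 {A B : Finset α} (h : Big α A B) {a₀ : α} (ha₀ : a₀ ∈ A) :
    ∀ m ∈ A ∪ B, ∀ w ∈ {w | w < a₀}, w < m := by
  have key : ∀ m ∈ A, ∀ w, w < a₀ → w < m := fun m hm w hw =>
    h.tangle.low a₀ (by simpa using ha₀) m (by simpa using hm) w hw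
  intro m hm w hw
  rcases Finset.mem_union.1 hm with h1 | h1
  · exact key m h1 w hw
  · obtain ⟨x, hx, hxm⟩ := h.tangle.dn_some m (by simpa using h1)
    exact (key x (by simpa using hx) w hw).trans hxm

lemma Big.same {A B : Finset α} (h : Big α A B) : ∀ a ∈ A, ∀ a' ∈ A, ∀ w, w < a ↔ w < a' :=
  fun a ha a' ha' w => ⟨h.tangle.low a (by simpa using ha) a' (by simpa using ha') w,
    h.tangle.low a' (by simpa using ha') a (by simpa using ha) w⟩

lemma Big.disj {A B : Finset α} (h : Big α A B) : Disjoint A B := by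
  rw [Finset.disjoint_left]
  intro x hx hx'
  obtain ⟨y, hy, hyx⟩ := h.tangle.dn_some x (by simpa using hx')
  exact h.tangle.antiL hy (by simpa using hx) hyx

lemma Big.bounds {A B : Finset α} (h : Big α A B) {b : α} (hb : b ∈ A)
    (hmax : ∀ a ∈ A, hh a ≤ hh b) :
    (1 + ((A.card : ℝ) - 1) * (471 / 1000)) ^ 2 <
      ((A.card + B.card + 1 - (B.filter fun z => b < z).card : ℕ) : ℝ) := by
  have l := low_bound A h.same h.large (Finset.card_pos.2 ⟨b, hb⟩) h.unb b hb hmax
  have u := upp_bound (D := {w | w < b}) (U := Uu A) (A := A) (M := A ∪ B) Finset.subset_union_left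
    (h.below b hb) (fun a ha w => h.same a ha b hb w) (h.h1 hb) h.h2
    (fun a ha u hu => hu a ha) b hb
  refine lt_of_lt_of_le l (u.trans ?_)
  have h1 : (A ∪ B).card = A.card + B.card := Finset.card_union_of_disjoint h.disj
  have h2 : (B.filter fun z => b < z).card ≤ ((A ∪ B).filter fun z => b < z).card :=
    Finset.card_le_card (Finset.filter_subset_filter _ Finset.subset_union_right)
  exact_mod_cast (show (A ∪ B).card + 1 - ((A ∪ B).filter fun z => b < z).card ≤
    A.card + B.card + 1 - (B.filter fun z => b < z).card by omega)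

/-- at least seven elements, or at least two upper elements for each element -/
theorem Big.false {A B : Finset α} (h : Big α A B) (h6 : 6 ≤ A.card) (hBA : B.card ≤ A.card)
    {b : α} (hb : b ∈ A) (hmax : ∀ a ∈ A, hh a ≤ hh b)
    (h7 : A.card = 6 → 2 ≤ (B.filter fun z => b < z).card) : False := by
  have h1 := h.bounds hb hmax
  have h2 : 1 ≤ (B.filter fun z => b < z).card := by
    obtain ⟨w, hw, hbw⟩ := h.tangle.up_some b (by simpa using hb)
    exact Finset.card_pos.2 ⟨w, Finset.mem_filter.2 ⟨by simpa using hw, hbw⟩⟩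
  rcases h6.eq_or_lt with h8 | h8
  · have h3 := h7 h8.symm
    have h4 : A.card + B.card + 1 - (B.filter fun z => b < z).card ≤ 11 := by omega
    have h5 : ((A.card + B.card + 1 - (B.filter fun z => b < z).card : ℕ) : ℝ) ≤ 11 := by
      exact_mod_cast h4
    have h10 : (A.card : ℝ) = 6 := by exact_mod_cast h8.symm
    have h11 := lt_of_lt_of_le h1 h5
    rw [h10] at h11
    norm_num at h11
  · have h4 : A.card + B.card + 1 - (B.filter fun z => b < z).card ≤ 2 * A.card := by omega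
    have h5 : ((A.card + B.card + 1 - (B.filter fun z => b < z).card : ℕ) : ℝ) ≤ 2 * A.card := by
      exact_mod_cast h4
    have h9 : (7 : ℝ) ≤ A.card := by exact_mod_cast h8
    nlinarith

end

end Pool.Agent.U276.TP
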