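import Mathlib
import Pool.Agent.U276.TP.Pad

/-!
# Tangles with six elements on both sides and an element with one upper element
-/

set_option autoImplicit false
set_option linter.unusedSectionVars false

open Finset
open scoped Classical

namespace Pool.Agent.U276.TP

open Pool.Agent.Y491.BF Pool.Agent.U396.H2

section

variable {α : Type} [Fintype α] [PartialOrder α]

lemma nn_transfer {γ : Type} {s : Finset γ} {q r : (α ≃ Fin (Fintype.card α)) → Prop}
    (Q R : γ → (α ≃ Fin (Fintype.card α)) → Prop)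
    (h1 : ∀ σ ∈ Y491.BF.LE α, q σ → ∃ z ∈ s, Q z σ) (h2 : ∀ z ∈ s, nn (Q z) ≤ nn (R z))
    (h3 : ∀ z ∈ s, ∀ σ ∈ Y491.BF.LE α, R z σ → r σ)
    (h4 : ∀ z ∈ s, ∀ z' ∈ s, ∀ σ ∈ Y491.BF.LE α, R z σ → R z' σ → z = z') : nn q ≤ nn r := by
  have e1 : nn q ≤ ∑ z ∈ s, nn (Q z) := by
    unfold nn
    refine le_trans (Finset.card_le_card fun σ hσ => ?_) Finset.card_biUnion_le
    have h1' := memf.mp hσ
    obtain ⟨j, hj, h2⟩ := h1 σ h1'.1 h1'.2
    exact Finset.mem_biUnion.mpr ⟨j, hj, memf.mpr ⟨h1'.1, h2⟩⟩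
  have e2 : ∑ z ∈ s, nn (R z) ≤ nn r := by
    unfold nn
    rw [← Finset.card_biUnion]
    · refine Finset.card_le_card fun σ hσ => ?_
      obtain ⟨j, hj, h1⟩ := Finset.mem_biUnion.mp hσ
      have h2 := memf.mp h1
      exact memf.mpr ⟨h2.1, h3 j hj σ h2.1 h2.2⟩
    · intro i hi j hj hij
      refine Finset.disjoint_left.mpr ?_
      intro σ h1 h2
      exact hij (h4 i hi j hj σ (memf.mp h1).1 (memf.mp h1).2 (memf.mp h2).2)
  exact e1.trans ((Finset.sum_le_sum h2).trans e2)

lemma nn_swap (x y : α) {Q R : (α ≃ Fin (Fintype.card α)) → Prop}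
    (h : ∀ σ ∈ Y491.BF.LE α, Q σ → (Equiv.swap x y).trans σ ∈ Y491.BF.LE α ∧
      R ((Equiv.swap x y).trans σ)) : nn Q ≤ nn R := by
  refine SH.nn_inj (fun σ => (Equiv.swap x y).trans σ) h ?_
  intro σ _ _ τ _ _ he
  have : (Equiv.swap x y).trans ((Equiv.swap x y).trans σ) =
      (Equiv.swap x y).trans ((Equiv.swap x y).trans τ) := by
    rw [show (Equiv.swap x y).trans σ = (Equiv.swap x y).trans τ from he]
  rwa [SH.swap_swap, SH.swap_swap] at this

/-- the values after an exchange -/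
lemma sw_ap (x y : α) (σ : α ≃ Fin (Fintype.card α)) (z : α) :
    (((Equiv.swap x y).trans σ z : Fin _) : ℕ) =
      if z = x then (σ y : ℕ) else if z = y then (σ x : ℕ) else (σ z : ℕ) := by
  rw [Equiv.trans_apply, Equiv.swap_apply_def]
  split_ifs <;> rfl

variable {A B : Finset α}

lemma Big.not_D (h : Big α A B) {a₀ : α} (ha₀ : a₀ ∈ A) {m : α} (hm : m ∈ A ∪ B) : ¬ m < a₀ :=
  fun hlt => lt_irrefl m (h.h1 ha₀ m hm m hlt)

lemma Big.not_U (h : Big α A B) {u : α} (hu : u ∈ Uu A) : u ∉ A ∪ B := by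
  intro hm
  rcases Finset.mem_union.1 hm with h1 | h1
  · exact lt_irrefl u (hu u h1)
  · obtain ⟨x, hx, hxm⟩ := h.tangle.dn_not u (by simpa using h1)
    exact hxm (hu x (by simpa using hx))

/-- everything in `M` except `w` is before the cut -/
lemma all_but {M : Finset α} {w : α} (hw : w ∈ M) {p : ℕ} {σ : α ≃ Fin (Fintype.card α)}
    (hc : cM M p σ + 1 = M.card) (hp : p ≤ (σ w : ℕ)) {x : α} (hx : x ∈ M) (hxw : x ≠ w) :
    (σ x : ℕ) < p := by
  by_contra hcon
  have h1 : (M.filter fun z => (σ z : ℕ) < p) ⊆ (M.erase w).erase x := by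
    intro z hz
    rw [mem_filter] at hz
    rw [mem_erase, mem_erase]
    refine ⟨?_, ?_, hz.1⟩
    · rintro rfl; omega
    · rintro rfl; omega
  have h2 := Finset.card_le_card h1
  rw [Finset.card_erase_of_mem (mem_erase.2 ⟨hxw, hx⟩), Finset.card_erase_of_mem hw] at h2
  have h3 : 0 < M.card := Finset.card_pos.2 ⟨w, hw⟩
  have h4 : 0 < (M.erase w).card := Finset.card_pos.2 ⟨x, mem_erase.2 ⟨hxw, hx⟩⟩
  rw [Finset.card_erase_of_mem hw] at h4
  unfold cM at hc
  omega

/-- exchange of `w` with the last element of the tangle before the cut -/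
lemma swap_w (h : Big α A B) {a₀ b w : α} (ha₀ : a₀ ∈ A) (hw : w ∈ B)
    (hdeg : ∀ x ∈ A, x ≠ b → ∃ z ∈ B, z ≠ w ∧ x < z) (p : ℕ) :
    nn (fun σ => Val {v | v < a₀} (Uu A) p σ ∧ cM (A ∪ B) p σ + 1 = (A ∪ B).card ∧ p ≤ (σ w : ℕ) ∧
      ∃ z ∈ A ∪ B, z ≠ b ∧ z ≠ w ∧ (σ b : ℕ) < σ z) ≤
    nn (fun σ => Val {v | v < a₀} (Uu A) p σ ∧ cM (A ∪ B) p σ + 1 = (A ∪ B).card ∧
      (σ w : ℕ) < p) := by
  have hwM : w ∈ A ∪ B := Finset.mem_union_right _ hw
  refine nn_transfer (s := B.erase w)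
    (fun z σ => Val {v | v < a₀} (Uu A) p σ ∧ cM (A ∪ B) p σ + 1 = (A ∪ B).card ∧ p ≤ (σ w : ℕ) ∧
      ∀ y ∈ A ∪ B, y ≠ w → y ≠ z → (σ y : ℕ) < σ z)
    (fun z σ => Val {v | v < a₀} (Uu A) p σ ∧ cM (A ∪ B) p σ + 1 = (A ∪ B).card ∧
      (σ w : ℕ) < p ∧ p ≤ (σ z : ℕ)) ?_ ?_ ?_ ?_
  · rintro σ hσ ⟨h1, h2, h3, ⟨z1, hz1, hz1b, hz1w, hz1lt⟩⟩
    obtain ⟨z, hz, hmax⟩ := Finset.exists_max_image ((A ∪ B).erase w) (fun z => (σ z : ℕ))
      ⟨z1, mem_erase.2 ⟨hz1w, hz1⟩⟩
    rw [mem_erase] at hz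
    have hlast : ∀ y ∈ A ∪ B, y ≠ w → y ≠ z → (σ y : ℕ) < σ z := by
      intro y hy hyw hyz
      have := hmax y (mem_erase.2 ⟨hyw, hy⟩)
      have h4 : (σ y : ℕ) ≠ σ z := fun he => hyz (val_inj he)
      omega
    have hzb : z ≠ b := by
      rintro rfl
      have := hlast z1 hz1 hz1w hz1b
      omega
    have hzB : z ∈ B := by
      rcases Finset.mem_union.1 hz.2 with h4 | h4
      · exfalso
        obtain ⟨y, hy, hyw, hzy⟩ := hdeg z h4 hzb
        have h5 := LE_lt hσ hzy
        have h6 := hlast y (Finset.mem_union_right _ hy) hyw hzy.ne'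
        omega
      · exact h4
    exact ⟨z, mem_erase.2 ⟨hz.1, hzB⟩, h1, h2, h3, hlast⟩
  · intro z hz
    rw [mem_erase] at hz
    have hzM : z ∈ A ∪ B := Finset.mem_union_right _ hz.2
    refine nn_swap z w ?_
    rintro σ hσ ⟨⟨h1, h1'⟩, h2, h3, h4⟩
    have hzp : (σ z : ℕ) < p := all_but hwM h2 h3 hzM hz.1
    have nzw : ¬ z < w := h.tangle.antiW (by simpa using hz.2) (by simpa using hw)
    have nwz : ¬ w < z := h.tangle.antiW (by simpa using hw) (by simpa using hz.2)
    have uzw : ∀ t, z < t ↔ w < t := fun t =>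
      ⟨h.tangle.upp z (by simpa using hz.2) w (by simpa using hw) t,
        h.tangle.upp w (by simpa using hw) z (by simpa using hz.2) t⟩
    have hzw : (σ z : ℕ) < σ w := by omega
    refine ⟨?_, ⟨?_, ?_⟩, ?_, ?_, ?_⟩
    · rw [SH.mem_LE]
      intro x y hxy
      show (((Equiv.swap z w).trans σ x : Fin _) : ℕ) < (((Equiv.swap z w).trans σ y : Fin _) : ℕ)
      rw [sw_ap, sw_ap]
      by_cases hxz : x = z
      · subst hxz
        rw [if_pos rfl, if_neg hxy.ne', if_neg (by rintro rfl; exact nzw hxy)]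
        exact LE_lt hσ ((uzw y).1 hxy)
      · rw [if_neg hxz]
        by_cases hxw : x = w
        · subst hxw
          rw [if_pos rfl, if_neg (by rintro rfl; exact nwz hxy), if_neg hxy.ne']
          exact LE_lt hσ ((uzw y).2 hxy)
        · rw [if_neg hxw]
          by_cases hyz : y = z
          · subst hyz
            rw [if_pos rfl]
            have := LE_lt hσ hxy
            omega
          · rw [if_neg hyz]
            by_cases hyw : y = w
            · subst hyw
              rw [if_pos rfl]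
              by_cases hxM : x ∈ A ∪ B
              · exact h4 x hxM hxw hxz
              · by_contra hcon
                have h5 : ¬ x < z := fun h6 => hcon (LE_lt hσ h6)
                have := h.tangle.dn_mem y (by simpa using hw) z (by simpa using hz.2) x hxy h5
                exact hxM (Finset.mem_union_left _ (by simpa using this))
            · rw [if_neg hyw]
              exact LE_lt hσ hxy
    · intro v hv
      have e1 : v ≠ z := by rintro rfl; exact h.not_D ha₀ hzM hv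
      have e2 : v ≠ w := by rintro rfl; exact h.not_D ha₀ hwM hv
      rw [sw_ap, if_neg e1, if_neg e2]
      exact h1 v hv
    · intro v hv
      have e1 : v ≠ z := by rintro rfl; exact h.not_U hv hzM
      have e2 : v ≠ w := by rintro rfl; exact h.not_U hv hwM
      rw [sw_ap, if_neg e1, if_neg e2]
      exact h1' v hv
    · have e1 : ((A ∪ B).filter fun y => (((Equiv.swap z w).trans σ y : Fin _) : ℕ) < p) =
          (A ∪ B).erase z := by
        ext y
        rw [mem_filter, mem_erase, sw_ap]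
        constructor
        · rintro ⟨a1, a2⟩
          refine ⟨?_, a1⟩
          rintro rfl
          rw [if_pos rfl] at a2
          omega
        · rintro ⟨a1, a2⟩
          refine ⟨a2, ?_⟩
          rw [if_neg a1]
          by_cases hyw : y = w
          · rw [if_pos hyw]; exact hzp
          · rw [if_neg hyw]
            exact all_but hwM h2 h3 a2 hyw
      have e2 : cM (A ∪ B) p ((Equiv.swap z w).trans σ) = ((A ∪ B).erase z).card := by
        unfold cM
        rw [e1]
      rw [e2, Finset.card_erase_add_one hzM]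
    · rw [sw_ap, if_neg (fun he => hz.1 he.symm), if_pos rfl]
      exact hzp
    · rw [sw_ap, if_pos rfl]
      exact h3
  · rintro z _ σ _ ⟨h1, h2, h3, -⟩
    exact ⟨h1, h2, h3⟩
  · rintro z hz z' hz' σ _ ⟨h1, h2, h3, h4⟩ ⟨_, _, _, h4'⟩
    rw [mem_erase] at hz hz'
    by_contra hne
    have := all_but (Finset.mem_union_right _ hz.2) h2 h4 (Finset.mem_union_right _ hz'.2)
      (fun he => hne he.symm)
    omega

/-- the linear extensions where `b` is preceded by `j` elements of the tangle -/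
def Tj (A B : Finset α) (a₀ b w : α) (p j : ℕ) (σ : α ≃ Fin (Fintype.card α)) : Prop :=
  Val {v | v < a₀} (Uu A) p σ ∧ cM (A ∪ B) p σ + 1 = (A ∪ B).card ∧ p ≤ (σ w : ℕ) ∧
    cM (A ∪ B) (σ b : ℕ) σ = j

/-- exchange of `b` with the last element of the tangle before `b` -/
lemma swap_b (h : Big α A B) {a₀ b w : α} (ha₀ : a₀ ∈ A) (hb : b ∈ A) (hw : w ∈ B) (p j : ℕ) :
    nn (Tj A B a₀ b w p (j + 1)) ≤ nn (Tj A B a₀ b w p j) := by
  have hwM : w ∈ A ∪ B := Finset.mem_union_right _ hw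
  have hbM : b ∈ A ∪ B := Finset.mem_union_left _ hb
  have hbw : b ≠ w := by
    rintro rfl
    exact Finset.disjoint_left.1 h.disj hb hw
  refine nn_transfer (s := ((A ∪ B).erase w).erase b)
    (fun y σ => Tj A B a₀ b w p (j + 1) σ ∧ (σ y : ℕ) < σ b ∧
      ∀ z ∈ A ∪ B, (σ z : ℕ) < σ b → (σ z : ℕ) ≤ σ y)
    (fun y σ => Tj A B a₀ b w p j σ ∧ (σ b : ℕ) < σ y ∧
      ∀ z ∈ A ∪ B, (σ b : ℕ) < σ z → (σ y : ℕ) ≤ σ z) ?_ ?_ ?_ ?_
  · intro σ hσ hT
    have hT' := hT
    obtain ⟨h1, h2, h3, h4⟩ := hT'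
    have hne : ((A ∪ B).filter fun z => (σ z : ℕ) < σ b).Nonempty := by
      rw [← Finset.card_pos]
      unfold cM at h4
      omega
    obtain ⟨y, hy, hmax⟩ := Finset.exists_max_image _ (fun z => (σ z : ℕ)) hne
    rw [mem_filter] at hy
    have hbp : (σ b : ℕ) < p := all_but hwM h2 h3 hbM hbw
    refine ⟨y, ?_, hT, hy.2, fun z hz hlt => hmax z (mem_filter.2 ⟨hz, hlt⟩)⟩
    rw [mem_erase, mem_erase]
    refine ⟨?_, ?_, hy.1⟩
    · rintro rfl; omega
    · rintro rfl; omega
  · intro y hy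
    rw [mem_erase, mem_erase] at hy
    obtain ⟨hyb, hyw, hyM⟩ := hy
    refine nn_swap y b ?_
    rintro σ hσ ⟨⟨⟨h1, h1'⟩, h2, h3, h4⟩, h5, h6⟩
    have hbp : (σ b : ℕ) < p := all_but hwM h2 h3 hbM hbw
    have hyp : (σ y : ℕ) < p := by omega
    have nyb : ¬ y < b := by
      intro hlt
      rcases Finset.mem_union.1 hyM with h7 | h7
      · exact h.tangle.antiL (by simpa using h7) (by simpa using hb) hlt
      · obtain ⟨x, hx, hxy⟩ := h.tangle.dn_some y (by simpa using h7)
        exact h.tangle.antiL hx (by simpa using hb) (hxy.trans hlt)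
    have nby : ¬ b < y := fun hlt => by
      have := LE_lt hσ hlt
      omega
    refine ⟨?_, ⟨⟨?_, ?_⟩, ?_, ?_, ?_⟩, ?_, ?_⟩
    · rw [SH.mem_LE]
      intro x x' hxx
      show (((Equiv.swap y b).trans σ x : Fin _) : ℕ) < (((Equiv.swap y b).trans σ x' : Fin _) : ℕ)
      rw [sw_ap, sw_ap]
      by_cases hxy : x = y
      · subst hxy
        rw [if_pos rfl, if_neg hxx.ne', if_neg (by rintro rfl; exact nyb hxx)]
        have h7 := LE_lt hσ hxx
        by_cases hx'M : x' ∈ A ∪ B
        · by_contra hcon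
          have hne : (σ x' : ℕ) ≠ σ b := fun he => nyb (by rw [← val_inj he]; exact hxx)
          have := h6 x' hx'M (by omega)
          omega
        · have := h1' x' (h.h2 x hyM x' hx'M hxx)
          omega
      · rw [if_neg hxy]
        by_cases hxb : x = b
        · subst hxb
          rw [if_pos rfl, if_neg (by rintro rfl; exact nby hxx), if_neg hxx.ne']
          have := LE_lt hσ hxx
          omega
        · rw [if_neg hxb]
          by_cases hx'y : x' = y
          · subst hx'y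
            rw [if_pos rfl]
            have := LE_lt hσ hxx
            omega
          · rw [if_neg hx'y]
            by_cases hx'b : x' = b
            · subst hx'b
              rw [if_pos rfl]
              exact LE_lt hσ (h.h1 hb y hyM x hxx)
            · rw [if_neg hx'b]
              exact LE_lt hσ hxx
    · intro v hv
      have e1 : v ≠ y := by rintro rfl; exact h.not_D ha₀ hyM hv
      have e2 : v ≠ b := by rintro rfl; exact h.not_D ha₀ hbM hv
      rw [sw_ap, if_neg e1, if_neg e2]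
      exact h1 v hv
    · intro v hv
      have e1 : v ≠ y := by rintro rfl; exact h.not_U hv hyM
      have e2 : v ≠ b := by rintro rfl; exact h.not_U hv hbM
      rw [sw_ap, if_neg e1, if_neg e2]
      exact h1' v hv
    · rw [← h2]
      unfold cM
      congr 2
      ext z
      rw [mem_filter, mem_filter, sw_ap]
      refine and_congr_right fun _ => ?_
      split_ifs with k1 k2
      · subst k1; omega
      · subst k2; omega
      · rfl
    · rw [sw_ap, if_neg (fun he => hyw he.symm), if_neg (fun he => hbw he.symm)]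
      exact h3
    · have e0 : (((Equiv.swap y b).trans σ b : Fin _) : ℕ) = σ y := by
        rw [sw_ap, if_neg (fun he => hyb he.symm), if_pos rfl]
      rw [e0]
      have e1 : ((A ∪ B).filter fun z => (((Equiv.swap y b).trans σ z : Fin _) : ℕ) < σ y) =
          ((A ∪ B).filter fun z => (σ z : ℕ) < σ b).erase y := by
        ext z
        rw [mem_filter, mem_erase, mem_filter, sw_ap]
        constructor
        · rintro ⟨a1, a2⟩
          have hzy : z ≠ y := by
            rintro rfl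
            rw [if_pos rfl] at a2
            omega
          rw [if_neg hzy] at a2
          have hzb : z ≠ b := by
            rintro rfl
            rw [if_pos rfl] at a2
            omega
          rw [if_neg hzb] at a2
          exact ⟨hzy, a1, by omega⟩
        · rintro ⟨a0, a1, a2⟩
          refine ⟨a1, ?_⟩
          rw [if_neg a0, if_neg (by rintro rfl; omega)]
          have := h6 z a1 a2
          have h7 : (σ z : ℕ) ≠ σ y := fun he => a0 (val_inj he)
          omega
      unfold cM at h4 ⊢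
      rw [e1, Finset.card_erase_of_mem (mem_filter.2 ⟨hyM, h5⟩), h4]
      rfl
    · rw [sw_ap, sw_ap, if_neg (fun he => hyb he.symm), if_pos rfl, if_pos rfl]
      exact h5
    · intro z hz
      rw [sw_ap y b σ b, sw_ap y b σ y, if_neg (fun he => hyb he.symm), if_pos rfl, if_pos rfl,
        sw_ap]
      split_ifs with k1 k2
      · intro _; exact le_rfl
      · intro hlt; omega
      · intro hlt
        by_contra hcon
        have := h6 z hz (by omega)
        omega
  · rintro y _ σ _ ⟨h1, -⟩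
    exact h1
  · rintro y hy y' hy' σ _ ⟨_, h5, h6⟩ ⟨_, h5', h6'⟩
    rw [mem_erase, mem_erase] at hy hy'
    have a1 := h6 y' hy'.2.2 h5'
    have a2 := h6' y hy.2.2 h5
    exact val_inj (σ := σ) (by omega)

/-- the number of cuts with `w` as the only element of the tangle after the cut, for one position -/
lemma one_pos (h : Big α A B) {a₀ b w : α} (ha₀ : a₀ ∈ A) (hb : b ∈ A) (hw : w ∈ B)
    (hM : (A ∪ B).card = 12) (hdeg : ∀ x ∈ A, x ≠ b → ∃ z ∈ B, z ≠ w ∧ x < z) (p : ℕ) :
    21 * nn (fun σ => Val {v | v < a₀} (Uu A) p σ ∧ cM (A ∪ B) p σ = 11 ∧ p ≤ (σ w : ℕ)) ≤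
      11 * nn (fun σ => Val {v | v < a₀} (Uu A) p σ ∧ cM (A ∪ B) p σ = 11) := by
  have hwM : w ∈ A ∪ B := Finset.mem_union_right _ hw
  have hbM : b ∈ A ∪ B := Finset.mem_union_left _ hb
  have hbw : b ≠ w := by
    rintro rfl
    exact Finset.disjoint_left.1 h.disj hb hw
  have h11 : ∀ σ : α ≃ Fin (Fintype.card α), cM (A ∪ B) p σ = 11 ↔
      cM (A ∪ B) p σ + 1 = (A ∪ B).card := by
    intro σ
    rw [hM]
    omega
  set T := nn (fun σ => Val {v | v < a₀} (Uu A) p σ ∧ cM (A ∪ B) p σ = 11 ∧ p ≤ (σ w : ℕ)) with hT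
  set T1 := nn (fun σ => Val {v | v < a₀} (Uu A) p σ ∧ cM (A ∪ B) p σ + 1 = (A ∪ B).card ∧
    p ≤ (σ w : ℕ) ∧ ∃ z ∈ A ∪ B, z ≠ b ∧ z ≠ w ∧ (σ b : ℕ) < σ z) with hT1
  set V := nn (fun σ => Val {v | v < a₀} (Uu A) p σ ∧ cM (A ∪ B) p σ + 1 = (A ∪ B).card ∧
      (σ w : ℕ) < p) with hV
  have s1 : T1 ≤ V := swap_w h ha₀ hw hdeg p
  have s2 : ∀ j ≤ 10, nn (Tj A B a₀ b w p 10) ≤ nn (Tj A B a₀ b w p j) := by
    have key : ∀ k j : ℕ, nn (Tj A B a₀ b w p (j + k)) ≤ nn (Tj A B a₀ b w p j) := by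
      intro k
      induction k with
      | zero => intro j; exact le_rfl
      | succ k ih =>
        intro j
        exact (swap_b h ha₀ hb hw p (j + k)).trans (ih j)
    intro j hj
    have := key (10 - j) j
    rwa [show j + (10 - j) = 10 by omega] at this
  -- the elements of the tangle before `b`
  have e3 : ∀ σ : α ≃ Fin (Fintype.card α), σ ∈ Y491.BF.LE α → ∀ j, Tj A B a₀ b w p j σ → j < 10 →
      ∃ z ∈ A ∪ B, z ≠ b ∧ z ≠ w ∧ (σ b : ℕ) < σ z := by
    rintro σ hσ j ⟨h1, h2, h3, h4⟩ hj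
    by_contra hcon
    push Not at hcon
    have h5 : ((A ∪ B).erase w).erase b ⊆ (A ∪ B).filter fun z => (σ z : ℕ) < σ b := by
      intro z hz
      rw [mem_erase, mem_erase] at hz
      rw [mem_filter]
      have h6 := hcon z hz.2.2 hz.1 hz.2.1
      have h7 : (σ z : ℕ) ≠ σ b := fun he => hz.1 (val_inj he)
      exact ⟨hz.2.2, by omega⟩
    have h6 := Finset.card_le_card h5
    rw [Finset.card_erase_of_mem (mem_erase.2 ⟨hbw, hbM⟩), Finset.card_erase_of_mem hwM, hM] at h6
    unfold cM at h4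
    omega
  have s3 : ∑ j ∈ range 10, nn (Tj A B a₀ b w p j) ≤ T1 := by
    refine sum_nn_le ?_ ?_
    · intro j hj σ hσ hTj
      rw [mem_range] at hj
      exact ⟨hTj.1, hTj.2.1, hTj.2.2.1, e3 σ hσ j hTj hj⟩
    · intro i _ j _ σ _ h1 h2
      exact h1.2.2.2.symm.trans h2.2.2.2
  have s4 : T ≤ T1 + nn (Tj A B a₀ b w p 10) := by
    refine nn_or' ?_
    rintro σ hσ ⟨h1, h2, h3⟩
    have h2' := (h11 σ).1 h2
    by_cases hlt : cM (A ∪ B) (σ b : ℕ) σ < 10
    · exact Or.inl ⟨h1, h2', h3, e3 σ hσ _ ⟨h1, h2', h3, rfl⟩ hlt⟩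
    · right
      refine ⟨h1, h2', h3, ?_⟩
      have hbp : (σ b : ℕ) < p := all_but hwM h2' h3 hbM hbw
      have h5 : ((A ∪ B).filter fun z => (σ z : ℕ) < σ b) ⊆ ((A ∪ B).erase w).erase b := by
        intro z hz
        rw [mem_filter] at hz
        rw [mem_erase, mem_erase]
        refine ⟨?_, ?_, hz.1⟩
        · rintro rfl; omega
        · rintro rfl; omega
      have h6 := Finset.card_le_card h5
      rw [Finset.card_erase_of_mem (mem_erase.2 ⟨hbw, hbM⟩), Finset.card_erase_of_mem hwM, hM] at h6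
      unfold cM at hlt ⊢
      omega
  have s5 : T + V ≤ nn (fun σ => Val {v | v < a₀} (Uu A) p σ ∧ cM (A ∪ B) p σ = 11) := by
    rw [hT, hV]
    unfold nn
    rw [← Finset.card_union_of_disjoint]
    · refine Finset.card_le_card fun σ hσ => ?_
      rcases Finset.mem_union.1 hσ with h1 | h1
      · have h2 := memf.mp h1
        exact memf.mpr ⟨h2.1, h2.2.1, h2.2.2.1⟩
      · have h2 := memf.mp h1
        exact memf.mpr ⟨h2.1, h2.2.1, (h11 σ).2 h2.2.2.1⟩
    · rw [Finset.disjoint_left]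
      intro σ h1 h2
      have h3 := (memf.mp h1).2.2.2
      have h4 := (memf.mp h2).2.2.2
      omega
  have s6 : 10 * nn (Tj A B a₀ b w p 10) ≤ T1 := by
    refine le_trans ?_ s3
    calc 10 * nn (Tj A B a₀ b w p 10) = ∑ _j ∈ range 10, nn (Tj A B a₀ b w p 10) := by simp
      _ ≤ _ := Finset.sum_le_sum fun j hj => s2 j (by rw [mem_range] at hj; omega)
  omega

/-- the cuts of an element with one upper element in a tangle with twelve elements -/
theorem cuts_special (h : Big α A B) {b w : α} (hb : b ∈ A) (hw : w ∈ B) (hbw : b < w)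
    (hM : (A ∪ B).card = 12) (hdeg : ∀ x ∈ A, x ≠ b → ∃ z ∈ B, z ≠ w ∧ x < z) :
    21 * (Cc fun p σ => Val {v | v < b} {u | b < u} p σ) ≤
      242 * CC {v | v < b} (Uu A) (A ∪ B) 0 := by
  have hwM : w ∈ A ∪ B := Finset.mem_union_right _ hw
  have s1 : (Cc fun p σ => Val {v | v < b} {u | b < u} p σ) ≤
      (∑ i ∈ range 11, CC {v | v < b} (Uu A) (A ∪ B) i) +
      Cc fun p σ => Val {v | v < b} (Uu A) p σ ∧ cM (A ∪ B) p σ = 11 ∧ p ≤ (σ w : ℕ) := by
    unfold CC Cc
    rw [Finset.sum_comm, ← Finset.sum_add_distrib]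
    refine Finset.sum_le_sum fun p _ => ?_
    refine (nn_or' (p := fun σ => Val {v | v < b} (Uu A) p σ ∧ cM (A ∪ B) p σ < 11)
      (q := fun σ => Val {v | v < b} (Uu A) p σ ∧ cM (A ∪ B) p σ = 11 ∧ p ≤ (σ w : ℕ)) ?_).trans
      (Nat.add_le_add_right (nn_le_sum ?_) _)
    · rintro σ hσ ⟨h1, h2⟩
      have hv : Val {v | v < b} (Uu A) p σ := ⟨h1, fun u hu => h2 u (hu b hb)⟩
      have hwp : p ≤ (σ w : ℕ) := h2 w hbw
      by_cases hlt : cM (A ∪ B) p σ < 11
      · exact Or.inl ⟨hv, hlt⟩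
      · right
        refine ⟨hv, ?_, hwp⟩
        have h5 : ((A ∪ B).filter fun z => (σ z : ℕ) < p) ⊆ (A ∪ B).erase w := by
          intro z hz
          rw [mem_filter] at hz
          rw [mem_erase]
          refine ⟨?_, hz.1⟩
          rintro rfl; omega
        have h6 := Finset.card_le_card h5
        rw [Finset.card_erase_of_mem hwM, hM] at h6
        unfold cM at hlt ⊢
        omega
    · rintro σ _ ⟨h1, h2⟩
      exact ⟨_, mem_range.2 h2, h1, rfl⟩
  have s2 : 21 * (Cc fun p σ => Val {v | v < b} (Uu A) p σ ∧ cM (A ∪ B) p σ = 11 ∧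
      p ≤ (σ w : ℕ)) ≤ 11 * CC {v | v < b} (Uu A) (A ∪ B) 11 := by
    unfold CC Cc
    rw [Finset.mul_sum, Finset.mul_sum]
    exact Finset.sum_le_sum fun p _ => one_pos h hb hb hw hM hdeg p
  have s3 := CC_le (D := {v | v < b}) (U := Uu A) (M := A ∪ B) (h.h1 hb) h.h2 11
  have s4 : ∑ i ∈ range 11, CC {v | v < b} (Uu A) (A ∪ B) i ≤
      11 * CC {v | v < b} (Uu A) (A ∪ B) 0 := by
    calc _ ≤ ∑ _i ∈ range 11, CC {v | v < b} (Uu A) (A ∪ B) 0 :=
          Finset.sum_le_sum fun i _ => CC_le (h.h1 hb) h.h2 i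
      _ = _ := by simp
  omega

end

end Pool.Agent.U276.TP
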