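import Mathlib
import Pool.Agent.U276.TP.Special

/-!
# Tangles with six elements on both sides: the contradiction
-/

set_option autoImplicit false
set_option linter.unusedSectionVars false

open Finset
open scoped Classical

namespace Pool.Agent.U276.TP

open Pool.Agent.Y491.BF Pool.Agent.U396.H2

section

variable {α : Type} [Fintype α] [PartialOrder α]

/-- the upper bound -/
theorem upp_gen {D : Set α} {U : Set α} {A M : Finset α} (hAM : A ⊆ M)
    (hDne : D.Nonempty) (hD : ∀ a ∈ A, ∀ w, w < a ↔ w ∈ D) (b : α) (r s : ℕ)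
    (hr : r * (Cc fun p σ => Val {w | w < b} {u | b < u} p σ) ≤ s * CC D U M 0) :
    (r : ℝ) * ((2 * hh b + 2) * ∑ a ∈ A, ff a) ≤ s := by
  have hN := Npos (α := α)
  have c1 := hh_le b
  have c3 := CC_zero_le (D := D) (U := U) hAM
  obtain ⟨D', hD'⟩ : ∃ D' : Finset α, (D' : Set α) = D := ⟨univ.filter (· ∈ D), by ext; simp⟩
  have hmem : ∀ w, w ∈ D' ↔ w ∈ D := fun w => by rw [← hD']; simp
  have c4 := corr (D := D') (A := A) (by
    obtain ⟨w, hw⟩ := hDne
    exact ⟨w, (hmem w).2 hw⟩) (fun a ha w => (hD a ha w).trans (hmem w).symm)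
  rw [hD'] at c4
  set C := Cc fun p σ => Val D (A : Set α) p σ
  set N := (Y491.BF.LE α).card
  set T := ∑ a ∈ A, nn (fun σ => dn a σ = 0)
  have e1 : ∑ a ∈ A, ff a = (T : ℝ) / N := by
    show _ = ((∑ a ∈ A, nn (fun σ => dn a σ = 0) : ℕ) : ℝ) / N
    unfold ff pp
    rw [← Finset.sum_div, Nat.cast_sum]
  have c5 : (r : ℝ) * ((2 * hh b + 2) * (N : ℝ)) ≤ (s : ℝ) * C := by
    have h1 : (r : ℝ) * ((2 * hh b + 2) * (N : ℝ)) ≤
        (r : ℝ) * (Cc fun p σ => Val {w | w < b} {u | b < u} p σ : ℕ) :=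
      mul_le_mul_of_nonneg_left c1 (by positivity)
    have h2 : r * (Cc fun p σ => Val {w | w < b} {u | b < u} p σ) ≤ s * C :=
      hr.trans (Nat.mul_le_mul le_rfl c3)
    exact h1.trans (by exact_mod_cast h2)
  have c6 : (T : ℝ) * C ≤ (N : ℝ) ^ 2 := by exact_mod_cast c4
  rw [e1]
  have hN' : (0 : ℝ) < N := hN
  have c7 : (r : ℝ) * ((2 * hh b + 2) * (T / N)) * (N : ℝ) ^ 2 ≤ s * (N : ℝ) ^ 2 := by
    calc (r : ℝ) * ((2 * hh b + 2) * (T / N)) * (N : ℝ) ^ 2 =
        ((r : ℝ) * ((2 * hh b + 2) * N)) * T := by field_simp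
      _ ≤ (s * C) * T := mul_le_mul_of_nonneg_right c5 (by positivity)
      _ = s * (T * C) := by ring
      _ ≤ s * (N : ℝ) ^ 2 := mul_le_mul_of_nonneg_left c6 (by positivity)
  exact le_of_mul_le_mul_right c7 (by positivity)

/-- the lower bound for six elements -/
theorem low_six (A : Finset α) (hA : ∀ a ∈ A, ∀ a' ∈ A, ∀ w, w < a ↔ w < a')
    (hN : 10000 ≤ Fintype.card α) (h6 : A.card = 6)
    (hb : ∀ x ∈ A, ∀ y ∈ A, x ≠ y → pp (fun σ => gap x y σ < 0) ≤ 4001 / 12000 ∨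
      pp (fun σ => gap y x σ < 0) ≤ 4001 / 12000) (b : α) (hbA : b ∈ A)
    (hmax : ∀ a ∈ A, hh a ≤ hh b) :
    (33956 / 10000 : ℝ) ^ 2 < (2 * hh b + 2) * ∑ a ∈ A, ff a := by
  obtain ⟨a₀, h0, hle⟩ := chain' A hA hN hb 5 A (Finset.Subset.refl _) h6 b hbA hmax
  have hh0 := hh_ge a₀
  have hc5 : (A.erase a₀).card = 5 := by rw [Finset.card_erase_of_mem h0, h6]
  have hpos : 0 < ∑ a ∈ A.erase a₀, (11095 / 100000 / ff a + 333 / 1000) := by
    refine Finset.sum_pos (fun a _ => ?_) (Finset.card_pos.1 (by omega))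
    have := ff_pos a
    positivity
  have hb0 : b ≠ a₀ := by
    rintro rfl
    linarith
  obtain ⟨a₁, h1, hle1⟩ := chain' A hA hN hb 4 (A.erase a₀) (Finset.erase_subset _ _) hc5 b
    (Finset.mem_erase.2 ⟨hb0, hbA⟩) (fun a ha => hmax a (Finset.mem_of_mem_erase ha))
  have hh1 := hh_ge a₁
  have h10 : a₁ ≠ a₀ := Finset.ne_of_mem_erase h1
  have hF : 0 < ∑ a ∈ A, ff a := Finset.sum_pos (fun a _ => ff_pos a) ⟨b, hbA⟩
  let u : α → ℝ := fun a => if a = a₀ then 8485 / 10000 else if a = a₁ then 6631 / 10000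
    else 471 / 1000
  have hcs := Finset.sq_sum_div_le_sum_sq_div A u (g := ff) (fun a _ => ff_pos a)
  set S := (A.erase a₀).erase a₁ with hS
  have hSc : S.card = 4 := by rw [hS, Finset.card_erase_of_mem h1, hc5]
  have hu : ∀ a ∈ S, u a = 471 / 1000 := by
    intro a ha
    have e1 := Finset.ne_of_mem_erase ha
    have e2 := Finset.ne_of_mem_erase (Finset.mem_of_mem_erase ha)
    simp [u, e1, e2]
  have hu0 : u a₀ = 8485 / 10000 := by simp [u]
  have hu1 : u a₁ = 6631 / 10000 := by simp [u, h10]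
  have split : ∀ f : α → ℝ, ∑ a ∈ A, f a = f a₀ + (f a₁ + ∑ a ∈ S, f a) := by
    intro f
    rw [← Finset.add_sum_erase _ _ h0, ← Finset.add_sum_erase _ _ h1]
  have split1 : ∀ f : α → ℝ, ∑ a ∈ A.erase a₀, f a = f a₁ + ∑ a ∈ S, f a := by
    intro f
    rw [← Finset.add_sum_erase _ _ h1]
  have e1 : ∑ a ∈ A, u a = 33956 / 10000 := by
    rw [split, hu0, hu1, Finset.sum_congr rfl hu, Finset.sum_const, hSc]
    norm_num
  have e2 : ∑ a ∈ A, u a ^ 2 / ff a ≤
      (72 / 100) / ff a₀ + ((28 / 100) / ff a₁ + (72 / 100) * (2 * (11095 / 100000 / ff a₁)) +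
        ∑ a ∈ S, 2 * (11095 / 100000 / ff a)) := by
    rw [split, hu0, hu1]
    have f0 := ff_pos a₀
    have f1 := ff_pos a₁
    have k0 : (8485 / 10000 : ℝ) ^ 2 / ff a₀ ≤ (72 / 100) / ff a₀ :=
      div_le_div_of_nonneg_right (by norm_num) f0.le
    have k1 : (6631 / 10000 : ℝ) ^ 2 / ff a₁ ≤
        (28 / 100) / ff a₁ + (72 / 100) * (2 * (11095 / 100000 / ff a₁)) := by
      have : (28 / 100) / ff a₁ + (72 / 100) * (2 * (11095 / 100000 / ff a₁)) =
          (28 / 100 + 72 / 100 * 2 * (11095 / 100000)) / ff a₁ := by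
        field_simp
      rw [this]
      exact div_le_div_of_nonneg_right (by norm_num) f1.le
    have k2 : ∑ a ∈ S, u a ^ 2 / ff a ≤ ∑ a ∈ S, 2 * (11095 / 100000 / ff a) := by
      refine Finset.sum_le_sum fun a ha => ?_
      have h4 := ff_pos a
      rw [hu a ha, ← mul_div_assoc]
      exact div_le_div_of_nonneg_right (by norm_num) h4.le
    linarith
  rw [split1] at hle
  rw [Finset.sum_add_distrib] at hle hle1
  rw [← Finset.mul_sum] at e2
  have h7 : 0 ≤ ∑ _a ∈ S, (333 / 1000 : ℝ) := Finset.sum_nonneg fun _ _ => by norm_num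
  have e3 : (28 / 100 : ℝ) / ff a₁ = 28 / 100 * (1 / ff a₁) := by ring
  have e4 : (72 / 100 : ℝ) / ff a₀ = 72 / 100 * (1 / ff a₀) := by ring
  have h8 : (∑ a ∈ A, u a) ^ 2 / ∑ a ∈ A, ff a < 2 * hh b + 2 := by
    rw [e3, e4] at e2
    linarith
  rw [e1, div_lt_iff₀ hF] at h8
  exact h8

/-- six elements on both sides -/
theorem Big.false6 {A B : Finset α} (h : Big α A B) (h6 : A.card = 6) (hB : B.card ≤ 6)
    {b : α} (hb : b ∈ A) (hmax : ∀ a ∈ A, hh a ≤ hh b)
    (htwo : ∀ x ∈ A, x ≠ b → Two b x ∨ Two x b) : False := by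
  by_cases h2 : 2 ≤ (B.filter fun z => b < z).card
  · exact h.false (by omega) (by omega) hb hmax (fun _ => h2)
  obtain ⟨w, hw, hbw⟩ := h.tangle.up_some b (by simpa using hb)
  have hw' : w ∈ B := by simpa using hw
  have h1 : (B.filter fun z => b < z).card = 1 := by
    have : 0 < (B.filter fun z => b < z).card :=
      Finset.card_pos.2 ⟨w, Finset.mem_filter.2 ⟨hw', hbw⟩⟩
    omega
  have honly : ∀ z ∈ B, b < z → z = w := by
    intro z hz hbz
    obtain ⟨v, hv⟩ := Finset.card_eq_one.1 h1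
    have k1 : z ∈ B.filter fun z => b < z := Finset.mem_filter.2 ⟨hz, hbz⟩
    have k2 : w ∈ B.filter fun z => b < z := Finset.mem_filter.2 ⟨hw', hbw⟩
    rw [hv, Finset.mem_singleton] at k1 k2
    rw [k1, k2]
  have hdeg : ∀ x ∈ A, x ≠ b → ∃ z ∈ B, z ≠ w ∧ x < z := by
    intro x hx hxb
    rcases htwo x hx hxb with ⟨v, v', hne, a1, a2, a3, a4⟩ | ⟨v, v', hne, a1, a2, a3, a4⟩
    · exfalso
      have m1 : v ∈ B := by
        simpa using h.tangle.up_mem b (by simpa using hb) x (by simpa using hx) v a1 a2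
      have m2 : v' ∈ B := by
        simpa using h.tangle.up_mem b (by simpa using hb) x (by simpa using hx) v' a3 a4
      exact hne ((honly v m1 a1).trans (honly v' m2 a3).symm)
    · have m1 : v ∈ B := by
        simpa using h.tangle.up_mem x (by simpa using hx) b (by simpa using hb) v a1 a2
      exact ⟨v, m1, fun he => a2 (by rw [he]; exact hbw), a1⟩
  by_cases hB6 : B.card = 6
  · have hM : (A ∪ B).card = 12 := by
      rw [Finset.card_union_of_disjoint h.disj, h6, hB6]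
    have hc := cuts_special h hb hw' hbw hM hdeg
    have u := upp_gen (D := {w | w < b}) (U := Uu A) (A := A) (M := A ∪ B)
      Finset.subset_union_left (h.below b hb) (fun a ha w => h.same a ha b hb w) b 21 242 hc
    have l := low_six A h.same h.large h6 h.unb b hb hmax
    push_cast at u
    norm_num at l u
    linarith
  · have h3 := h.bounds hb hmax
    have h4 : A.card + B.card + 1 - (B.filter fun z => b < z).card ≤ 11 := by omega
    have h5 : ((A.card + B.card + 1 - (B.filter fun z => b < z).card : ℕ) : ℝ) ≤ 11 := by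
      exact_mod_cast h4
    have h10 : (A.card : ℝ) = 6 := by exact_mod_cast h6
    have h11 := lt_of_lt_of_le h3 h5
    rw [h10] at h11
    norm_num at h11

end

open Pool.Agent.H13R3.WB

lemma Two.map {P Q : Type} [PartialOrder P] [PartialOrder Q] {ι : P ↪ Q}
    (hlt : ∀ a b, ι a < ι b ↔ a < b) {x y : P} (h : Two x y) : Two (ι x) (ι y) := by
  obtain ⟨w, w', hne, a1, a2, a3, a4⟩ := h
  exact ⟨ι w, ι w', fun he => hne (ι.injective he), (hlt _ _).2 a1, fun k => a2 ((hlt _ _).1 k),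
    (hlt _ _).2 a3, fun k => a4 ((hlt _ _).1 k)⟩

/-- **Large tangles.** -/
theorem tangle_gap (P : Type) [Fintype P] [PartialOrder P] (A B : Finset P)
    (hT : Tangle P (A : Set P) (B : Set P)) (h6 : 6 ≤ A.card) (hBA : B.card ≤ A.card)
    (htwo : ∀ x ∈ A, ∀ y ∈ A, x ≠ y → Two x y ∨ Two y x) : 1 / 3 + 1 / 12000 ≤ balance P := by
  by_contra hcon
  push Not at hcon
  obtain ⟨Q, iF, iP, ι, hlt, hbig⟩ := exists_big P A B hT hcon
  have hne : (A.map ι).Nonempty := by
    rw [Finset.map_nonempty]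
    exact Finset.card_pos.1 (by omega)
  obtain ⟨b, hb, hmax⟩ := Finset.exists_max_image (A.map ι) hh hne
  rcases h6.eq_or_lt with h8 | h8
  · refine hbig.false6 (by rw [Finset.card_map]; exact h8.symm) (by rw [Finset.card_map]; omega) hb
      hmax ?_
    intro x hx hxb
    rw [Finset.mem_map] at hx hb
    obtain ⟨p, hp, rfl⟩ := hx
    obtain ⟨q, hq, rfl⟩ := hb
    have hpq : q ≠ p := by rintro rfl; exact hxb rfl
    exact (htwo q hq p hp hpq).imp (Two.map hlt) (Two.map hlt)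
  · refine hbig.false (by rw [Finset.card_map]; omega) (by rw [Finset.card_map, Finset.card_map]; exact hBA)
      hb hmax ?_
    intro h
    rw [Finset.card_map] at h
    omega

end Pool.Agent.U276.TP
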