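import Mathlib
import Pool.Agent.U276.TP.Six2

/-!
# The gap above one third for all `(3+1)`-free posets
-/

set_option autoImplicit false
set_option linter.unusedSectionVars false

open Finset
open scoped Classical

namespace Pool.Agent.U276.TP

open Pool.Agent.H13R3.WB Pool.Agent.H931R3.Bal Pool.Agent.R636.BG Pool.Agent.N175.SO

section

variable {P : Type} [Fintype P] [PartialOrder P]

lemma semi_of_not_cross (hP : Free31 P) (h : ∀ x y : P, ¬ Cross x y) : Semi P := by
  refine ⟨fun a b c d hab hcd => ?_, hP⟩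
  by_contra hcon
  push Not at hcon
  exact h a c ⟨b, d, hab, hcon.2, hcd, hcon.1⟩

/-- a tangle gives a balanced pair -/
theorem Tangle.gap {ε : ℝ} (good : Good ε) (hε : ε ≤ 1 / 12000) {L W : Set P} (hT : Tangle P L W) :
    1 / 3 + ε ≤ balance P := by
  by_cases hL : ∀ x ∈ L, ∀ y ∈ L, x ≠ y → Two x y ∨ Two y x
  · by_cases hW : ∀ x ∈ W, ∀ y ∈ W, x ≠ y → TwoD x y ∨ TwoD y x
    · set A : Finset P := univ.filter (· ∈ L) with hA
      set B : Finset P := univ.filter (· ∈ W) with hB
      have eA : (A : Set P) = L := by ext; simp [hA]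
      have eB : (B : Set P) = W := by ext; simp [hB]
      have mA : ∀ x, x ∈ A ↔ x ∈ L := fun x => by simp [hA]
      have mB : ∀ x, x ∈ B ↔ x ∈ W := fun x => by simp [hB]
      have hT1 : Tangle P (A : Set P) (B : Set P) := by rw [eA, eB]; exact hT
      rcases le_total B.card A.card with hle | hle
      · have h6 := six hT A mA hL hW
        have := tangle_gap P A B hT1 h6 hle (fun x hx y hy => hL x ((mA x).1 hx) y ((mA y).1 hy))
        linarith
      · have : Nonempty P := ⟨hT.ne.some⟩
        rw [← balance_dual P]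
        let e : P ↪ Pᵒᵈ := ⟨OrderDual.toDual, OrderDual.toDual.injective⟩
        have cA : ((A.map e : Finset Pᵒᵈ) : Set Pᵒᵈ) = L := by
          rw [Finset.coe_map, eA]
          ext x
          constructor
          · rintro ⟨y, hy, rfl⟩; exact hy
          · intro hx; exact ⟨OrderDual.ofDual x, hx, rfl⟩
        have cB : ((B.map e : Finset Pᵒᵈ) : Set Pᵒᵈ) = W := by
          rw [Finset.coe_map, eB]
          ext x
          constructor
          · rintro ⟨y, hy, rfl⟩; exact hy
          · intro hx; exact ⟨OrderDual.ofDual x, hx, rfl⟩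
        have hT2 : Tangle Pᵒᵈ ((B.map e : Finset Pᵒᵈ) : Set Pᵒᵈ) ((A.map e : Finset Pᵒᵈ) : Set Pᵒᵈ) := by
          rw [cA, cB]; exact hT.dual
        have mB' : ∀ x : Pᵒᵈ, x ∈ B.map e ↔ x ∈ W := fun x => by
          rw [← Finset.mem_coe, cB]
          exact Iff.rfl
        have h6 := six (P := Pᵒᵈ) hT.dual (B.map e) mB' hW hL
        have := tangle_gap Pᵒᵈ (B.map e) (A.map e) hT2 h6 (by rw [card_map, card_map]; exact hle)
          (fun x hx y hy => hW x ((mB' x).1 hx) y ((mB' y).1 hy))
        linarith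
    · push Not at hW
      obtain ⟨x, hx, y, hy, hne, h1, h2⟩ := hW
      exact close' good hT hx hy hne h1 h2
  · push Not at hL
    obtain ⟨x, hx, y, hy, hne, h1, h2⟩ := hL
    exact close good hT hx hy hne h1 h2

/-- **The gap for `(3+1)`-free posets.** -/
theorem free31_gap {ε : ℝ} (good : Good ε) (hε : ε ≤ 1 / 12000) [Nonempty P] (hP : Free31 P) :
    InD P ∨ 1 / 3 + ε ≤ balance P := by
  by_cases h : ∀ x y : P, ¬ Cross x y
  · exact Semi.gap good (by linarith) P (semi_of_not_cross hP h)
  · push Not at h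
    obtain ⟨x, y, hxy⟩ := h
    exact Or.inr ((exists_tangle hP hxy).gap good hε)

end

end Pool.Agent.U276.TP
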