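import Mathlib
import Pool.Agent.U276.TP.Pad

/-!
# Large tangles: the balance constant is at least `2 / 5`
-/

set_option autoImplicit false
set_option linter.unusedSectionVars false

open Finset
open scoped Classical

namespace Pool.Agent.U276.TP

open Pool.Agent.Y491.BF Pool.Agent.U396.H2 Pool.Agent.H13R3.WB Pool.Agent.TH161.LW

section

variable {α : Type} [Fintype α] [PartialOrder α]

/-- the pair inequality -/
lemma pair5 {x y : α} (hne : x ≠ y) (h : ∀ w, w < x ↔ w < y)
    (hN : 10000 ≤ Fintype.card α) (hb : pp (fun σ => gap x y σ < 0) ≤ 2 / 5) :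
    hh x + (1995 / 100000 / ff y + 3 / 10) ≤ hh y := by
  have h1 : ¬ x ≤ y := fun h1 => lt_irrefl _ ((h x).2 (lt_of_le_of_ne h1 hne))
  have h2 : ¬ y ≤ x := fun h2 => lt_irrefl _ ((h y).1 (lt_of_le_of_ne h2 hne.symm))
  have hL := Npos (α := α)
  have hn : (10000 : ℝ) ≤ (Fintype.card α : ℝ) := by exact_mod_cast hN
  set b := pp (fun σ : α ≃ Fin (Fintype.card α) => gap x y σ < 0) with hbdef
  set R := pp (fun σ : α ≃ Fin (Fintype.card α) => gap x y σ = 1) with hRdef
  have hb0 : 0 ≤ b := pp_nonneg _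
  have hR0 : 0 ≤ R := pp_nonneg _
  have hg : pp (fun σ : α ≃ Fin (Fintype.card α) => 0 < gap x y σ) = 1 - b := pp_gap hne
  -- the reversed part
  have e1 : R * Ep y x ≤ b ^ 2 * (1 + 1 / 10000) := by
    have h3 := L1.t_L1 ASY.t_ASY α x y h1 h2
    have h4 : (nn (fun σ : α ≃ Fin (Fintype.card α) => gap x y σ = 1) : ℝ) =
        R * (Y491.BF.LE α).card := by
      rw [hRdef]; unfold pp; field_simp
    have h5 : (nn (fun σ : α ≃ Fin (Fintype.card α) => gap x y σ < 0) : ℝ) =
        b * (Y491.BF.LE α).card := by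
      rw [hbdef]; unfold pp; field_simp
    have h6 : Tp y x = Ep y x * (Y491.BF.LE α).card := by
      rw [Ep_eq]; field_simp
    rw [h4, h5, h6] at h3
    have h7 : R * Ep y x * (Fintype.card α : ℝ) ≤ b ^ 2 * (Fintype.card α + 1) := by
      have h8 : ((Y491.BF.LE α).card : ℝ) ^ 2 * (R * Ep y x * (Fintype.card α : ℝ)) ≤
          ((Y491.BF.LE α).card : ℝ) ^ 2 * (b ^ 2 * (Fintype.card α + 1)) := by
        nlinarith
      exact le_of_mul_le_mul_left h8 (by positivity)
    have h9 : b ^ 2 * (Fintype.card α + 1) ≤ b ^ 2 * (1 + 1 / 10000) * (Fintype.card α : ℝ) := by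
      have : (Fintype.card α : ℝ) + 1 ≤ (1 + 1 / 10000) * (Fintype.card α : ℝ) := by linarith
      calc b ^ 2 * (Fintype.card α + 1) ≤ b ^ 2 * ((1 + 1 / 10000) * (Fintype.card α : ℝ)) :=
            mul_le_mul_of_nonneg_left this (by positivity)
        _ = _ := by ring
    exact le_of_mul_le_mul_right (h7.trans h9) (by linarith)
  -- the other part
  have e2 : (1 - b) ^ 2 ≤ R * (2 * Ep x y - (1 - b)) := by
    have h3 := bath_gap x y (fun w hw => (h w).2 hw)
    have h4 : (nn (fun σ : α ≃ Fin (Fintype.card α) => gap x y σ = 1) : ℝ) =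
        R * (Y491.BF.LE α).card := by
      rw [hRdef]; unfold pp; field_simp
    have h5 : (nn (fun σ : α ≃ Fin (Fintype.card α) => 0 < gap x y σ) : ℝ) =
        (1 - b) * (Y491.BF.LE α).card := by
      rw [← hg]; unfold pp; field_simp
    have h6 : Tp x y = Ep x y * (Y491.BF.LE α).card := by
      rw [Ep_eq]; field_simp
    rw [h4, h5, h6] at h3
    have h8 : ((Y491.BF.LE α).card : ℝ) ^ 2 * ((1 - b) ^ 2) ≤
        ((Y491.BF.LE α).card : ℝ) ^ 2 * (R * (2 * Ep x y - (1 - b))) := by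
      nlinarith
    exact le_of_mul_le_mul_left h8 (by positivity)
  have e3 : R * (2 * (Ep x y - Ep y x) - (1 - b)) ≥ 2 * (1995 / 100000) := by
    have h3 : (1 - b) ^ 2 - 2 * (b ^ 2 * (1 + 1 / 10000)) ≥ 2 * (1995 / 100000) := by nlinarith
    nlinarith
  have hRpos : 0 < R := by
    rcases hR0.eq_or_lt with h3 | h3
    · rw [← h3] at e3
      norm_num at e3
    · exact h3
  have hRf : R ≤ ff y := by
    have h3 : nn (fun σ : α ≃ Fin (Fintype.card α) => gap x y σ = 1) =
        nn (fun σ => gap x y σ = -1) := adj_symm SH.t_SWAP h1 h2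
    rw [hRdef]
    unfold ff pp
    rw [h3]
    exact div_le_div_of_nonneg_right (by exact_mod_cast nn_adj_le x y) hL.le
  have hfy := ff_pos y
  have e4 : 2 * (1995 / 100000) / ff y ≤ 2 * (Ep x y - Ep y x) - (1 - b) := by
    have h3 : 2 * (1995 / 100000) / R ≤ 2 * (Ep x y - Ep y x) - (1 - b) := by
      rw [div_le_iff₀ hRpos]
      linarith
    refine le_trans ?_ h3
    exact div_le_div_of_nonneg_left (by norm_num) hRpos hRf
  have e5 := HH_hh h
  rw [HH_sub] at e5
  have e6 : 2 * (1995 / 100000) / ff y = 2 * (1995 / 100000 / ff y) := by ring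
  linarith

/-- adding up the pair inequalities -/
lemma chain5 (A : Finset α) (hA : ∀ a ∈ A, ∀ a' ∈ A, ∀ w, w < a ↔ w < a')
    (hN : 10000 ≤ Fintype.card α)
    (hb : ∀ x ∈ A, ∀ y ∈ A, x ≠ y → pp (fun σ => gap x y σ < 0) ≤ 2 / 5 ∨
      pp (fun σ => gap y x σ < 0) ≤ 2 / 5) (n : ℕ) :
    ∀ S : Finset α, S ⊆ A → S.card = n + 1 → ∀ b ∈ S, (∀ a ∈ S, hh a ≤ hh b) →
      ∃ a₀ ∈ S, hh a₀ + ∑ a ∈ S.erase a₀, (1995 / 100000 / ff a + 3 / 10) ≤ hh b := by
  induction n with
  | zero =>
    intro S _ hS b hbS _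
    obtain ⟨a, rfl⟩ := Finset.card_eq_one.mp hS
    rw [mem_singleton] at hbS
    subst hbS
    exact ⟨b, by simp, by simp⟩
  | succ n ih =>
    intro S hSA hS b hbS hmax
    have hne : (S.erase b).Nonempty := Finset.card_pos.mp (by
      rw [Finset.card_erase_of_mem hbS]; omega)
    obtain ⟨y, hy, hymax⟩ := Finset.exists_max_image (S.erase b) hh hne
    obtain ⟨a₀, h0, hle⟩ := ih (S.erase b) ((Finset.erase_subset _ _).trans hSA) (by
      rw [Finset.card_erase_of_mem hbS]; omega) y hy hymax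
    have hy' := Finset.mem_of_mem_erase hy
    have hyb : y ≠ b := Finset.ne_of_mem_erase hy
    have h0' := Finset.mem_of_mem_erase h0
    have h0b : a₀ ≠ b := Finset.ne_of_mem_erase h0
    refine ⟨a₀, h0', ?_⟩
    have hp : hh y + (1995 / 100000 / ff b + 3 / 10) ≤ hh b := by
      rcases hb y (hSA hy') b (hSA hbS) hyb with h | h
      · exact pair5 hyb (hA y (hSA hy') b (hSA hbS)) hN h
      · have h2 := pair5 hyb.symm (hA b (hSA hbS) y (hSA hy')) hN h
        have h3 := hmax y hy'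
        have h4 := ff_pos y
        have h5 : 0 < 1995 / 100000 / ff y := by positivity
        linarith
    have he : S.erase a₀ = insert b ((S.erase b).erase a₀) := by
      ext z
      simp only [mem_erase, mem_insert]
      constructor
      · rintro ⟨h2, h3⟩
        by_cases hz : z = b
        · exact Or.inl hz
        · exact Or.inr ⟨h2, hz, h3⟩
      · rintro (rfl | ⟨h2, _, h3⟩)
        · exact ⟨h0b.symm, hbS⟩
        · exact ⟨h2, h3⟩
    rw [he, Finset.sum_insert (by simp)]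
    linarith

/-- the lower bound -/
theorem low5 (A : Finset α) (hA : ∀ a ∈ A, ∀ a' ∈ A, ∀ w, w < a ↔ w < a')
    (hN : 10000 ≤ Fintype.card α) (h1 : 1 ≤ A.card)
    (hb : ∀ x ∈ A, ∀ y ∈ A, x ≠ y → pp (fun σ => gap x y σ < 0) ≤ 2 / 5 ∨
      pp (fun σ => gap y x σ < 0) ≤ 2 / 5) (b : α) (hbA : b ∈ A)
    (hmax : ∀ a ∈ A, hh a ≤ hh b) :
    (1 + ((A.card : ℝ) - 1) * (1997 / 10000)) ^ 2 < (2 * hh b + 2) * ∑ a ∈ A, ff a := by
  obtain ⟨k, hk⟩ : ∃ k, A.card = k + 1 := ⟨A.card - 1, by omega⟩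
  obtain ⟨a₀, h0, hle⟩ := chain5 A hA hN hb k A (Finset.Subset.refl _) hk b hbA hmax
  have hh0 := hh_ge a₀
  have hF : 0 < ∑ a ∈ A, ff a := Finset.sum_pos (fun a _ => ff_pos a) ⟨b, hbA⟩
  let u : α → ℝ := fun a => if a = a₀ then 1 else 1997 / 10000
  have hcs := Finset.sq_sum_div_le_sum_sq_div A u (g := ff) (fun a _ => ff_pos a)
  have e1 : ∑ a ∈ A, u a = 1 + ((A.card : ℝ) - 1) * (1997 / 10000) := by
    rw [← Finset.add_sum_erase _ _ h0]
    have : ∑ a ∈ A.erase a₀, u a = ∑ _a ∈ A.erase a₀, (1997 / 10000 : ℝ) :=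
      Finset.sum_congr rfl fun a ha => by simp [u, Finset.ne_of_mem_erase ha]
    rw [this, Finset.sum_const, Finset.card_erase_of_mem h0, nsmul_eq_mul,
      Nat.cast_sub h1]
    simp [u]
  have e2 : ∑ a ∈ A, u a ^ 2 / ff a ≤
      1 / ff a₀ + 2 * ∑ a ∈ A.erase a₀, 1995 / 100000 / ff a := by
    rw [← Finset.add_sum_erase _ _ h0, Finset.mul_sum]
    have h3 : ∑ a ∈ A.erase a₀, u a ^ 2 / ff a ≤
        ∑ a ∈ A.erase a₀, 2 * (1995 / 100000 / ff a) := by
      refine Finset.sum_le_sum fun a ha => ?_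
      have h4 := ff_pos a
      have h5 : u a = 1997 / 10000 := by simp [u, Finset.ne_of_mem_erase ha]
      rw [h5, ← mul_div_assoc]
      exact div_le_div_of_nonneg_right (by norm_num) h4.le
    have h6 : u a₀ ^ 2 / ff a₀ = 1 / ff a₀ := by simp [u]
    rw [h6]
    linarith
  rw [Finset.sum_add_distrib] at hle
  have h7 : 0 ≤ ∑ _a ∈ A.erase a₀, (3 / 10 : ℝ) := Finset.sum_nonneg fun _ _ => by norm_num
  have h8 : (∑ a ∈ A, u a) ^ 2 / ∑ a ∈ A, ff a < 2 * hh b + 2 := by
    linarith
  rw [e1, div_lt_iff₀ hF] at h8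
  exact h8

end

/-- the situation in a padded poset -/
structure BigV (α : Type) [Fintype α] [PartialOrder α] (A B : Finset α) : Prop where
  tangle : Tangle α (A : Set α) (B : Set α)
  large : 10000 ≤ Fintype.card α
  below : ∀ a ∈ A, ∃ w, w < a
  unb : ∀ x ∈ A, ∀ y ∈ A, x ≠ y → pp (fun σ => gap x y σ < 0) ≤ 2 / 5 ∨
      pp (fun σ => gap y x σ < 0) ≤ 2 / 5

/-- padding -/
theorem exists_bigV (P : Type) [Fintype P] [PartialOrder P] (A B : Finset P)
    (hT : Tangle P (A : Set P) (B : Set P)) (hbal : balance P < 2 / 5) :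
    ∃ (Q : Type) (_ : Fintype Q) (_ : PartialOrder Q) (ι : P ↪ Q),
      (∀ a b, ι a < ι b ↔ a < b) ∧ BigV Q (A.map ι) (B.map ι) := by
  haveI : Nonempty P := ⟨hT.ne.some⟩
  obtain ⟨Q, iF, iP, ι, hι, hle, hcard, hout, hlow, hprob⟩ := Pool.Agent.TH494.KS_LEX.t_LEX P 5000
  have hlt : ∀ a b : P, ι a < ι b ↔ a < b := by
    intro a b
    rw [lt_iff_le_not_ge, lt_iff_le_not_ge, hle, hle]
  refine ⟨Q, iF, iP, ⟨ι, hι⟩, hlt, ?_, by omega, ?_, ?_⟩
  · have := tangle_map hlt hout hT
    rw [Finset.coe_map, Finset.coe_map]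
    exact this
  · intro a ha
    rw [Finset.mem_map] at ha
    obtain ⟨p, _, rfl⟩ := ha
    have h1 := (hlow p).1
    obtain ⟨q, hq⟩ := Finset.card_pos.1 (show 0 < (univ.filter fun q : Q => q < ι p).card by omega)
    exact ⟨q, (Finset.mem_filter.1 hq).2⟩
  · intro x hx y hy _
    rw [Finset.mem_map] at hx hy
    obtain ⟨p, hp, rfl⟩ := hx
    obtain ⟨q, hq, rfl⟩ := hy
    change pp (fun σ => gap (ι p) (ι q) σ < 0) ≤ 2 / 5 ∨
      pp (fun σ => gap (ι q) (ι p) σ < 0) ≤ 2 / 5
    rw [pp_eq_eP, pp_eq_eP, hprob, hprob, ← prob_eq', ← prob_eq']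
    have hb : min (prob P p q) (prob P q p) ≤ balance P := by
      unfold balance
      exact le_ciSup (f := fun p : P × P => min (prob P p.1 p.2) (prob P p.2 p.1))
        (Set.finite_range _).bddAbove (p, q)
    rcases min_le_iff.mp hb with h4 | h4
    · right; linarith
    · left; linarith

section

variable {α : Type} [Fintype α] [PartialOrder α]

lemma BigV.h2 {A B : Finset α} (h : BigV α A B) : ∀ m ∈ A ∪ B, ∀ e, e ∉ A ∪ B → m < e → e ∈ Uu A := by
  have key : ∀ m ∈ A, ∀ e, e ∉ A ∪ B → m < e → e ∈ Uu A := by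
    intro m hm e he hlt a ha
    by_contra hcon
    have := h.tangle.up_mem m (by simpa using hm) a (by simpa using ha) e hlt hcon
    exact he (Finset.mem_union_right _ (by simpa using this))
  intro m hm e he hlt
  rcases Finset.mem_union.1 hm with h1 | h1
  · exact key m h1 e he hlt
  · obtain ⟨x, hx, hxm⟩ := h.tangle.dn_some m (by simpa using h1)
    exact key x (by simpa using hx) e he (hxm.trans hlt)

lemma BigV.h1 {A B : Finset α} (h : BigV α A B) {a₀ : α} (ha₀ : a₀ ∈ A) :
    ∀ m ∈ A ∪ B, ∀ w ∈ {w | w < a₀}, w < m := by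
  have key : ∀ m ∈ A, ∀ w, w < a₀ → w < m := fun m hm w hw =>
    h.tangle.low a₀ (by simpa using ha₀) m (by simpa using hm) w hw
  intro m hm w hw
  rcases Finset.mem_union.1 hm with h1 | h1
  · exact key m h1 w hw
  · obtain ⟨x, hx, hxm⟩ := h.tangle.dn_some m (by simpa using h1)
    exact (key x (by simpa using hx) w hw).trans hxm

lemma BigV.same {A B : Finset α} (h : BigV α A B) : ∀ a ∈ A, ∀ a' ∈ A, ∀ w, w < a ↔ w < a' :=
  fun a ha a' ha' w => ⟨h.tangle.low a (by simpa using ha) a' (by simpa using ha') w,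
    h.tangle.low a' (by simpa using ha') a (by simpa using ha) w⟩

lemma BigV.disj {A B : Finset α} (h : BigV α A B) : Disjoint A B := by
  rw [Finset.disjoint_left]
  intro x hx hx'
  obtain ⟨y, hy, hyx⟩ := h.tangle.dn_some x (by simpa using hx')
  exact h.tangle.antiL hy (by simpa using hx) hyx

lemma BigV.bounds {A B : Finset α} (h : BigV α A B) {b : α} (hb : b ∈ A)
    (hmax : ∀ a ∈ A, hh a ≤ hh b) :
    (1 + ((A.card : ℝ) - 1) * (1997 / 10000)) ^ 2 <
      ((A.card + B.card + 1 - (B.filter fun z => b < z).card : ℕ) : ℝ) := by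
  have l := low5 A h.same h.large (Finset.card_pos.2 ⟨b, hb⟩) h.unb b hb hmax
  have u := upp_bound (D := {w | w < b}) (U := Uu A) (A := A) (M := A ∪ B) Finset.subset_union_left
    (h.below b hb) (fun a ha w => h.same a ha b hb w) (h.h1 hb) h.h2
    (fun a ha u hu => hu a ha) b hb
  refine lt_of_lt_of_le l (u.trans ?_)
  have h1 : (A ∪ B).card = A.card + B.card := Finset.card_union_of_disjoint h.disj
  have h2 : (B.filter fun z => b < z).card ≤ ((A ∪ B).filter fun z => b < z).card :=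
    Finset.card_le_card (Finset.filter_subset_filter _ Finset.subset_union_right)
  exact_mod_cast (show (A ∪ B).card + 1 - ((A ∪ B).filter fun z => b < z).card ≤
    A.card + B.card + 1 - (B.filter fun z => b < z).card by omega)


theorem BigV.false {A B : Finset α} (h : BigV α A B) (h6 : 43 ≤ A.card) (hBA : B.card ≤ A.card)
    {b : α} (hb : b ∈ A) (hmax : ∀ a ∈ A, hh a ≤ hh b) : False := by
  have h1 := h.bounds hb hmax
  have h4 : A.card + B.card + 1 - (B.filter fun z => b < z).card ≤ 2 * A.card + 1 := by omega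
  have h5 : ((A.card + B.card + 1 - (B.filter fun z => b < z).card : ℕ) : ℝ) ≤ 2 * A.card + 1 := by
    exact_mod_cast h4
  have h9 : (43 : ℝ) ≤ A.card := by exact_mod_cast h6
  nlinarith

end

/-- a tangle whose larger side has at least 43 elements -/
theorem tangle_wide (P : Type) [Fintype P] [PartialOrder P] (A B : Finset P)
    (hT : Tangle P (A : Set P) (B : Set P)) (h6 : 43 ≤ A.card) (hBA : B.card ≤ A.card) :
    2 / 5 ≤ balance P := by
  by_contra hcon
  push Not at hcon
  obtain ⟨Q, iF, iP, ι, hlt, hbig⟩ := exists_bigV P A B hT hcon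
  have hne : (A.map ι).Nonempty := by
    rw [Finset.map_nonempty]
    exact Finset.card_pos.1 (by omega)
  obtain ⟨b, hb, hmax⟩ := Finset.exists_max_image (A.map ι) hh hne
  exact hbig.false (by rw [Finset.card_map]; omega)
    (by rw [Finset.card_map, Finset.card_map]; exact hBA) hb hmax

open Pool.Agent.H931R3.Bal Pool.Agent.R636.BG Pool.Agent.N175.SO in
/-- both sides of a tangle are small or the balance constant is at least `2 / 5` -/
theorem Tangle.wide {P : Type} [Fintype P] [PartialOrder P] {L W : Set P} (hT : Tangle P L W)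
    (hbal : balance P < 2 / 5) :
    (univ.filter (· ∈ L)).card ≤ 42 ∧ (univ.filter (· ∈ W)).card ≤ 42 := by
  set A : Finset P := univ.filter (· ∈ L) with hA
  set B : Finset P := univ.filter (· ∈ W) with hB
  have eA : (A : Set P) = L := by ext; simp [hA]
  have eB : (B : Set P) = W := by ext; simp [hB]
  have hT1 : Tangle P (A : Set P) (B : Set P) := by rw [eA, eB]; exact hT
  rcases le_total B.card A.card with hle | hle
  · have : A.card ≤ 42 := by
      by_contra hcon
      exact absurd (tangle_wide P A B hT1 (by omega) hle) (not_le.2 hbal)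
    omega
  · have : B.card ≤ 42 := by
      by_contra hcon
      have : Nonempty P := ⟨hT.ne.some⟩
      rw [← balance_dual P] at hbal
      let e : P ↪ Pᵒᵈ := ⟨OrderDual.toDual, OrderDual.toDual.injective⟩
      have cA : ((A.map e : Finset Pᵒᵈ) : Set Pᵒᵈ) = L := by
        rw [Finset.coe_map, eA]
        ext x
        constructor
        · rintro ⟨y, hy, rfl⟩; exact hy
        · intro hx; exact ⟨OrderDual.ofDual x, hx, rfl⟩
      have cB : ((B.map e : Finset Pᵒᵈ) : Set Pᵒᵈ) = W := by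
        rw [Finset.coe_map, eB]
        ext x
        constructor
        · rintro ⟨y, hy, rfl⟩; exact hy
        · intro hx; exact ⟨OrderDual.ofDual x, hx, rfl⟩
      have hT2 : Tangle Pᵒᵈ ((B.map e : Finset Pᵒᵈ) : Set Pᵒᵈ) ((A.map e : Finset Pᵒᵈ) : Set Pᵒᵈ) := by
        rw [cA, cB]; exact hT.dual
      exact absurd (tangle_wide Pᵒᵈ (B.map e) (A.map e) hT2 (by rw [card_map]; omega)
        (by rw [card_map, card_map]; exact hle)) (not_le.2 hbal)
    omega

end Pool.Agent.U276.TP
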