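import Mathlib
import Pool.Agent.U276.TP.Wide

/-!
# Many elements with the same lower elements
-/

set_option autoImplicit false
set_option linter.unusedSectionVars false

open Finset
open scoped Classical

namespace Pool.Agent.U276.TP

open Pool.Agent.Y491.BF Pool.Agent.U396.H2 Pool.Agent.H13R3.WB Pool.Agent.TH161.LW

/-- the elements above some but not all elements of `A` -/
noncomputable def sep {P : Type} [Fintype P] [PartialOrder P] (A : Finset P) : Finset P :=
  univ.filter fun w => (∃ a ∈ A, a < w) ∧ ∃ a ∈ A, ¬ a < w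

section

variable {P Q : Type} [Fintype P] [PartialOrder P] [Fintype Q] [PartialOrder Q] {e : P ↪ Q}

lemma same_map (hlt : ∀ a b, e a < e b ↔ a < b)
    (hout : ∀ q : Q, q ∉ Set.range e → ∀ q' : Q, q ≤ q' ∨ q' ≤ q) {A : Finset P}
    (hA : ∀ a ∈ A, ∀ b ∈ A, ∀ w, w < a ↔ w < b) :
    ∀ a ∈ A.map e, ∀ b ∈ A.map e, ∀ w, w < a ↔ w < b := by
  have key : ∀ a ∈ A, ∀ b ∈ A, ∀ w, w < e a → w < e b := by
    intro a ha b hb w hw
    by_cases hr : w ∈ Set.range e
    · obtain ⟨c, rfl⟩ := hr
      rw [hlt] at hw ⊢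
      exact (hA a ha b hb c).1 hw
    · rcases hout w hr (e b) with h | h
      · refine lt_of_le_of_ne h ?_
        rintro rfl
        exact hr ⟨b, rfl⟩
      · exfalso
        have h1 : e b < e a := lt_of_le_of_lt h hw
        rw [hlt] at h1
        exact lt_irrefl b ((hA a ha b hb b).1 h1)
  intro a ha b hb w
  rw [Finset.mem_map] at ha hb
  obtain ⟨a', ha', rfl⟩ := ha
  obtain ⟨b', hb', rfl⟩ := hb
  exact ⟨key a' ha' b' hb' w, key b' hb' a' ha' w⟩

lemma sep_map (hlt : ∀ a b, e a < e b ↔ a < b)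
    (hout : ∀ q : Q, q ∉ Set.range e → ∀ q' : Q, q ≤ q' ∨ q' ≤ q) {A : Finset P}
    (hA : ∀ a ∈ A, ∀ b ∈ A, ∀ w, w < a ↔ w < b) : sep (A.map e) ⊆ (sep A).map e := by
  intro w hw
  obtain ⟨⟨x, hx, hxw⟩, y, hy, hyw⟩ := (Finset.mem_filter.1 hw).2
  rw [Finset.mem_map] at hx hy
  obtain ⟨a, ha, rfl⟩ := hx
  obtain ⟨b, hb, rfl⟩ := hy
  by_cases hr : w ∈ Set.range e
  · obtain ⟨c, rfl⟩ := hr
    rw [hlt] at hxw hyw
    exact Finset.mem_map.2 ⟨c, Finset.mem_filter.2 ⟨mem_univ _, ⟨a, ha, hxw⟩, b, hb, hyw⟩, rfl⟩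
  · exfalso
    rcases hout w hr (e b) with h | h
    · have h1 : e a < e b := lt_of_lt_of_le hxw h
      rw [hlt] at h1
      exact lt_irrefl a ((hA a ha b hb a).2 h1)
    · refine hyw (lt_of_le_of_ne h ?_)
      rintro rfl
      exact hr ⟨b, rfl⟩

end

/-- a poset with many elements with the same lower elements, first form -/
theorem many1 (P : Type) [Fintype P] [PartialOrder P] (A : Finset P)
    (hA : ∀ a ∈ A, ∀ b ∈ A, ∀ w, w < a ↔ w < b) (hne : A.Nonempty)
    (hk : (A.card : ℝ) + (sep A).card + 1 ≤ (1 + ((A.card : ℝ) - 1) * (471 / 1000)) ^ 2) :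
    1 / 3 + 1 / 12000 ≤ balance P := by
  by_contra hcon
  push Not at hcon
  haveI : Nonempty P := ⟨hne.choose⟩
  obtain ⟨Q, iF, iP, ι, hι, hle, hcard, hout, hlow, hprob⟩ := Pool.Agent.TH494.KS_LEX.t_LEX P 5000
  have hlt : ∀ a b : P, ι a < ι b ↔ a < b := by
    intro a b
    rw [lt_iff_le_not_ge, lt_iff_le_not_ge, hle, hle]
  set e : P ↪ Q := ⟨ι, hι⟩ with he
  have hsame := same_map (e := e) hlt hout hA
  have hsep := sep_map (e := e) hlt hout hA
  have hne' : (A.map e).Nonempty := by rw [Finset.map_nonempty]; exact hne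
  obtain ⟨b, hb, hmax⟩ := Finset.exists_max_image (A.map e) hh hne'
  have hbelow : ∃ w, w < b := by
    rw [Finset.mem_map] at hb
    obtain ⟨p, _, rfl⟩ := hb
    have h1 := (hlow p).1
    obtain ⟨q, hq⟩ := Finset.card_pos.1 (show 0 < (univ.filter fun q : Q => q < ι p).card by omega)
    exact ⟨q, (Finset.mem_filter.1 hq).2⟩
  have l := low_bound (A.map e) hsame (by omega) (Finset.card_pos.2 hne') (by
    intro x hx y hy _
    rw [Finset.mem_map] at hx hy
    obtain ⟨p, hp, rfl⟩ := hx
    obtain ⟨q, hq, rfl⟩ := hy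
    change pp (fun σ => gap (ι p) (ι q) σ < 0) ≤ 4001 / 12000 ∨
      pp (fun σ => gap (ι q) (ι p) σ < 0) ≤ 4001 / 12000
    rw [pp_eq_eP, pp_eq_eP, hprob, hprob, ← prob_eq', ← prob_eq']
    have hb : min (prob P p q) (prob P q p) ≤ balance P := by
      unfold balance
      exact le_ciSup (f := fun p : P × P => min (prob P p.1 p.2) (prob P p.2 p.1))
        (Set.finite_range _).bddAbove (p, q)
    rcases min_le_iff.mp hb with h4 | h4
    · right; linarith
    · left; linarith) b hb hmax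
  have u := upp_bound (D := {w | w < b}) (U := {u | ∀ a ∈ A.map e, a < u}) (A := A.map e)
    (M := A.map e ∪ sep (A.map e)) Finset.subset_union_left hbelow
    (fun a ha w => hsame a ha b hb w)
    (by
      intro m hm w hw
      rcases Finset.mem_union.1 hm with h1 | h1
      · exact (hsame m h1 b hb w).2 hw
      · obtain ⟨⟨x, hx, hxm⟩, -⟩ := (Finset.mem_filter.1 h1).2
        exact ((hsame x hx b hb w).2 hw).trans hxm)
    (by
      intro m hm q hq hmq a ha
      by_contra hcon2
      have : ∃ x ∈ A.map e, x < q := by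
        rcases Finset.mem_union.1 hm with h1 | h1
        · exact ⟨m, h1, hmq⟩
        · obtain ⟨⟨x, hx, hxm⟩, -⟩ := (Finset.mem_filter.1 h1).2
          exact ⟨x, hx, hxm.trans hmq⟩
      exact hq (Finset.mem_union_right _ (Finset.mem_filter.2 ⟨mem_univ _, this, a, ha, hcon2⟩)))
    (fun a ha u hu => hu a ha) b hb
  have h1 := lt_of_lt_of_le l u
  have h2 : (A.map e ∪ sep (A.map e)).card + 1 -
      ((A.map e ∪ sep (A.map e)).filter fun z => b < z).card ≤ A.card + (sep A).card + 1 := by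
    have h3 := Finset.card_union_le (A.map e) (sep (A.map e))
    have h4 := Finset.card_le_card hsep
    rw [Finset.card_map] at h3 h4
    omega
  have h5 : (((A.map e ∪ sep (A.map e)).card + 1 -
      ((A.map e ∪ sep (A.map e)).filter fun z => b < z).card : ℕ) : ℝ) ≤
      (A.card : ℝ) + (sep A).card + 1 := by exact_mod_cast h2
  rw [Finset.card_map] at h1
  linarith

/-- a poset with many elements with the same lower elements, first form -/
theorem many2 (P : Type) [Fintype P] [PartialOrder P] (A : Finset P)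
    (hA : ∀ a ∈ A, ∀ b ∈ A, ∀ w, w < a ↔ w < b) (hne : A.Nonempty)
    (hk : (A.card : ℝ) + (sep A).card + 1 ≤ (1 + ((A.card : ℝ) - 1) * (1997 / 10000)) ^ 2) :
    2 / 5 ≤ balance P := by
  by_contra hcon
  push Not at hcon
  haveI : Nonempty P := ⟨hne.choose⟩
  obtain ⟨Q, iF, iP, ι, hι, hle, hcard, hout, hlow, hprob⟩ := Pool.Agent.TH494.KS_LEX.t_LEX P 5000
  have hlt : ∀ a b : P, ι a < ι b ↔ a < b := by
    intro a b
    rw [lt_iff_le_not_ge, lt_iff_le_not_ge, hle, hle]
  set e : P ↪ Q := ⟨ι, hι⟩ with he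
  have hsame := same_map (e := e) hlt hout hA
  have hsep := sep_map (e := e) hlt hout hA
  have hne' : (A.map e).Nonempty := by rw [Finset.map_nonempty]; exact hne
  obtain ⟨b, hb, hmax⟩ := Finset.exists_max_image (A.map e) hh hne'
  have hbelow : ∃ w, w < b := by
    rw [Finset.mem_map] at hb
    obtain ⟨p, _, rfl⟩ := hb
    have h1 := (hlow p).1
    obtain ⟨q, hq⟩ := Finset.card_pos.1 (show 0 < (univ.filter fun q : Q => q < ι p).card by omega)
    exact ⟨q, (Finset.mem_filter.1 hq).2⟩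
  have l := low5 (A.map e) hsame (by omega) (Finset.card_pos.2 hne') (by
    intro x hx y hy _
    rw [Finset.mem_map] at hx hy
    obtain ⟨p, hp, rfl⟩ := hx
    obtain ⟨q, hq, rfl⟩ := hy
    change pp (fun σ => gap (ι p) (ι q) σ < 0) ≤ 2 / 5 ∨
      pp (fun σ => gap (ι q) (ι p) σ < 0) ≤ 2 / 5
    rw [pp_eq_eP, pp_eq_eP, hprob, hprob, ← prob_eq', ← prob_eq']
    have hb : min (prob P p q) (prob P q p) ≤ balance P := by
      unfold balance
      exact le_ciSup (f := fun p : P × P => min (prob P p.1 p.2) (prob P p.2 p.1))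
        (Set.finite_range _).bddAbove (p, q)
    rcases min_le_iff.mp hb with h4 | h4
    · right; linarith
    · left; linarith) b hb hmax
  have u := upp_bound (D := {w | w < b}) (U := {u | ∀ a ∈ A.map e, a < u}) (A := A.map e)
    (M := A.map e ∪ sep (A.map e)) Finset.subset_union_left hbelow
    (fun a ha w => hsame a ha b hb w)
    (by
      intro m hm w hw
      rcases Finset.mem_union.1 hm with h1 | h1
      · exact (hsame m h1 b hb w).2 hw
      · obtain ⟨⟨x, hx, hxm⟩, -⟩ := (Finset.mem_filter.1 h1).2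
        exact ((hsame x hx b hb w).2 hw).trans hxm)
    (by
      intro m hm q hq hmq a ha
      by_contra hcon2
      have : ∃ x ∈ A.map e, x < q := by
        rcases Finset.mem_union.1 hm with h1 | h1
        · exact ⟨m, h1, hmq⟩
        · obtain ⟨⟨x, hx, hxm⟩, -⟩ := (Finset.mem_filter.1 h1).2
          exact ⟨x, hx, hxm.trans hmq⟩
      exact hq (Finset.mem_union_right _ (Finset.mem_filter.2 ⟨mem_univ _, this, a, ha, hcon2⟩)))
    (fun a ha u hu => hu a ha) b hb
  have h1 := lt_of_lt_of_le l u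
  have h2 : (A.map e ∪ sep (A.map e)).card + 1 -
      ((A.map e ∪ sep (A.map e)).filter fun z => b < z).card ≤ A.card + (sep A).card + 1 := by
    have h3 := Finset.card_union_le (A.map e) (sep (A.map e))
    have h4 := Finset.card_le_card hsep
    rw [Finset.card_map] at h3 h4
    omega
  have h5 : (((A.map e ∪ sep (A.map e)).card + 1 -
      ((A.map e ∪ sep (A.map e)).filter fun z => b < z).card : ℕ) : ℝ) ≤
      (A.card : ℝ) + (sep A).card + 1 := by exact_mod_cast h2
  rw [Finset.card_map] at h1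
  linarith

end Pool.Agent.U276.TP
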