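import Mathlib
import Pool.Agent.U276.TP.Wide
import Pool.Agent.U276.TP.Free
import Pool.Agent.TH447.KS.SemiFin

/-!
# `(3+1)`-free posets of large width
-/

set_option autoImplicit false
set_option linter.unusedSectionVars false

open Finset
open scoped Classical

namespace Pool.Agent.U276.TP

open Pool.Agent.H13R3.WB Pool.Agent.H931R3.Bal Pool.Agent.TH447.KS

section

variable {P : Type} [PartialOrder P]

/-- an element below `x` is not below all elements above `y` -/
def Mix (x y : P) : Prop := ∃ a t, a < x ∧ y < t ∧ ¬ a < t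

/-- the sets of lower elements are incomparable -/
def DCross (x y : P) : Prop := ∃ u v, u < x ∧ ¬ u < y ∧ v < y ∧ ¬ v < x

lemma DCross.symm {x y : P} (h : DCross x y) : DCross y x := by
  obtain ⟨u, v, h1, h2, h3, h4⟩ := h
  exact ⟨v, u, h3, h4, h1, h2⟩

lemma comp_of_cross {x y : P} (h : Cross x y) : y ∈ Comp x := Relation.ReflTransGen.single h

lemma comp_trans {x y z : P} (h : y ∈ Comp x) (h' : z ∈ Comp y) : z ∈ Comp x :=
  Relation.ReflTransGen.trans h h'

lemma mix_comp {x y y' : P} (h : Mix x y) (h' : Mix x y') (hy : ¬ y < x) (hy' : ¬ y' < x) :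
    y' ∈ Comp y := by
  obtain ⟨a, t, h1, h2, h3⟩ := h
  obtain ⟨a', t', h1', h2', h3'⟩ := h'
  have c1 : Cross a y := ⟨x, t, h1, hy, h2, h3⟩
  have c2 : Cross a' y' := ⟨x, t', h1', hy', h2', h3'⟩
  by_cases k1 : a < t'
  · by_cases k2 : a' < t
    · have c3 : Cross a a' := ⟨t', t, k1, h3', k2, h3⟩
      exact comp_trans (comp_of_cross c1.symm) (comp_trans (comp_of_cross c3) (comp_of_cross c2))
    · have c3 : Cross a' y := ⟨x, t, h1', hy, h2, k2⟩
      exact comp_trans (comp_of_cross c3.symm) (comp_of_cross c2)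
  · have c3 : Cross a y' := ⟨x, t', h1, hy', h2', k1⟩
    exact comp_trans (comp_of_cross c1.symm) (comp_of_cross c3)

/-- the relation which is excluded -/
def Rel (x y : P) : Prop :=
  Cross x y ∨ DCross x y ∨ (Mix x y ∧ ¬ y < x) ∨ (Mix y x ∧ ¬ x < y)

lemma Rel.symm {x y : P} (h : Rel x y) : Rel y x := by
  rcases h with h | h | h | h
  · exact Or.inl h.symm
  · exact Or.inr (Or.inl h.symm)
  · exact Or.inr (Or.inr (Or.inr h))
  · exact Or.inr (Or.inr (Or.inl h))

/-- nested sets -/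
lemma nested (hP : Free31 P) {x y : P} (h1 : ¬ Cross x y) (h2 : ¬ DCross x y) :
    ((∀ s, y < s → x < s) ∧ ∀ s, s < x → s < y) ∨ ((∀ s, x < s → y < s) ∧ ∀ s, s < y → s < x) := by
  by_contra hcon
  rw [not_or, not_and_or, not_and_or] at hcon
  simp only [not_forall] at hcon
  obtain ⟨hc1, hc2⟩ := hcon
  rcases hc1 with ⟨s, hs, hs'⟩ | ⟨s, hs, hs'⟩ <;> rcases hc2 with ⟨t, ht, ht'⟩ | ⟨t, ht, ht'⟩
  · exact h1 ⟨t, s, ht, ht', hs, hs'⟩
  · -- `s` is above `y`, not above `x`; `t` is below `y`, not below `x`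
    rcases hP t y s x ht hs with h | h
    · exact ht' h
    · exact hs' h
  · rcases hP s x t y hs ht with h | h
    · exact hs' h
    · exact ht' h
  · exact h2 ⟨s, t, hs, hs', ht, ht'⟩

end

section

variable {P : Type} [Fintype P] [PartialOrder P]

lemma small_comp (hP : Free31 P) (hbal : balance P < 2 / 5) {y a : P} (h : Cross y a) :
    (univ.filter (· ∈ Comp y)).card ≤ 42 ∧ (univ.filter (· ∈ Top y)).card ≤ 42 :=
  (exists_tangle hP h).wide hbal

lemma deg_cross (hP : Free31 P) (hbal : balance P < 2 / 5) (x : P) :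
    (univ.filter (Cross x)).card ≤ 42 := by
  rcases (univ.filter (Cross x)).eq_empty_or_nonempty with h | ⟨y, hy⟩
  · rw [h]; simp
  · refine le_trans (card_le_card fun z hz => ?_) (small_comp hP hbal (mem_filter.1 hy).2).1
    exact mem_filter.2 ⟨mem_univ _, comp_of_cross (mem_filter.1 hz).2⟩

lemma deg_mix (hP : Free31 P) (hbal : balance P < 2 / 5) (x : P) :
    (univ.filter (fun y => Mix x y ∧ ¬ y < x)).card ≤ 42 := by
  rcases (univ.filter (fun y => Mix x y ∧ ¬ y < x)).eq_empty_or_nonempty with h | ⟨y, hy⟩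
  · rw [h]; simp
  · obtain ⟨h1, h2⟩ := (mem_filter.1 hy).2
    have hc : ∃ a, Cross y a := by
      obtain ⟨a, t, k1, k2, k3⟩ := h1
      exact ⟨a, Cross.symm ⟨x, t, k1, h2, k2, k3⟩⟩
    obtain ⟨a, hc⟩ := hc
    refine le_trans (card_le_card fun z hz => ?_) (small_comp hP hbal hc).1
    obtain ⟨h3, h4⟩ := (mem_filter.1 hz).2
    exact mem_filter.2 ⟨mem_univ _, mix_comp h1 h3 h2 h4⟩

lemma deg_mix' (hP : Free31 P) (hbal : balance P < 2 / 5) (x : P) :
    (univ.filter (fun y => Mix y x ∧ ¬ x < y)).card ≤ 42 := by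
  rcases (univ.filter (fun y => Mix y x ∧ ¬ x < y)).eq_empty_or_nonempty with h | ⟨y, hy⟩
  · rw [h]; simp
  · have key : ∀ z, Mix z x → ¬ x < z → ∃ a, Cross x a ∧ a < z := by
      rintro z ⟨a, t, k1, k2, k3⟩ hz
      exact ⟨a, Cross.symm ⟨z, t, k1, hz, k2, k3⟩, k1⟩
    obtain ⟨h1, h2⟩ := (mem_filter.1 hy).2
    obtain ⟨a, hc, -⟩ := key y h1 h2
    refine le_trans (card_le_card fun z hz => ?_) (small_comp hP hbal hc).2
    obtain ⟨h3, h4⟩ := (mem_filter.1 hz).2
    obtain ⟨c, hc', hcz⟩ := key z h3 h4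
    exact mem_filter.2 ⟨mem_univ _, ⟨c, comp_of_cross hc', hcz⟩,
      ⟨x, Relation.ReflTransGen.refl, h4⟩⟩

lemma deg_dcross (hP : Free31 P) (hbal : balance P < 2 / 5) (x : P) :
    (univ.filter (DCross x)).card ≤ 42 := by
  rcases (univ.filter (DCross x)).eq_empty_or_nonempty with h | ⟨y, hy⟩
  · rw [h]; simp
  · obtain ⟨u, v, h1, h2, h3, h4⟩ := (mem_filter.1 hy).2
    have hc : Cross v u := Cross.symm ⟨x, y, h1, h4, h3, h2⟩
    refine le_trans (card_le_card fun z hz => ?_) (small_comp hP hbal hc).2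
    obtain ⟨u', v', k1, k2, k3, k4⟩ := (mem_filter.1 hz).2
    have m1 : Mix x v := ⟨u, y, h1, h3, h2⟩
    have m2 : Mix x v' := ⟨u', z, k1, k3, k2⟩
    have e1 : v' ∈ Comp v := mix_comp m1 m2 h4 k4
    have c2 : Cross v' u' := Cross.symm ⟨x, z, k1, k4, k3, k2⟩
    exact mem_filter.2 ⟨mem_univ _, ⟨v', e1, k3⟩, ⟨u', comp_trans e1 (comp_of_cross c2), k2⟩⟩

lemma deg_rel (hP : Free31 P) (hbal : balance P < 2 / 5) (x : P) :
    (univ.filter (Rel x)).card ≤ 168 := by
  have h1 := deg_cross hP hbal x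
  have h2 := deg_dcross hP hbal x
  have h3 := deg_mix hP hbal x
  have h4 := deg_mix' hP hbal x
  have hsub : univ.filter (Rel x) ⊆ univ.filter (Cross x) ∪ (univ.filter (DCross x) ∪
      (univ.filter (fun y => Mix x y ∧ ¬ y < x) ∪ univ.filter (fun y => Mix y x ∧ ¬ x < y))) := by
    intro y hy
    simp only [mem_union, mem_filter, mem_univ, true_and] at hy ⊢
    exact hy
  have e1 := card_le_card hsub
  have e2 := card_union_le (univ.filter (Cross x)) (univ.filter (DCross x) ∪
      (univ.filter (fun y => Mix x y ∧ ¬ y < x) ∪ univ.filter (fun y => Mix y x ∧ ¬ x < y)))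
  have e3 := card_union_le (univ.filter (DCross x))
      (univ.filter (fun y => Mix x y ∧ ¬ y < x) ∪ univ.filter (fun y => Mix y x ∧ ¬ x < y))
  have e4 := card_union_le (univ.filter (fun y => Mix x y ∧ ¬ y < x))
    (univ.filter (fun y => Mix y x ∧ ¬ x < y))
  omega

/-- an independent set -/
lemma exists_indep (hP : Free31 P) (hbal : balance P < 2 / 5) (A : Finset P) :
    ∃ S ⊆ A, (∀ x ∈ S, ∀ y ∈ S, x ≠ y → ¬ Rel x y) ∧ A.card ≤ 169 * S.card := by
  obtain ⟨S, hS, hmax⟩ := exists_max_image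
    (A.powerset.filter (fun S => ∀ x ∈ S, ∀ y ∈ S, x ≠ y → ¬ Rel x y)) Finset.card
    ⟨∅, by simp⟩
  rw [mem_filter, mem_powerset] at hS
  refine ⟨S, hS.1, hS.2, ?_⟩
  have hsub : A ⊆ S.biUnion (fun s => insert s (univ.filter (Rel s))) := by
    intro a ha
    rw [mem_biUnion]
    by_contra hcon
    push Not at hcon
    have haS : a ∉ S := fun h => hcon a h (mem_insert_self _ _)
    have hno : ∀ s ∈ S, ¬ Rel s a := fun s hs h =>
      hcon s hs (mem_insert_of_mem (mem_filter.2 ⟨mem_univ _, h⟩))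
    have h1 := hmax (insert a S) (by
      rw [mem_filter, mem_powerset]
      refine ⟨insert_subset ha hS.1, ?_⟩
      intro x hx y hy hxy
      rw [mem_insert] at hx hy
      rcases hx with rfl | hx <;> rcases hy with rfl | hy
      · exact absurd rfl hxy
      · exact fun h => hno y hy h.symm
      · exact hno x hx
      · exact hS.2 x hx y hy hxy)
    rw [card_insert_of_notMem haS] at h1
    omega
  refine (card_le_card hsub).trans (card_biUnion_le.trans ?_)
  have h2 : ∀ s ∈ S, (insert s (univ.filter (Rel s))).card ≤ 169 := fun s _ =>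
    (card_insert_le _ _).trans (by have := deg_rel hP hbal s; omega)
  refine (sum_le_sum h2).trans ?_
  rw [sum_const, smul_eq_mul, mul_comm]

/-- the number of elements below `x` minus the number of elements above `x` -/
noncomputable def gg (x : P) : ℝ :=
  ((univ.filter (· < x)).card : ℝ) - ((univ.filter (x < ·)).card : ℝ)

lemma sorted_nested (hP : Free31 P) {x y : P} (h1 : ¬ Cross x y) (h2 : ¬ DCross x y)
    (h : gg x ≤ gg y) : (∀ s, y < s → x < s) ∧ ∀ s, s < x → s < y := by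
  rcases nested hP h1 h2 with h3 | ⟨h3, h4⟩
  · exact h3
  · have s1 : univ.filter (x < ·) ⊆ univ.filter (y < ·) := fun s hs =>
      mem_filter.2 ⟨mem_univ _, h3 s (mem_filter.1 hs).2⟩
    have s2 : univ.filter (· < y) ⊆ univ.filter (· < x) := fun s hs =>
      mem_filter.2 ⟨mem_univ _, h4 s (mem_filter.1 hs).2⟩
    have c1 : ((univ.filter (x < ·)).card : ℝ) ≤ (univ.filter (y < ·)).card := by
      exact_mod_cast card_le_card s1
    have c2 : ((univ.filter (· < y)).card : ℝ) ≤ (univ.filter (· < x)).card := by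
      exact_mod_cast card_le_card s2
    unfold gg at h
    have d1 : (univ.filter (y < ·)).card ≤ (univ.filter (x < ·)).card := by
      have : ((univ.filter (y < ·)).card : ℝ) ≤ (univ.filter (x < ·)).card := by linarith
      exact_mod_cast this
    have d2 : (univ.filter (· < x)).card ≤ (univ.filter (· < y)).card := by
      have : ((univ.filter (· < x)).card : ℝ) ≤ (univ.filter (· < y)).card := by linarith
      exact_mod_cast this
    have e1 := eq_of_subset_of_card_le s1 d1
    have e2 := eq_of_subset_of_card_le s2 d2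
    refine ⟨fun s hs => ?_, fun s hs => ?_⟩
    · have : s ∈ univ.filter (x < ·) := by rw [e1]; exact mem_filter.2 ⟨mem_univ _, hs⟩
      exact (mem_filter.1 this).2
    · have : s ∈ univ.filter (· < y) := by rw [e2]; exact mem_filter.2 ⟨mem_univ _, hs⟩
      exact (mem_filter.1 this).2

lemma inc_free (hP : Free31 P) {w : ℕ}
    (hw : ∀ A : Finset P, (∀ a ∈ A, ∀ b ∈ A, ¬ lt' P a b) → A.card ≤ w) (x : P) :
    inc (lt' P) x ≤ 2 * w := by
  set I := univ.filter (fun z => ¬ lt' P x z ∧ ¬ lt' P z x) with hI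
  set M1 := I.filter (fun z => ∀ y ∈ I, ¬ y < z) with hM1
  set M2 := I.filter (fun z => ¬ ∀ y ∈ I, ¬ y < z) with hM2
  have h1 : M1.card ≤ w := by
    apply hw
    intro a ha b hb hab
    exact (mem_filter.1 hb).2 a (mem_filter.1 ha).1 hab
  have h2 : M2.card ≤ w := by
    apply hw
    intro a ha b hb hab
    obtain ⟨ha1, ha2⟩ := mem_filter.1 ha
    push Not at ha2
    obtain ⟨y, hy, hya⟩ := ha2
    have hy' := (mem_filter.1 hy).2
    have hb' := (mem_filter.1 (mem_filter.1 hb).1).2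
    rcases hP y a b x hya hab with h | h
    · exact hy'.2 h
    · exact hb'.1 h
  have h3 : M1.card + M2.card = I.card := by
    rw [hM1, hM2]
    exact card_filter_add_card_filter_not _
  have h4 : inc (lt' P) x = I.card := rfl
  omega

lemma harm_num' (w m : ℕ) (hw : 40000 ≤ w) (hm : w ≤ 169 * (m + 1)) :
    (harmonic (2 * w) : ℝ) / (m : ℝ) ≤ 1 / 10 := by
  have hwR : (40000 : ℝ) ≤ w := by exact_mod_cast hw
  have hmR : (w : ℝ) ≤ 169 * (m + 1) := by exact_mod_cast hm
  rw [div_le_iff₀ (by linarith)]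
  have h2 := harmonic_le_one_add_log (2 * w)
  have h4 : Real.log ((2 * w : ℕ) : ℝ) ≤ 14 * Real.log 2 + (w : ℝ) / 8192 - 1 := by
    have e : ((2 * w : ℕ) : ℝ) = 2 ^ 14 * ((w : ℝ) / 8192) := by push_cast; ring
    rw [e, Real.log_mul (by norm_num) (by positivity), Real.log_pow]
    have := Real.log_le_sub_one_of_pos (show 0 < (w : ℝ) / 8192 by positivity)
    push_cast
    linarith
  have h5 := Real.log_two_lt_d9
  have h6 : (harmonic (2 * w) : ℝ) ≤ 1 + Real.log ((2 * w : ℕ) : ℝ) := h2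
  nlinarith

/-- **`(3+1)`-free posets of large width.** -/
theorem free31_wide (hP : Free31 P) {w : ℕ} (hw : 40000 ≤ w) (h : HasWidth P w) :
    2 / 5 ≤ balance P := by
  by_contra hcon
  push Not at hcon
  obtain ⟨⟨A, hA, hAc⟩, hmax⟩ := h
  have hanti := anti_iff.1 hA
  have hmax' : ∀ B : Finset P, (∀ a ∈ B, ∀ b ∈ B, ¬ lt' P a b) → B.card ≤ w :=
    fun B hB => hmax B (anti_iff.2 hB)
  obtain ⟨S, hSA, hS, hcard⟩ := exists_indep hP hcon A
  obtain ⟨m, hm⟩ : ∃ m, S.card = m + 1 := ⟨S.card - 1, by omega⟩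
  have hm1 : 1 ≤ m := by omega
  obtain ⟨z, hz1, hz2, -, hz4⟩ := exists_sorted S gg (by omega)
  have hA' : ∀ i j, ¬ z i < z j := fun i j => hanti _ (hSA (hz1 i)) _ (hSA (hz1 j))
  have hns : ∀ i j, i ≤ j → (∀ s, z j < s → z i < s) ∧ ∀ s, s < z i → s < z j := by
    intro i j hij
    by_cases he : z i = z j
    · rw [he]; exact ⟨fun _ h => h, fun _ h => h⟩
    · have h1 := hS _ (hz1 i) _ (hz1 j) he
      unfold Rel at h1
      push Not at h1
      exact sorted_nested hP h1.1 h1.2.1 (hz4 i j hij)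
  obtain ⟨i, hi, h⟩ := chain_pair (lt' P) z m hm1
    (fun i _ j _ => hA' i j)
    (fun i _ j _ a t h1 h2 => by
      by_cases he : z i = z j
      · have h1' : a < z i := h1
        rw [he] at h1'
        exact h1'.trans h2
      · by_contra hcon2
        refine hS _ (hz1 i) _ (hz1 j) he (Or.inr (Or.inr (Or.inl ⟨⟨a, t, h1, h2, hcon2⟩, hA' j i⟩))))
    (Or.inl fun i _ s hs => (hns i (i + 1) (Nat.le_succ i)).1 s hs)
    (Or.inr fun i _ s hs => (hns i (i + 1) (Nat.le_succ i)).2 s hs)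
    (2 * w) (fun i _ => inc_free hP hmax' (z i))
  have hne : z i ≠ z (i + 1) := by
    intro he
    have := hz2 i (i + 1) (by omega) (by omega) he
    omega
  have h' : |cnt (lt' P) (z i) (z (i + 1)) - cnt (lt' P) (z (i + 1)) (z i)| ≤
      2 * ((harmonic (2 * w) : ℝ) / (m : ℝ)) * (Lin (lt' P)).card := by
    refine h.trans (le_of_eq ?_)
    ring
  obtain ⟨h3, h4⟩ := half_of_abs' hne h'
  have h5 := le_balance_of_cnt h3 h4
  have h6 := harm_num' w m hw (by rw [← hm, ← hAc]; exact hcard)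
  linarith

end

end Pool.Agent.U276.TP
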