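import Mathlib
import Pool.Agent.TH447.KS.SemiFin
import Pool.Agent.U276.TP.Tangle

/-!
# A poset of width three with five elements, eleven linear extensions and balance constant `4/11`
-/

set_option autoImplicit false

open Finset

namespace Pool.Agent.U276.TP

open Pool.Agent.H13R3.WB Pool.Agent.H931R3.Bal Pool.Agent.TH447.KS

/-- the order relation: `0 < 2 < 4`, `0 < 3`, `1 < 4` -/
def le5 (a b : Fin 5) : Bool :=
  (a == b) || (a == 0 && (b == 2 || b == 3 || b == 4)) || (a == 1 && b == 4) || (a == 2 && b == 4)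

/-- the five elements -/
def V5 : Type := Fin 5

instance : Fintype V5 := inferInstanceAs (Fintype (Fin 5))

instance : DecidableEq V5 := inferInstanceAs (DecidableEq (Fin 5))

lemma le5_refl : ∀ a : Fin 5, le5 a a = true := by decide +kernel

lemma le5_trans : ∀ a b c : Fin 5, le5 a b = true → le5 b c = true → le5 a c = true := by
  decide +kernel

lemma le5_anti : ∀ a b : Fin 5, le5 a b = true → le5 b a = true → a = b := by decide +kernel

instance : PartialOrder V5 where
  le a b := le5 a b = true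
  le_refl := le5_refl
  le_trans := le5_trans
  le_antisymm := le5_anti

lemma key5 : ∀ x y : Fin 5,
    ((univ : Finset (Fin 5 ≃ Fin 5)).filter
      (fun f => (∀ a b, le5 a b = true → f a ≤ f b) ∧ f x < f y)).card ≤ 4 ∨
    ((univ : Finset (Fin 5 ≃ Fin 5)).filter
      (fun f => (∀ a b, le5 a b = true → f a ≤ f b) ∧ f y < f x)).card ≤ 4 := by
  decide +kernel

lemma all5 : ((univ : Finset (Fin 5 ≃ Fin 5)).filter
      (fun f => (∀ a b, le5 a b = true → f a ≤ f b))).card = 11 := by
  decide +kernel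

lemma free5 : ∀ a b c d : Fin 5, (le5 a b = true ∧ a ≠ b) → (le5 b c = true ∧ b ≠ c) →
    ((le5 a d = true ∧ a ≠ d) ∨ (le5 d c = true ∧ d ≠ c)) := by
  decide +kernel

lemma anti5 : ∀ s : Finset (Fin 5), (∀ a ∈ s, ∀ b ∈ s, a ≠ b → ¬ le5 a b = true) → s.card ≤ 3 := by
  decide +kernel

lemma V5_lt {a b : V5} : a < b ↔ (le5 a b = true ∧ a ≠ b) := by
  rw [lt_iff_le_and_ne]
  exact Iff.rfl

lemma V5_free : Free31 V5 := by
  intro a b c d hab hbc
  rw [V5_lt] at hab hbc
  rw [V5_lt, V5_lt]
  exact free5 a b c d hab hbc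

lemma V5_width : HasWidth V5 3 := by
  refine ⟨⟨({1, 2, 3} : Finset (Fin 5)), ?_, rfl⟩, ?_⟩
  · have h : ∀ a ∈ ({1, 2, 3} : Finset (Fin 5)), ∀ b ∈ ({1, 2, 3} : Finset (Fin 5)), a ≠ b →
        ¬ le5 a b = true := by decide +kernel
    intro a ha b hb hab
    exact h a ha b hb hab
  · intro s hs
    exact anti5 s fun a ha b hb hab => hs ha hb hab

lemma V5_card (x y : V5) : Nat.card {f : V5 ≃ Fin 5 // Monotone f ∧ f x < f y} =
    ((univ : Finset (Fin 5 ≃ Fin 5)).filter
      (fun f => (∀ a b, le5 a b = true → f a ≤ f b) ∧ f x < f y)).card := by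
  rw [← Fintype.card_subtype, ← Nat.card_eq_fintype_card]
  apply Nat.card_congr
  exact Equiv.subtypeEquivRight fun f => ⟨fun h => ⟨fun a b => @h.1 a b, h.2⟩,
    fun h => ⟨fun a b => h.1 a b, h.2⟩⟩

lemma V5_card' : Nat.card {f : V5 ≃ Fin 5 // Monotone f} = 11 := by
  rw [← all5, ← Fintype.card_subtype, ← Nat.card_eq_fintype_card]
  apply Nat.card_congr
  exact Equiv.subtypeEquivRight fun f => ⟨fun h => fun a b => @h a b, fun h => fun a b => h a b⟩

lemma V5_balance : balance V5 ≤ 4 / 11 := by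
  have hc : Fintype.card V5 = 5 := Fintype.card_fin 5
  have : Nonempty (V5 × V5) := ⟨((0 : Fin 5), (0 : Fin 5))⟩
  unfold balance
  apply ciSup_le
  rintro ⟨p, q⟩
  simp only
  rw [prob_card hc, prob_card hc, V5_card, V5_card, V5_card']
  rcases key5 p q with h | h
  · refine (min_le_left _ _).trans ?_
    have h' : ((((univ : Finset (Fin 5 ≃ Fin 5)).filter
      (fun f => (∀ a b, le5 a b = true → f a ≤ f b) ∧ f p < f q)).card : ℕ) : ℝ) ≤ 4 := by
      exact_mod_cast h
    push_cast
    exact div_le_div_of_nonneg_right h' (by norm_num)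
  · refine (min_le_right _ _).trans ?_
    have h' : ((((univ : Finset (Fin 5 ≃ Fin 5)).filter
      (fun f => (∀ a b, le5 a b = true → f a ≤ f b) ∧ f q < f p)).card : ℕ) : ℝ) ≤ 4 := by
      exact_mod_cast h
    push_cast
    exact div_le_div_of_nonneg_right h' (by norm_num)

end Pool.Agent.U276.TP
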